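import Pool.Agent.H224.MPS.Proj

/-!
# The energy estimate
-/

set_option autoImplicit false

open MeasureTheory Set Filter Topology
open scoped ENNReal NNReal Classical

namespace Pool.Agent.H224.MPS

variable {j m : ℕ}

/-- distance of cells -/
noncomputable def Dn (y y' : Fin j ⊕ Fin m → ℤ) : ℕ :=
  Finset.univ.sup fun i => (y i - y' i).natAbs

theorem Dn_le (y y' : Fin j ⊕ Fin m → ℤ) (i : Fin j ⊕ Fin m) : |y i - y' i| ≤ Dn y y' := by
  have h := Finset.le_sup (f := fun i => (y i - y' i).natAbs) (Finset.mem_univ i)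
  have h2 : |y i - y' i| = ((y i - y' i).natAbs : ℤ) := (Int.natCast_natAbs _).symm
  rw [h2]
  exact_mod_cast h

theorem Dn_norm (k : ℕ) (z z' : Sp j m) :
    (Dn (ci k z) (ci k z') : ℝ) ≤ 2 ^ k * ‖z - z'‖ + 1 := by
  have h0 : (0 : ℝ) ≤ 2 ^ k * ‖z - z'‖ + 1 := by positivity
  have h1 : Dn (ci k z) (ci k z') ≤ ⌊(2 : ℝ) ^ k * ‖z - z'‖ + 1⌋₊ := by
    refine Finset.sup_le fun i _ => Nat.le_floor ?_
    have h2 : (((ci k z i - ci k z' i).natAbs : ℕ) : ℝ) = |((ci k z i : ℤ) : ℝ) - (ci k z' i : ℤ)| := by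
      rw [Nat.cast_natAbs]
      push_cast
      rfl
    rw [h2]
    have h3 : |co z i - co z' i| ≤ ‖z - z'‖ := by
      rw [← norm_co, co_sub]
      exact norm_le_pi_norm (co z - co z') i
    have h4 : |(2 : ℝ) ^ k * co z i - 2 ^ k * co z' i| ≤ 2 ^ k * ‖z - z'‖ := by
      rw [← mul_sub, abs_mul, abs_of_pos (by positivity)]
      gcongr
    unfold ci
    have h5 := Int.floor_le ((2 : ℝ) ^ k * co z i)
    have h6 := Int.lt_floor_add_one ((2 : ℝ) ^ k * co z i)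
    have h7 := Int.floor_le ((2 : ℝ) ^ k * co z' i)
    have h8 := Int.lt_floor_add_one ((2 : ℝ) ^ k * co z' i)
    rw [abs_le] at h4 ⊢
    constructor <;> linarith [h4.1, h4.2]
  calc (Dn (ci k z) (ci k z') : ℝ) ≤ (⌊(2 : ℝ) ^ k * ‖z - z'‖ + 1⌋₊ : ℝ) := by exact_mod_cast h1
    _ ≤ _ := Nat.floor_le h0

/-- the mass of a ball -/
theorem mass_ball (l : ℕ) (F : Finset (Fin j ⊕ Fin m → ℤ)) (ν : (Fin j ⊕ Fin m → ℤ) → ℝ)
    (hν : ∀ y, 0 ≤ ν y) (c : ℝ) (hcap : ∀ a, ∑ y ∈ F with idx l y = a, ν y ≤ c)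
    (y : Fin j ⊕ Fin m → ℤ) :
    ∑ y' ∈ F with Dn y y' ≤ 2 ^ l, ν y' ≤ 3 ^ (j + m) * c := by
  set box : Finset (Fin j ⊕ Fin m → ℤ) :=
    Fintype.piFinset fun i => Finset.Icc (idx l y i - 1) (idx l y i + 1) with hbox
  have hcard : (box.card : ℝ) = 3 ^ (j + m) := by
    rw [hbox, Fintype.card_piFinset]
    have h1 : ∀ i : Fin j ⊕ Fin m, (Finset.Icc (idx l y i - 1) (idx l y i + 1)).card = 3 := by
      intro i
      rw [Int.card_Icc]
      have : idx l y i + 1 + 1 - (idx l y i - 1) = 3 := by ring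
      rw [this]
      rfl
    rw [Finset.prod_congr rfl fun i _ => h1 i, Finset.prod_const, Finset.card_univ,
      Fintype.card_sum, Fintype.card_fin, Fintype.card_fin]
    push_cast
    rfl
  have hmaps : ∀ y' ∈ F.filter (fun y' => Dn y y' ≤ 2 ^ l), idx l y' ∈ box := by
    intro y' hy'
    rw [Finset.mem_filter] at hy'
    rw [hbox, Fintype.mem_piFinset]
    intro i
    have h1 := (Dn_le y y' i).trans (by exact_mod_cast hy'.2 : (Dn y y' : ℤ) ≤ 2 ^ l)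
    have h2 : (0 : ℤ) < 2 ^ l := by positivity
    rw [abs_le] at h1
    rw [Finset.mem_Icc]
    unfold idx
    constructor
    · rw [sub_le_iff_le_add]
      have h3 : y i ≤ y' i + 1 * 2 ^ l := by linarith [h1.2]
      have h4 := Int.ediv_le_ediv h2 h3
      rwa [Int.add_mul_ediv_right _ _ h2.ne'] at h4
    · have h3 : y' i ≤ y i + 1 * 2 ^ l := by linarith [h1.1]
      have h4 := Int.ediv_le_ediv h2 h3
      rwa [Int.add_mul_ediv_right _ _ h2.ne'] at h4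
  rw [← Finset.sum_fiberwise_of_maps_to hmaps]
  calc ∑ a ∈ box, ∑ y' ∈ (F.filter fun y' => Dn y y' ≤ 2 ^ l) with idx l y' = a, ν y'
      ≤ ∑ a ∈ box, c := by
        refine Finset.sum_le_sum fun a _ => le_trans ?_ (hcap a)
        refine Finset.sum_le_sum_of_subset_of_nonneg ?_ fun y' _ _ => hν y'
        exact Finset.filter_subset_filter _ (Finset.filter_subset _ _)
    _ = 3 ^ (j + m) * c := by rw [Finset.sum_const, nsmul_eq_mul, hcard]

/-- the kernel -/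
noncomputable def ker (k : ℕ) (y y' : Fin j ⊕ Fin m → ℤ) : ℝ :=
  (∑ l ∈ Finset.range (k + 1), if Dn y y' ≤ 2 ^ l then ((2 : ℝ) ^ l)⁻¹ ^ j else 0) +
    ((2 : ℝ) ^ k)⁻¹ ^ j

theorem ker_nonneg (k : ℕ) (y y' : Fin j ⊕ Fin m → ℤ) : 0 ≤ ker k y y' := by
  unfold ker
  have : 0 ≤ ∑ l ∈ Finset.range (k + 1), if Dn y y' ≤ 2 ^ l then ((2 : ℝ) ^ l)⁻¹ ^ j else 0 :=
    Finset.sum_nonneg fun l _ => by split_ifs <;> positivity
  positivity

theorem energy (k : ℕ) (s : ℝ) (hs : (j : ℝ) < s) (F : Finset (Fin j ⊕ Fin m → ℤ))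
    (ν : (Fin j ⊕ Fin m → ℤ) → ℝ) (hν : ∀ y, 0 ≤ ν y)
    (hcap : ∀ l ≤ k, ∀ a, ∑ y ∈ F with idx l y = a, ν y ≤ cap k s l)
    (y : Fin j ⊕ Fin m → ℤ) :
    ∑ y' ∈ F, ν y' * ker k y y' ≤
      ((2 : ℝ) ^ k)⁻¹ ^ j * (3 ^ (j + m) / (1 - (2 : ℝ) ^ ((j : ℝ) - s)) + ∑ y' ∈ F, ν y') := by
  set x : ℝ := (2 : ℝ) ^ ((j : ℝ) - s) with hx
  have hx0 : 0 < x := by positivity
  have hx1 : x < 1 := by
    rw [hx]
    exact Real.rpow_lt_one_of_one_lt_of_neg (by norm_num) (by linarith)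
  have h1 : ∑ y' ∈ F, ν y' * ker k y y' =
      (∑ l ∈ Finset.range (k + 1), ((2 : ℝ) ^ l)⁻¹ ^ j * ∑ y' ∈ F with Dn y y' ≤ 2 ^ l, ν y') +
        ((2 : ℝ) ^ k)⁻¹ ^ j * ∑ y' ∈ F, ν y' := by
    unfold ker
    simp only [mul_add, Finset.mul_sum, Finset.sum_add_distrib]
    congr 1
    · rw [Finset.sum_comm]
      refine Finset.sum_congr rfl fun l _ => ?_
      rw [Finset.sum_filter]
      refine Finset.sum_congr rfl fun y' _ => ?_
      split_ifs <;> ring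
    · exact Finset.sum_congr rfl fun y' _ => mul_comm _ _
  rw [h1, mul_add]
  gcongr
  have h2 : ∀ l ∈ Finset.range (k + 1), ((2 : ℝ) ^ l)⁻¹ ^ j *
      ∑ y' ∈ F with Dn y y' ≤ 2 ^ l, ν y' ≤ ((2 : ℝ) ^ k)⁻¹ ^ j * 3 ^ (j + m) * x ^ (k - l) := by
    intro l hl
    have hlk : l ≤ k := Nat.lt_succ_iff.1 (Finset.mem_range.1 hl)
    have h3 := mass_ball l F ν hν _ (hcap l hlk) y
    have h4 : ((2 : ℝ) ^ l)⁻¹ ^ j * cap k s l = ((2 : ℝ) ^ k)⁻¹ ^ j * x ^ (k - l) := by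
      obtain ⟨t, rfl⟩ := Nat.exists_eq_add_of_le hlk
      have h5 : l + t - l = t := by omega
      rw [h5]
      unfold cap
      have h6 : (2 : ℝ) ^ l / 2 ^ (l + t) = (2 : ℝ) ^ (-(t : ℝ)) := by
        rw [Real.rpow_neg (by norm_num), Real.rpow_natCast, pow_add]
        field_simp
      have h7 : x ^ t = (2 : ℝ) ^ (((j : ℝ) - s) * t) := by
        rw [hx, ← Real.rpow_natCast, ← Real.rpow_mul (by norm_num)]
      rw [h6, h7, ← Real.rpow_mul (by norm_num)]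
      have h8 : ∀ a : ℕ, ((2 : ℝ) ^ a)⁻¹ ^ j = (2 : ℝ) ^ (-((a : ℝ) * j)) := by
        intro a
        rw [Real.rpow_neg (by norm_num), Real.rpow_mul (by norm_num), Real.rpow_natCast,
          Real.rpow_natCast, inv_pow]
      rw [h8, h8, ← Real.rpow_add (by norm_num), ← Real.rpow_add (by norm_num)]
      congr 1
      push_cast
      ring
    calc ((2 : ℝ) ^ l)⁻¹ ^ j * ∑ y' ∈ F with Dn y y' ≤ 2 ^ l, ν y'
        ≤ ((2 : ℝ) ^ l)⁻¹ ^ j * (3 ^ (j + m) * cap k s l) := by gcongr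
      _ = 3 ^ (j + m) * (((2 : ℝ) ^ l)⁻¹ ^ j * cap k s l) := by ring
      _ = ((2 : ℝ) ^ k)⁻¹ ^ j * 3 ^ (j + m) * x ^ (k - l) := by rw [h4]; ring
  refine (Finset.sum_le_sum h2).trans ?_
  rw [← Finset.mul_sum, mul_assoc]
  gcongr
  rw [div_eq_mul_inv]
  gcongr
  have h3 : ∑ l ∈ Finset.range (k + 1), x ^ (k - l) = ∑ l ∈ Finset.range (k + 1), x ^ l := by
    rw [← Finset.sum_range_reflect]
    refine Finset.sum_congr rfl fun l hl => ?_
    have hl' := Finset.mem_range.1 hl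
    have h9 : k - (k + 1 - 1 - l) = l := by omega
    rw [h9]
  rw [h3]
  have h4 := mul_neg_geom_sum x (k + 1)
  have h5 : (0 : ℝ) < 1 - x := by linarith
  rw [← one_div, le_div_iff₀ h5, mul_comm, h4]
  have h6 : 0 < x ^ (k + 1) := by positivity
  linarith

end Pool.Agent.H224.MPS
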