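import Mathlib

/-!
# Frostman's lemma for dyadic cubes
-/

set_option autoImplicit false
set_option linter.unusedSectionVars false

open scoped ENNReal
open Finset
open scoped Classical

namespace Pool.Agent.H224.MPS

variable {ι : Type*}

/-- dyadic cube of the lattice: side `2 ^ c.1`, index `c.2` -/
def dyad (c : ℕ × (ι → ℤ)) : Set (ι → ℤ) :=
  {x | ∀ j, c.2 j * 2 ^ c.1 ≤ x j ∧ x j < (c.2 j + 1) * 2 ^ c.1}

/-- index of the dyadic cube of side `2 ^ l` containing `x` -/
def idx (l : ℕ) (x : ι → ℤ) : ι → ℤ := fun j => x j / 2 ^ l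

lemma mem_dyad (l : ℕ) (a x : ι → ℤ) : x ∈ dyad (l, a) ↔ idx l x = a := by
  show (∀ j, a j * 2 ^ l ≤ x j ∧ x j < (a j + 1) * 2 ^ l) ↔ _
  rw [funext_iff]
  refine forall_congr' fun j => ?_
  have h2 : (0 : ℤ) < 2 ^ l := by positivity
  constructor
  · rintro ⟨h3, h4⟩
    apply le_antisymm
    · exact Int.lt_add_one_iff.1 (Int.ediv_lt_of_lt_mul h2 h4)
    · exact (Int.le_ediv_iff_mul_le h2).2 h3
  · intro h
    rw [← h]
    exact ⟨Int.ediv_mul_le _ h2.ne', Int.lt_ediv_add_one_mul_self _ h2⟩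

lemma idx_nest {l l' : ℕ} (h : l ≤ l') {x y : ι → ℤ} (hxy : idx l x = idx l y) :
    idx l' x = idx l' y := by
  obtain ⟨m, rfl⟩ := Nat.exists_eq_add_of_le h
  have key : ∀ z : ι → ℤ, idx (l + m) z = idx m (idx l z) := by
    intro z
    funext j
    unfold idx
    rw [pow_add, Int.ediv_ediv_of_nonneg (by positivity)]
  rw [key, key, hxy]

/-- mass of the cube of side `2 ^ l` containing `x` -/
noncomputable def mass (F : Finset (ι → ℤ)) (ν : (ι → ℤ) → ℝ) (l : ℕ) (a : ι → ℤ) :
    ℝ := ∑ y ∈ F with idx l y = a, ν y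

lemma frostman_greedy (k : ℕ) (cap : ℕ → ℝ) (hcap : ∀ l, 0 ≤ cap l) (F : Finset (ι → ℤ)) :
    ∃ ν : (ι → ℤ) → ℝ, (∀ y, 0 ≤ ν y) ∧ (∀ l ≤ k, ∀ a, mass F ν l a ≤ cap l) ∧
      ∀ y ∈ F, ∃ l ≤ k, mass F ν l (idx l y) = cap l := by
  classical
  induction F using Finset.induction_on with
  | empty => exact ⟨fun _ => 0, fun _ => le_rfl, fun l _ a => by simpa [mass] using hcap l, by simp⟩
  | insert x F hx ih =>
    obtain ⟨ν, h0, h1, h2⟩ := ih
    obtain ⟨l0, hl0, hmin⟩ := Finset.exists_min_image (Finset.range (k + 1))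
      (fun l => cap l - mass F ν l (idx l x)) ⟨0, by simp⟩
    set δ : ℝ := cap l0 - mass F ν l0 (idx l0 x) with hδ
    have hl0' : l0 ≤ k := Nat.lt_succ_iff.1 (Finset.mem_range.1 hl0)
    have hδ0 : 0 ≤ δ := sub_nonneg.2 (h1 l0 hl0' _)
    set ν' : (ι → ℤ) → ℝ := fun y => if y = x then δ else ν y with hν'
    have hold : ∀ l a, ∑ y ∈ F with idx l y = a, ν' y = mass F ν l a := by
      intro l a
      unfold mass
      refine Finset.sum_congr rfl fun y hy => ?_
      have : y ≠ x := fun h => hx (h ▸ (Finset.mem_filter.1 hy).1)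
      simp [hν', this]
    have hmass : ∀ l a, mass (insert x F) ν' l a = mass F ν l a + if idx l x = a then δ else 0 := by
      intro l a
      unfold mass
      rw [Finset.filter_insert]
      split_ifs with h
      · rw [Finset.sum_insert (by simp [hx]), hold]
        simp only [hν', if_true]
        unfold mass
        ring
      · rw [hold, add_zero]
        rfl
    refine ⟨ν', fun y => ?_, fun l hl a => ?_, fun y hy => ?_⟩
    · simp only [hν']
      split_ifs
      · exact hδ0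
      · exact h0 y
    · rw [hmass]
      split_ifs with h
      · subst h
        have := hmin l (Finset.mem_range.2 (Nat.lt_succ_iff.2 hl))
        linarith
      · rw [add_zero]; exact h1 l hl a
    · rcases Finset.mem_insert.1 hy with rfl | hy
      · refine ⟨l0, hl0', ?_⟩
        rw [hmass, if_pos rfl]
        linarith
      · obtain ⟨l, hl, ht⟩ := h2 y hy
        refine ⟨l, hl, ?_⟩
        rw [hmass]
        split_ifs with h
        · have := hmin l (Finset.mem_range.2 (Nat.lt_succ_iff.2 hl))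
          rw [h, ht] at this
          have h3 : δ = 0 := by linarith
          rw [ht, h3, add_zero]
        · rw [ht, add_zero]

/-- **Frostman's lemma**: a measure on `F` with `ν (Q) ≤ cap` for all dyadic cubes of side at
most `2 ^ k`, together with a cover of cost at most the total mass -/
lemma frostman (k : ℕ) (cap : ℕ → ℝ) (hcap : ∀ l, 0 ≤ cap l) (F : Finset (ι → ℤ)) :
    ∃ ν : (ι → ℤ) → ℝ, (∀ y, 0 ≤ ν y) ∧ (∀ y, y ∉ F → ν y = 0) ∧
      (∀ l ≤ k, ∀ a, ∑ y ∈ F with idx l y = a, ν y ≤ cap l) ∧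
      ∃ C : Finset (ℕ × (ι → ℤ)), (∀ y ∈ F, ∃ c ∈ C, y ∈ dyad c) ∧
        ∑ c ∈ C, cap c.1 ≤ ∑ y ∈ F, ν y := by
  classical
  obtain ⟨ν0, h0, h1, h2⟩ := frostman_greedy k cap hcap F
  -- maximal tight level
  have hmax : ∀ y ∈ F, ∃ l ≤ k, mass F ν0 l (idx l y) = cap l ∧
      ∀ l' ≤ k, mass F ν0 l' (idx l' y) = cap l' → l' ≤ l := by
    intro y hy
    have hne : ((Finset.range (k + 1)).filter
        fun l => mass F ν0 l (idx l y) = cap l).Nonempty := by
      obtain ⟨l, hl, ht⟩ := h2 y hy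
      exact ⟨l, Finset.mem_filter.2 ⟨Finset.mem_range.2 (Nat.lt_succ_iff.2 hl), ht⟩⟩
    obtain ⟨l, hl, hm⟩ := Finset.exists_max_image _ id hne
    obtain ⟨hl1, hl2⟩ := Finset.mem_filter.1 hl
    refine ⟨l, Nat.lt_succ_iff.1 (Finset.mem_range.1 hl1), hl2, fun l' hl' ht => ?_⟩
    exact hm l' (Finset.mem_filter.2 ⟨Finset.mem_range.2 (Nat.lt_succ_iff.2 hl'), ht⟩)
  choose! lev hlev1 hlev2 hlev3 using hmax
  set τ : (ι → ℤ) → ℕ × (ι → ℤ) := fun y => (lev y, idx (lev y) y) with hτ
  have hfib : ∀ y' ∈ F, ∀ y ∈ F, idx (lev y') y = idx (lev y') y' → τ y = τ y' := by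
    intro y' hy' y hy h
    have hle : lev y' ≤ lev y := by
      refine hlev3 y hy _ (hlev1 y' hy') ?_
      rw [h]; exact hlev2 y' hy'
    have h3 : idx (lev y) y = idx (lev y) y' := idx_nest hle h
    have hge : lev y ≤ lev y' := by
      refine hlev3 y' hy' _ (hlev1 y hy) ?_
      rw [← h3]; exact hlev2 y hy
    have heq : lev y = lev y' := le_antisymm hge hle
    simp only [hτ, heq, h]
  refine ⟨fun y => if y ∈ F then ν0 y else 0, fun y => ?_, fun y hy => if_neg hy, ?_,
    F.image τ, ?_, ?_⟩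
  · simp only
    split_ifs
    · exact h0 y
    · exact le_rfl
  · intro l hl a
    refine le_trans (le_of_eq ?_) (h1 l hl a)
    unfold mass
    refine Finset.sum_congr rfl fun y hy => ?_
    exact if_pos (Finset.mem_filter.1 hy).1
  · intro y hy
    exact ⟨τ y, Finset.mem_image_of_mem _ hy, (mem_dyad _ _ _).2 rfl⟩
  · have h5 : ∑ y ∈ F, (if y ∈ F then ν0 y else 0) = ∑ y ∈ F, ν0 y :=
      Finset.sum_congr rfl fun y hy => if_pos hy
    rw [h5, ← Finset.sum_fiberwise_of_maps_to (g := τ) (t := F.image τ)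
      (fun y hy => Finset.mem_image_of_mem _ hy)]
    refine le_of_eq (Finset.sum_congr rfl fun c hc => ?_)
    obtain ⟨y', hy', rfl⟩ := Finset.mem_image.1 hc
    have h6 := hlev2 y' hy'
    simp only [hτ]
    rw [← h6]
    unfold mass
    refine Finset.sum_congr ?_ fun _ _ => rfl
    ext y
    simp only [Finset.mem_filter]
    constructor
    · rintro ⟨hy, h⟩
      exact ⟨hy, hfib y' hy' y hy h⟩
    · rintro ⟨hy, h⟩
      refine ⟨hy, ?_⟩
      have h7 : lev y = lev y' := congrArg Prod.fst h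
      have h8 : idx (lev y) y = idx (lev y') y' := congrArg Prod.snd h
      rw [← h8, h7]

end Pool.Agent.H224.MPS
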