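import Mathlib

/-!
# A hitting set lemma, and counting in cubes
-/

set_option autoImplicit false

open scoped Classical

namespace Pool.Agent.H224.MPS

/-- greedy choice of a hitting set -/
theorem hit_aux {α β : Type*} (Ω : Finset β) (hΩ : Ω.Nonempty) (I : Finset α) (R : α → β → Prop)
    (δ : ℝ) (hδ1 : δ ≤ 1) (h : ∀ a ∈ I, δ * Ω.card ≤ ((Ω.filter (R a)).card : ℝ)) (k : ℕ) :
    ∃ P : Finset β, P ⊆ Ω ∧ P.card ≤ k ∧
      ((I.filter (fun a => ∀ p ∈ P, ¬ R a p)).card : ℝ) ≤ (1 - δ) ^ k * I.card := by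
  induction k with
  | zero => exact ⟨∅, by simp, by simp, by simp⟩
  | succ k ih =>
    obtain ⟨P, hP1, hP2, hP3⟩ := ih
    set J := I.filter (fun a => ∀ p ∈ P, ¬ R a p) with hJ
    have h1 : ∑ b ∈ Ω, ((J.filter fun a => R a b).card : ℝ) =
        ∑ a ∈ J, ((Ω.filter (R a)).card : ℝ) := by
      simp only [Finset.card_filter, Nat.cast_sum]
      exact Finset.sum_comm
    have h2 : ∑ b ∈ Ω, (δ * J.card) ≤ ∑ b ∈ Ω, ((J.filter fun a => R a b).card : ℝ) := by
      rw [h1, Finset.sum_const, nsmul_eq_mul]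
      calc (Ω.card : ℝ) * (δ * J.card) = ∑ a ∈ J, δ * (Ω.card : ℝ) := by
            rw [Finset.sum_const, nsmul_eq_mul]; ring
        _ ≤ _ := Finset.sum_le_sum fun a ha => h a (Finset.mem_filter.1 ha).1
    obtain ⟨b, hb, hb2⟩ := Finset.exists_le_of_sum_le hΩ h2
    refine ⟨insert b P, Finset.insert_subset hb hP1, ?_, ?_⟩
    · exact (Finset.card_insert_le _ _).trans (by omega)
    · have h3 : I.filter (fun a => ∀ p ∈ insert b P, ¬ R a p) = J.filter (fun a => ¬ R a b) := by
        ext a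
        simp only [hJ, Finset.mem_filter, Finset.mem_insert]
        constructor
        · rintro ⟨h4, h5⟩
          exact ⟨⟨h4, fun p hp => h5 p (Or.inr hp)⟩, h5 b (Or.inl rfl)⟩
        · rintro ⟨⟨h4, h5⟩, h6⟩
          refine ⟨h4, ?_⟩
          rintro p (rfl | hp)
          · exact h6
          · exact h5 p hp
      rw [h3]
      have h4 : ((J.filter fun a => R a b).card : ℝ) + ((J.filter fun a => ¬ R a b).card : ℝ) =
          J.card := by
        exact_mod_cast Finset.card_filter_add_card_filter_not (s := J) (fun a => R a b)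
      have h5 : ((J.filter fun a => ¬ R a b).card : ℝ) ≤ (1 - δ) * J.card := by linarith
      refine h5.trans ?_
      rw [pow_succ, mul_comm ((1 - δ) ^ k) (1 - δ), mul_assoc]
      have h6 : 0 ≤ 1 - δ := by linarith
      gcongr

/-- **Hitting sets.** -/
theorem hit {α β : Type*} (Ω : Finset β) (hΩ : Ω.Nonempty) (I : Finset α) (R : α → β → Prop)
    (δ : ℝ) (hδ0 : 0 < δ) (hδ1 : δ ≤ 1)
    (h : ∀ a ∈ I, δ * Ω.card ≤ ((Ω.filter (R a)).card : ℝ)) :
    ∃ P : Finset β, P ⊆ Ω ∧ (P.card : ℝ) ≤ Real.log I.card / δ + 1 ∧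
      ∀ a ∈ I, ∃ p ∈ P, R a p := by
  by_cases hI : I.card = 0
  · refine ⟨∅, by simp, by simp [hI], ?_⟩
    intro a ha
    rw [Finset.card_eq_zero] at hI
    rw [hI] at ha
    simp at ha
  have hI1 : (1 : ℝ) ≤ I.card := by
    exact_mod_cast Nat.one_le_iff_ne_zero.2 hI
  have hlog : 0 ≤ Real.log I.card := Real.log_nonneg hI1
  set k : ℕ := ⌊Real.log I.card / δ⌋₊ + 1 with hk
  obtain ⟨P, hP1, hP2, hP3⟩ := hit_aux Ω hΩ I R δ hδ1 h k
  refine ⟨P, hP1, ?_, ?_⟩
  · have h1 : (P.card : ℝ) ≤ k := by exact_mod_cast hP2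
    refine h1.trans ?_
    rw [hk]
    push_cast
    have := Nat.floor_le (show 0 ≤ Real.log I.card / δ by positivity)
    linarith
  · intro a ha
    by_contra hcon
    push Not at hcon
    have h1 : (1 : ℝ) ≤ ((I.filter (fun a => ∀ p ∈ P, ¬ R a p)).card : ℝ) := by
      have : 0 < (I.filter (fun a => ∀ p ∈ P, ¬ R a p)).card :=
        Finset.card_pos.2 ⟨a, Finset.mem_filter.2 ⟨ha, hcon⟩⟩
      exact_mod_cast this
    have h2 : (1 - δ) ^ k * I.card < 1 := by
      have h3 : 1 - δ ≤ Real.exp (-δ) := by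
        have := Real.add_one_le_exp (-δ)
        linarith
      have h4 : (1 - δ) ^ k ≤ Real.exp (-(δ * k)) := by
        calc (1 - δ) ^ k ≤ (Real.exp (-δ)) ^ k := by
              have h6 : 0 ≤ 1 - δ := by linarith
              gcongr
          _ = Real.exp (-(δ * k)) := by
              rw [← Real.exp_nat_mul]; congr 1; ring
      have h5 : Real.log I.card < δ * k := by
        have := Nat.lt_floor_add_one (Real.log I.card / δ)
        rw [div_lt_iff₀ hδ0] at this
        rw [hk]
        push_cast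
        linarith
      calc (1 - δ) ^ k * I.card ≤ Real.exp (-(δ * k)) * I.card := by gcongr
        _ < Real.exp (-Real.log I.card) * I.card := by gcongr
        _ = 1 := by
            rw [Real.exp_neg, Real.exp_log (by linarith), inv_mul_cancel₀ (by linarith)]
    linarith

end Pool.Agent.H224.MPS
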