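import Mathlib

/-!
# Slices of sets of small dimension

If `E ⊆ ℝ^j × Y` and `β ≤ dim (slice E σ)` for a set of `σ` that is not null then
`j + β ≤ dim E`.
-/

set_option autoImplicit false

open MeasureTheory Set Filter Topology
open scoped ENNReal NNReal

namespace Pool.Agent.H224.MPS

/-- A set of Hausdorff measure zero has good covers. -/
theorem cover_of_null {X : Type*} [EMetricSpace X] [MeasurableSpace X] [BorelSpace X]
    {E : Set X} {q : ℝ} (hq : 0 < q) (h : Measure.hausdorffMeasure q E = 0) (ε r : ℝ≥0∞)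
    (hε : 0 < ε) (hr : 0 < r) :
    ∃ t : ℕ → Set X, E ⊆ ⋃ n, t n ∧ (∀ n, Metric.ediam (t n) ≤ r) ∧
      ∑' n, Metric.ediam (t n) ^ q < ε := by
  rw [Measure.hausdorffMeasure_apply, ENNReal.iSup_eq_zero] at h
  have h1 := h r
  rw [ENNReal.iSup_eq_zero] at h1
  have h2 := h1 hr
  have h3 : (⨅ (t : ℕ → Set X) (_ : E ⊆ ⋃ n, t n) (_ : ∀ n, Metric.ediam (t n) ≤ r),
      ∑' n, ⨆ (_ : (t n).Nonempty), Metric.ediam (t n) ^ q) < ε := h2 ▸ hε
  simp only [iInf_lt_iff] at h3
  obtain ⟨t, ht1, ht2, ht3⟩ := h3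
  refine ⟨t, ht1, ht2, lt_of_le_of_lt (ENNReal.tsum_le_tsum fun n => ?_) ht3⟩
  by_cases hn : (t n).Nonempty
  · exact le_iSup (fun _ : (t n).Nonempty => Metric.ediam (t n) ^ q) hn
  · rw [not_nonempty_iff_eq_empty] at hn
    rw [hn]
    simp [hq]

/-- Almost all slices of a null set are null. -/
theorem slice_null {j : ℕ} {Y : Type*} [EMetricSpace Y] [MeasurableSpace Y] [BorelSpace Y]
    [SecondCountableTopology Y]
    (E : Set ((Fin j → ℝ) × Y)) (s : ℝ) (hs : 0 < s)
    (h : Measure.hausdorffMeasure ((j : ℝ) + s) E = 0) :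
    ∀ᵐ σ : Fin j → ℝ, Measure.hausdorffMeasure s {y | (σ, y) ∈ E} = 0 := by
  have hq : 0 < (j : ℝ) + s := by positivity
  have hc : ∀ k : ℕ, ∃ t : ℕ → Set ((Fin j → ℝ) × Y), E ⊆ ⋃ n, t n ∧
      (∀ n, Metric.ediam (t n) ≤ ((k : ℝ≥0∞) + 1)⁻¹) ∧
      ∑' n, Metric.ediam (t n) ^ ((j : ℝ) + s) < (2⁻¹ : ℝ≥0∞) ^ k := fun k =>
    cover_of_null hq h _ _ (ENNReal.pow_pos (by simp) k)
      (ENNReal.inv_pos.2 (by finiteness))
  choose t ht1 ht2 ht3 using hc
  set C : ℕ → ℕ → Set (Fin j → ℝ) := fun k n => closure (Prod.fst '' t k n) with hC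
  set f : ℕ → (Fin j → ℝ) → ℝ≥0∞ := fun k σ =>
    ∑' n, (C k n).indicator (fun _ => Metric.ediam (t k n) ^ s) σ with hf
  have hmeas : ∀ k n, Measurable ((C k n).indicator (fun _ => Metric.ediam (t k n) ^ s)) :=
    fun k n => measurable_const.indicator isClosed_closure.measurableSet
  have hfst : ∀ k n, Metric.ediam (Prod.fst '' t k n) ≤ Metric.ediam (t k n) := by
    intro k n
    have h1 : LipschitzWith 1 (Prod.fst : (Fin j → ℝ) × Y → (Fin j → ℝ)) := LipschitzWith.prod_fst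
    have h2 := h1.ediam_image_le (t k n)
    simpa using h2
  have hint : ∀ k, ∫⁻ σ, f k σ ≤ (2⁻¹ : ℝ≥0∞) ^ k := by
    intro k
    rw [hf, lintegral_tsum fun n => (hmeas k n).aemeasurable]
    refine le_trans (ENNReal.tsum_le_tsum fun n => ?_) (ht3 k).le
    rw [lintegral_indicator_const isClosed_closure.measurableSet]
    have h1 : volume (C k n) ≤ Metric.ediam (t k n) ^ (j : ℝ) := by
      have h2 := Real.volume_pi_le_diam_pow (C k n)
      refine h2.trans ?_
      rw [Fintype.card_fin, hC]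
      simp only [Metric.ediam_closure]
      rw [ENNReal.rpow_natCast]
      gcongr
      exact hfst k n
    by_cases h0 : Metric.ediam (t k n) = 0
    · rw [h0, ENNReal.zero_rpow_of_pos hs, zero_mul]
      exact zero_le
    · have hfin : Metric.ediam (t k n) ≠ ∞ := by
        have := ht2 k n
        exact ne_top_of_le_ne_top (by simp) this
      rw [ENNReal.rpow_add _ _ h0 hfin, mul_comm]
      gcongr
  have hsum : ∫⁻ σ, ∑' k, f k σ ≠ ∞ := by
    rw [lintegral_tsum fun k => (Measurable.tsum fun n => hmeas k n).aemeasurable]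
    refine ne_top_of_le_ne_top ?_ (ENNReal.tsum_le_tsum hint)
    rw [ENNReal.tsum_geometric]
    simp
  have hae := ae_lt_top (Measurable.tsum fun k =>
    Measurable.tsum fun n => hmeas k n) hsum
  filter_upwards [hae] with σ hσ
  have hlim : Tendsto (fun k => f k σ) atTop (𝓝 0) :=
    ENNReal.tendsto_atTop_zero_of_tsum_ne_top hσ.ne
  have hr : Tendsto (fun k : ℕ => ((k : ℝ≥0∞) + 1)⁻¹) atTop (𝓝 0) := by
    have h1 : Tendsto (fun k : ℕ => ((k + 1 : ℕ) : ℝ≥0∞)⁻¹) atTop (𝓝 0) :=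
      (tendsto_add_atTop_iff_nat (f := fun k : ℕ => ((k : ℕ) : ℝ≥0∞)⁻¹) 1).2
        ENNReal.tendsto_inv_nat_nhds_zero
    simpa using h1
  have hsl : ∀ k n, Metric.ediam {y | (σ, y) ∈ t k n} ≤ Metric.ediam (t k n) := by
    intro k n
    refine Metric.ediam_le fun y hy y' hy' => ?_
    have h1 := Metric.edist_le_ediam_of_mem (s := t k n) hy hy'
    rw [Prod.edist_eq, edist_self] at h1
    exact le_trans (le_max_right _ _) h1
  have key := Measure.hausdorffMeasure_le_liminf_tsum (ι := fun _ : ℕ => ℕ) (l := atTop) s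
    {y | (σ, y) ∈ E} _ hr (fun k n => {y | (σ, y) ∈ t k n})
    (Eventually.of_forall fun k n => (hsl k n).trans (ht2 k n))
    (Eventually.of_forall fun k y hy => by
      obtain ⟨n, hn⟩ := mem_iUnion.1 (ht1 k hy)
      exact mem_iUnion.2 ⟨n, hn⟩)
  have hle : ∀ k, ∑' n, Metric.ediam {y | (σ, y) ∈ t k n} ^ s ≤ f k σ := by
    intro k
    refine ENNReal.tsum_le_tsum fun n => ?_
    by_cases hn : σ ∈ C k n
    · rw [indicator_of_mem hn]
      exact ENNReal.rpow_le_rpow (hsl k n) hs.le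
    · have h1 : {y | (σ, y) ∈ t k n} = ∅ := by
        rw [eq_empty_iff_forall_notMem]
        intro y hy
        exact hn (subset_closure ⟨(σ, y), hy, rfl⟩)
      rw [h1]
      simp [hs]
  have h0 : liminf (fun k => ∑' n, Metric.ediam {y | (σ, y) ∈ t k n} ^ s) atTop ≤ 0 := by
    have h1 : Tendsto (fun k => ∑' n, Metric.ediam {y | (σ, y) ∈ t k n} ^ s) atTop (𝓝 0) :=
      tendsto_of_tendsto_of_tendsto_of_le_of_le tendsto_const_nhds hlim (fun _ => zero_le) hle
    rw [h1.liminf_eq]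
  exact le_antisymm (key.trans h0) (zero_le)

/-- **Slicing**: if the slices of `E` have dimension at least `β > 0` over a set that is not null
then `j + β ≤ dim E`. -/
theorem dimH_ge_of_slices {j : ℕ} {Y : Type*} [EMetricSpace Y] [SecondCountableTopology Y]
    (E : Set ((Fin j → ℝ) × Y)) (β : ℝ≥0∞) (hβ : 0 < β)
    (h : volume {σ : Fin j → ℝ | β ≤ dimH {y | (σ, y) ∈ E}} ≠ 0) :
    (j : ℝ≥0∞) + β ≤ dimH E := by
  borelize Y
  by_contra hcon
  rw [not_le] at hcon
  have h1 : max (dimH E) (j : ℝ≥0∞) < (j : ℝ≥0∞) + β := by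
    refine max_lt hcon ?_
    exact ENNReal.lt_add_right (by simp) hβ.ne'
  obtain ⟨x, hx1, hx2⟩ := ENNReal.lt_iff_exists_nnreal_btwn.1 h1
  have hxj : (j : ℝ≥0∞) < x := lt_of_le_of_lt (le_max_right _ _) hx1
  have hxE : dimH E < x := lt_of_le_of_lt (le_max_left _ _) hx1
  have hxj' : (j : ℝ≥0) < x := by exact_mod_cast hxj
  obtain ⟨s, hs⟩ : ∃ s : ℝ≥0, x = j + s := ⟨x - j, (add_tsub_cancel_of_le hxj'.le).symm⟩
  have hs0 : 0 < s := by
    rcases eq_or_ne s 0 with h0 | h0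
    · rw [h0, add_zero] at hs
      exact absurd hs hxj'.ne'
    · exact pos_iff_ne_zero.2 h0
  have hsβ : (s : ℝ≥0∞) < β := by
    rw [hs] at hx2
    push_cast at hx2
    exact (ENNReal.add_lt_add_iff_left (by simp)).1 hx2
  have hnull : Measure.hausdorffMeasure ((j : ℝ) + (s : ℝ)) E = 0 := by
    have := hausdorffMeasure_of_dimH_lt (d := x) hxE
    rw [hs] at this
    push_cast at this
    exact this
  have hae := slice_null E s (by exact_mod_cast hs0) hnull
  refine h (measure_mono_null (fun σ hσ => ?_) hae)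
  intro hσ0
  have h2 : dimH {y | (σ, y) ∈ E} ≤ s :=
    dimH_le_of_hausdorffMeasure_ne_top (by rw [hσ0]; simp)
  exact absurd (lt_of_le_of_lt (le_trans hσ h2) hsβ) (lt_irrefl _)

end Pool.Agent.H224.MPS
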