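import Pool.Agent.H224.MPS.Vis
import Pool.Agent.H224.MPS.Slice

/-!
# Sets with many parallel segments, in slope coordinates
-/

set_option autoImplicit false

open MeasureTheory Set Filter Topology
open scoped ENNReal NNReal

namespace Pool.Agent.H224.MPS

/-- `E` contains the part over `[s, s + ℓ]` of the line of slope `v` and position `a`. -/
def Seg {Y : Type*} [Add Y] [SMul ℝ Y] (E : Set (ℝ × Y)) (v a : Y) (s ℓ : ℝ) : Prop :=
  ∀ t ∈ Icc s (s + ℓ), (t, a + t • v) ∈ E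

/-- the triples (slope, position, height) of the segments in `E` are a compact set -/
theorem isCompact_seg {Y : Type*} [NormedAddCommGroup Y] [NormedSpace ℝ Y] [ProperSpace Y]
    (E : Set (ℝ × Y)) (hE : IsCompact E) (ℓ : ℝ) (hℓ : 0 < ℓ) :
    IsCompact {q : Y × Y × ℝ | Seg E q.1 q.2.1 q.2.2 ℓ} := by
  obtain ⟨R, hR⟩ := hE.isBounded.exists_norm_le
  have hclosed : IsClosed {q : Y × Y × ℝ | Seg E q.1 q.2.1 q.2.2 ℓ} := by
    have h1 : {q : Y × Y × ℝ | Seg E q.1 q.2.1 q.2.2 ℓ} = ⋂ r ∈ Icc (0 : ℝ) ℓ,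
        {q : Y × Y × ℝ | (q.2.2 + r, q.2.1 + (q.2.2 + r) • q.1) ∈ E} := by
      ext q
      simp only [mem_ofPred_eq, mem_iInter, Seg]
      constructor
      · intro h r hr
        exact h _ ⟨by linarith [hr.1], by linarith [hr.2]⟩
      · intro h t ht
        have := h (t - q.2.2) ⟨by linarith [ht.1], by linarith [ht.2]⟩
        simpa using this
    rw [h1]
    refine isClosed_biInter fun r _ => hE.isClosed.preimage ?_
    fun_prop
  refine IsCompact.of_isClosed_subset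
    ((isCompact_closedBall (0 : Y) (2 * R / ℓ)).prod
      ((isCompact_closedBall (0 : Y) (R + R * (2 * R / ℓ))).prod
        (isCompact_closedBall (0 : ℝ) R))) hclosed ?_
  rintro ⟨v, a, s⟩ h
  have h1 := hR _ (h s ⟨le_rfl, by simpa using hℓ.le⟩)
  have h2 := hR _ (h (s + ℓ) ⟨by simpa using hℓ.le, le_rfl⟩)
  simp only at h1 h2
  rw [Prod.norm_def] at h1 h2
  have h3 : ‖s‖ ≤ R := (le_max_left _ _).trans h1
  have h4 : ‖a + s • v‖ ≤ R := (le_max_right _ _).trans h1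
  have h5 : ‖a + (s + ℓ) • v‖ ≤ R := (le_max_right _ _).trans h2
  have hR0 : 0 ≤ R := (norm_nonneg _).trans h3
  have h6 : ‖v‖ ≤ 2 * R / ℓ := by
    rw [le_div_iff₀ hℓ]
    have h7 : ℓ • v = (a + (s + ℓ) • v) - (a + s • v) := by
      rw [add_smul]; abel
    have h8 : ‖ℓ • v‖ ≤ R + R := by
      rw [h7]
      exact (norm_sub_le _ _).trans (add_le_add h5 h4)
    rw [norm_smul, Real.norm_of_nonneg hℓ.le] at h8
    linarith
  have h9 : ‖a‖ ≤ R + R * (2 * R / ℓ) := by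
    have h7 : a = (a + s • v) - s • v := by abel
    rw [h7]
    refine (norm_sub_le _ _).trans ?_
    rw [norm_smul]
    gcongr
  simp only [mem_prod, mem_closedBall_zero_iff]
  exact ⟨h6, h9, h3⟩

/-- Lower bound for the sets with segments for a non-null set of slopes -/
def SlopeBound (m : ℕ) (β : ℝ≥0∞) : Prop :=
  ∀ F : Set (ℝ × (Fin m → ℝ)), IsCompact F → ∀ ℓ > 0,
    volume {v | ∃ a s, Seg F v a s ℓ} ≠ 0 → β ≤ dimH F

variable {j m : ℕ}

/-- the positions of the segments of slope `v` and length `ℓ` -/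
def Pos (E : Set (ℝ × Sp j m)) (ℓ : ℝ) (v : Sp j m) : Set (Sp j m) := {a | ∃ s, Seg E v a s ℓ}

/-- **Main step.** -/
theorem slope_main (β : ℝ≥0∞) (hβ : 0 < β) (hSB : SlopeBound m β)
    (E : Set (ℝ × Sp j m)) (hE : IsCompact E) (ℓ : ℝ) (hℓ : 0 < ℓ)
    (h : volume {v : Sp j m | ∀ᵐ B ∂(volume.restrict (Icc (0 : Fin j → Fin m → ℝ) 1)),
      volume (UB B '' Pos E ℓ v) ≠ 0} ≠ 0) :
    (j : ℝ≥0∞) + β ≤ dimH E := by
  by_contra hcon
  set T : Set (Sp j m × ((Fin j → Fin m → ℝ) × (Fin j → ℝ))) :=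
    {x | x.2.1 ∈ Icc (0 : Fin j → Fin m → ℝ) 1 ∧ x.2.2 ∈ UB x.2.1 '' Pos E ℓ x.1} with hT
  have hTc : IsCompact T := by
    have h1 : T = (fun y : (Sp j m × Sp j m × ℝ) × (Fin j → Fin m → ℝ) =>
        (y.1.1, (y.2, UB y.2 y.1.2.1))) ''
        ({q : Sp j m × Sp j m × ℝ | Seg E q.1 q.2.1 q.2.2 ℓ} ×ˢ
          Icc (0 : Fin j → Fin m → ℝ) 1) := by
      ext ⟨v, B, σ⟩
      constructor
      · rintro ⟨hB, a, ⟨s, hs⟩, hσ⟩
        exact ⟨((v, a, s), B), ⟨hs, hB⟩, by simp only [Prod.mk.injEq, true_and]; exact hσ⟩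
      · rintro ⟨⟨⟨v', a, s⟩, B'⟩, ⟨hs, hB⟩, heq⟩
        simp only [Prod.mk.injEq] at heq
        obtain ⟨rfl, rfl, rfl⟩ := heq
        exact ⟨hB, a, ⟨s, hs⟩, rfl⟩
    rw [h1]
    refine ((isCompact_seg E hE ℓ hℓ).prod isCompact_Icc).image ?_
    have h2 : Continuous fun y : (Sp j m × Sp j m × ℝ) × (Fin j → Fin m → ℝ) =>
        UB y.2 y.1.2.1 :=
      continuous_UB.comp (continuous_snd.prodMk (continuous_fst.comp
        (continuous_snd.comp continuous_fst)))
    exact (continuous_fst.comp continuous_fst).prodMk (continuous_snd.prodMk h2)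
  have hTm : MeasurableSet T := hTc.isClosed.measurableSet
  -- the slices
  have hslice : ∀ B ∈ Icc (0 : Fin j → Fin m → ℝ) 1, ∀ c : Fin j → ℝ,
      ∀ᵐ σ : Fin j → ℝ, ∀ᵐ w : Fin m → ℝ,
        (((c - (fun i => ∑ q, B i q * w q), w), (B, σ)) :
          Sp j m × ((Fin j → Fin m → ℝ) × (Fin j → ℝ))) ∉ T := by
    intro B hB c
    set L : ℝ × Sp j m → (Fin j → ℝ) × (ℝ × (Fin m → ℝ)) :=
      fun x => (UB B x.2 - x.1 • c, (x.1, x.2.2)) with hL
    have hLlip : ∃ C, LipschitzWith C L := by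
      have hlin : IsLinearMap ℝ L := by
        constructor
        · intro x y
          ext i
          · simp only [hL, UB, Prod.fst_add, Prod.snd_add, Pi.add_apply, Pi.sub_apply,
              Pi.smul_apply, smul_eq_mul, add_mul, mul_add, Finset.sum_add_distrib]
            ring
          · simp [hL]
          · simp [hL]
        · intro r x
          ext i
          · simp only [hL, UB, Prod.smul_fst, Prod.smul_snd, Pi.sub_apply,
              Pi.smul_apply, smul_eq_mul, mul_sub, mul_add, Finset.mul_sum]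
            congr 1
            · congr 1
              exact Finset.sum_congr rfl fun q _ => by ring
            · ring
          · simp [hL]
          · simp [hL]
      have h1 := (LinearMap.toContinuousLinearMap (IsLinearMap.mk' L hlin)).lipschitz
      exact ⟨_, h1⟩
    obtain ⟨C, hC⟩ := hLlip
    have h1 : ¬ ((j : ℝ≥0∞) + β ≤ dimH (L '' E)) := fun h2 =>
      hcon (h2.trans (hC.dimH_image_le E))
    have h2 : volume {σ : Fin j → ℝ | β ≤ dimH {y | (σ, y) ∈ L '' E}} = 0 := by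
      by_contra h3
      exact h1 (dimH_ge_of_slices (L '' E) β hβ h3)
    have h3 : ∀ᵐ σ : Fin j → ℝ, ¬ (β ≤ dimH {y | (σ, y) ∈ L '' E}) := by
      rw [ae_iff]
      simpa using h2
    filter_upwards [h3] with σ hσ
    by_contra h4
    apply hσ
    have hcomp : IsCompact {y | (σ, y) ∈ L '' E} := by
      have h5 : IsCompact (L '' E) := hE.image hC.continuous
      have h6 : {y | (σ, y) ∈ L '' E} = Prod.snd '' ((L '' E) ∩ ({σ} ×ˢ univ)) := by
        ext y
        constructor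
        · intro hy
          exact ⟨(σ, y), ⟨hy, rfl, trivial⟩, rfl⟩
        · rintro ⟨⟨σ', y'⟩, ⟨hy, h7, -⟩, rfl⟩
          rw [mem_singleton_iff] at h7
          simp only at h7
          subst h7
          exact hy
      rw [h6]
      exact (h5.inter_right (isClosed_singleton.prod isClosed_univ)).image continuous_snd
    refine hSB _ hcomp ℓ hℓ fun h5 => h4 ?_
    rw [ae_iff]
    refine measure_mono_null ?_ h5
    intro w hw
    simp only [mem_ofPred_eq, not_not] at hw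
    obtain ⟨-, a, ⟨s, hs⟩, hU⟩ := hw
    refine ⟨a.2, s, fun t ht => ?_⟩
    refine ⟨_, hs t ht, ?_⟩
    simp only [hL]
    refine Prod.ext ?_ rfl
    funext i
    have hUi := congrFun hU i
    simp only [UB] at hUi
    simp only [UB, Prod.fst_add, Prod.snd_add, Prod.smul_fst, Prod.smul_snd, Pi.add_apply,
      Pi.sub_apply, Pi.smul_apply, smul_eq_mul, mul_add, Finset.sum_add_distrib, mul_sub]
    have h7 : ∑ q, B i q * (t * w q) = t * ∑ q, B i q * w q := by
      rw [Finset.mul_sum]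
      exact Finset.sum_congr rfl fun q _ => by ring
    rw [h7]
    linarith
  -- all slopes
  have hall : ∀ B ∈ Icc (0 : Fin j → Fin m → ℝ) 1, ∀ᵐ v : Sp j m, ∀ᵐ σ : Fin j → ℝ,
      ((v, (B, σ)) : Sp j m × ((Fin j → Fin m → ℝ) × (Fin j → ℝ))) ∉ T := by
    intro B hB
    have h1 : ∀ c : Fin j → ℝ, ∀ᵐ w : Fin m → ℝ, ∀ᵐ σ : Fin j → ℝ,
        (((c - (fun i => ∑ q, B i q * w q), w), (B, σ)) :
          Sp j m × ((Fin j → Fin m → ℝ) × (Fin j → ℝ))) ∉ T := by
      intro c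
      refine (Measure.ae_ae_comm ?_).1 (hslice B hB c)
      refine (hTc.isClosed.measurableSet.preimage ?_).compl
      refine Continuous.measurable ?_
      fun_prop
    have hmeas : MeasurableSet {x : Sp j m | ∀ᵐ σ : Fin j → ℝ,
        ((x, (B, σ)) : Sp j m × ((Fin j → Fin m → ℝ) × (Fin j → ℝ))) ∉ T} := by
      have h2 : MeasurableSet ((fun y : Sp j m × (Fin j → ℝ) =>
          ((y.1, (B, y.2)) : Sp j m × ((Fin j → Fin m → ℝ) × (Fin j → ℝ)))) ⁻¹' T) :=
        hTm.preimage (by fun_prop)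
      have h3 := measurable_measure_prodMk_left (ν := (volume : Measure (Fin j → ℝ))) h2
      have h4 : {x : Sp j m | ∀ᵐ σ : Fin j → ℝ,
          ((x, (B, σ)) : Sp j m × ((Fin j → Fin m → ℝ) × (Fin j → ℝ))) ∉ T} =
          (fun x => volume (Prod.mk x ⁻¹' ((fun y : Sp j m × (Fin j → ℝ) =>
          ((y.1, (B, y.2)) : Sp j m × ((Fin j → Fin m → ℝ) × (Fin j → ℝ)))) ⁻¹' T))) ⁻¹' {0} := by
        ext x
        simp only [mem_ofPred_eq, mem_preimage, mem_singleton_iff, ae_iff, not_not]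
        rfl
      rw [h4]
      exact h3 (measurableSet_singleton 0)
    have h2 : ∀ᵐ w : Fin m → ℝ, ∀ᵐ c : Fin j → ℝ, ∀ᵐ σ : Fin j → ℝ,
        (((c - (fun i => ∑ q, B i q * w q), w), (B, σ)) :
          Sp j m × ((Fin j → Fin m → ℝ) × (Fin j → ℝ))) ∉ T := by
      refine (Measure.ae_ae_comm ?_).1 (Eventually.of_forall h1)
      have h5 : Measurable fun x : (Fin j → ℝ) × (Fin m → ℝ) =>
          ((x.1 - (fun i => ∑ q, B i q * x.2 q), x.2) : Sp j m) := by
        refine Continuous.measurable ?_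
        fun_prop
      exact h5 hmeas
    have h3 : ∀ᵐ w : Fin m → ℝ, ∀ᵐ c : Fin j → ℝ, ∀ᵐ σ : Fin j → ℝ,
        (((c, w), (B, σ)) : Sp j m × ((Fin j → Fin m → ℝ) × (Fin j → ℝ))) ∉ T := by
      filter_upwards [h2] with w hw
      have h6 := (measurePreserving_add_right (volume : Measure (Fin j → ℝ))
        (fun i => ∑ q, B i q * w q)).quasiMeasurePreserving.ae hw
      filter_upwards [h6] with c hc
      simpa using hc
    have h4 : ∀ᵐ x : (Fin j → ℝ) × (Fin m → ℝ), ∀ᵐ σ : Fin j → ℝ,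
        ((x, (B, σ)) : Sp j m × ((Fin j → Fin m → ℝ) × (Fin j → ℝ))) ∉ T := by
      refine (Measure.ae_prod_iff_ae_ae hmeas).2 ?_
      exact (Measure.ae_ae_comm (p := fun (c : Fin j → ℝ) (w : Fin m → ℝ) =>
        ∀ᵐ σ : Fin j → ℝ, (((c, w), (B, σ)) :
          Sp j m × ((Fin j → Fin m → ℝ) × (Fin j → ℝ))) ∉ T) hmeas).2 h3
    exact h4
  -- interchange
  have hmeas2 : MeasurableSet {x : Sp j m × (Fin j → Fin m → ℝ) | ∀ᵐ σ : Fin j → ℝ,
      ((x.1, (x.2, σ)) : Sp j m × ((Fin j → Fin m → ℝ) × (Fin j → ℝ))) ∉ T} := by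
    have h2 : MeasurableSet ((fun y : (Sp j m × (Fin j → Fin m → ℝ)) × (Fin j → ℝ) =>
        ((y.1.1, (y.1.2, y.2)) : Sp j m × ((Fin j → Fin m → ℝ) × (Fin j → ℝ)))) ⁻¹' T) :=
      hTm.preimage (by fun_prop)
    have h3 := measurable_measure_prodMk_left (ν := (volume : Measure (Fin j → ℝ))) h2
    have h4 : {x : Sp j m × (Fin j → Fin m → ℝ) | ∀ᵐ σ : Fin j → ℝ,
        ((x.1, (x.2, σ)) : Sp j m × ((Fin j → Fin m → ℝ) × (Fin j → ℝ))) ∉ T} =
        (fun x => volume (Prod.mk x ⁻¹' ((fun y : (Sp j m × (Fin j → Fin m → ℝ)) × (Fin j → ℝ) =>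
        ((y.1.1, (y.1.2, y.2)) : Sp j m × ((Fin j → Fin m → ℝ) × (Fin j → ℝ)))) ⁻¹' T))) ⁻¹'
          {0} := by
      ext x
      simp only [mem_ofPred_eq, mem_preimage, mem_singleton_iff, ae_iff, not_not]
      rfl
    rw [h4]
    exact h3 (measurableSet_singleton 0)
  have hswap : ∀ᵐ v : Sp j m, ∀ᵐ B ∂(volume.restrict (Icc (0 : Fin j → Fin m → ℝ) 1)),
      ∀ᵐ σ : Fin j → ℝ,
        ((v, (B, σ)) : Sp j m × ((Fin j → Fin m → ℝ) × (Fin j → ℝ))) ∉ T := by
    refine (Measure.ae_ae_comm (p := fun (v : Sp j m) (B : Fin j → Fin m → ℝ) =>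
      ∀ᵐ σ : Fin j → ℝ,
        ((v, (B, σ)) : Sp j m × ((Fin j → Fin m → ℝ) × (Fin j → ℝ))) ∉ T) hmeas2).2 ?_
    rw [ae_restrict_iff' measurableSet_Icc]
    exact Eventually.of_forall hall
  apply h
  rw [ae_iff] at hswap
  refine measure_mono_null ?_ hswap
  intro v hv hv2
  have hv1 : ∀ᵐ B ∂(volume.restrict (Icc (0 : Fin j → Fin m → ℝ) 1)),
      volume (UB B '' Pos E ℓ v) ≠ 0 := hv
  have hv3 := hv1.and hv2
  have hne : (volume.restrict (Icc (0 : Fin j → Fin m → ℝ) 1)) ≠ 0 := by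
    rw [Ne, Measure.restrict_eq_zero, vol_Icc_one]
    exact one_ne_zero
  have : (ae (volume.restrict (Icc (0 : Fin j → Fin m → ℝ) 1))).NeBot := ae_neBot.2 hne
  have hv4 := (hv3.and (ae_restrict_mem measurableSet_Icc)).exists
  obtain ⟨B, ⟨hB1, hB2⟩, hB3⟩ := hv4
  apply hB1
  rw [ae_iff] at hB2
  refine measure_mono_null ?_ hB2
  intro σ hσ
  simp only [mem_ofPred_eq, not_not]
  exact ⟨hB3, hσ⟩

end Pool.Agent.H224.MPS
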