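import Pool.Agent.H224.MPS.Shear
import Pool.Agent.H224.MPS.Slope

/-!
# From segments in a non-null set of directions to Kakeya sets
-/

set_option autoImplicit false

open MeasureTheory Set Filter Topology
open scoped ENNReal NNReal InnerProductSpace

namespace Pool.Agent.H224.MPS

/-- Kakeya sets: compact sets with a unit segment in every direction -/
def IsKakeya (n : ℕ) (K : Set (EuclideanSpace ℝ (Fin n))) : Prop :=
  IsCompact K ∧ ∀ e : EuclideanSpace ℝ (Fin n), ‖e‖ = 1 → ∃ a, ∀ t ∈ Icc (0 : ℝ) 1, a + t • e ∈ K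

/-- The smallest Hausdorff dimension of the Kakeya sets of `ℝ^n` -/
noncomputable def kappa (n : ℕ) : ℝ≥0∞ :=
  ⨅ (K : Set (EuclideanSpace ℝ (Fin n))) (_ : IsKakeya n K), dimH K

/-- `ℝ × ℝ^m → ℝ^(m+1)` -/
noncomputable def Phi (m : ℕ) : (ℝ × (Fin m → ℝ)) →ₗ[ℝ] EuclideanSpace ℝ (Fin (m + 1)) where
  toFun x := WithLp.toLp 2 (Fin.cons x.1 x.2)
  map_add' x y := by
    ext i
    refine Fin.cases ?_ (fun i => ?_) i <;> simp
  map_smul' r x := by
    ext i
    refine Fin.cases ?_ (fun i => ?_) i <;> simp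

theorem Phi_zero {m : ℕ} (x : ℝ × (Fin m → ℝ)) : Phi m x 0 = x.1 := rfl

theorem Phi_succ {m : ℕ} (x : ℝ × (Fin m → ℝ)) (i : Fin m) : Phi m x i.succ = x.2 i := rfl

/-- many slopes: all the slopes of a cube, after shearing -/
theorem exists_open_slopes {m : ℕ} (F : Set (ℝ × (Fin m → ℝ))) (hF : IsCompact F) (ℓ : ℝ)
    (hℓ : 0 < ℓ) (h : volume {v | ∃ a s, Seg F v a s ℓ} ≠ 0) :
    ∃ F' : Set (ℝ × (Fin m → ℝ)), IsCompact F' ∧ dimH F' ≤ dimH F ∧ ∃ q0 : Fin m → ℤ,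
      ∀ z : Fin m → ℝ, ix 0 z = q0 → ∃ a s, Seg F' z a s ℓ := by
  have hVc : IsCompact {v | ∃ a s, Seg F v a s ℓ} := by
    have h1 : {v | ∃ a s, Seg F v a s ℓ} = (fun q : (Fin m → ℝ) × (Fin m → ℝ) × ℝ => q.1) ''
        {q | Seg F q.1 q.2.1 q.2.2 ℓ} := by
      ext v
      constructor
      · rintro ⟨a, s, h⟩
        exact ⟨(v, a, s), h, rfl⟩
      · rintro ⟨⟨v', a, s⟩, h, rfl⟩
        exact ⟨a, s, h⟩
    rw [h1]
    exact (isCompact_seg F hF ℓ hℓ).image continuous_fst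
  obtain ⟨W, hW, hthin, q0, hq0⟩ := exists_thin _ hVc.isClosed h
  refine ⟨Set.image2 (fun (x : ℝ × (Fin m → ℝ)) w => ((x.1, x.2 + x.1 • w) : ℝ × (Fin m → ℝ)))
    F W, ?_, dimH_shear F hF.isBounded W hW.isBounded hthin, q0, ?_⟩
  · rw [← Set.image_prod]
    exact (hF.prod hW).image (by fun_prop)
  · intro z hz
    obtain ⟨w, hw, a, s, hs⟩ := hq0 z hz
    refine ⟨a, s, fun t ht => ?_⟩
    refine ⟨_, hs t ht, w, hw, ?_⟩
    simp only [Prod.mk.injEq, true_and]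
    rw [smul_sub]
    abel

/-- **Kakeya sets from sets with segments for a non-null set of slopes** -/
theorem exists_kakeya {m : ℕ} (F : Set (ℝ × (Fin m → ℝ))) (hF : IsCompact F) (ℓ : ℝ)
    (hℓ : 0 < ℓ) (h : volume {v | ∃ a s, Seg F v a s ℓ} ≠ 0) :
    ∃ K, IsKakeya (m + 1) K ∧ dimH K ≤ dimH F := by
  obtain ⟨F', hF'c, hF'd, q0, hq0⟩ := exists_open_slopes F hF ℓ hℓ h
  set v0 : Fin m → ℝ := fun i => (q0 i : ℝ) + 1 / 2 with hv0
  -- the cone of directions
  set O : Set (EuclideanSpace ℝ (Fin (m + 1))) := {x | 0 < x 0 ∧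
    ∀ i : Fin m, (q0 i : ℝ) * x 0 < x i.succ ∧ x i.succ < ((q0 i : ℝ) + 1) * x 0} with hO
  have hOopen : IsOpen O := by
    have h1 : O = {x | 0 < x 0} ∩ ⋂ i : Fin m, ({x : EuclideanSpace ℝ (Fin (m + 1)) |
        (q0 i : ℝ) * x 0 < x i.succ} ∩ {x | x i.succ < ((q0 i : ℝ) + 1) * x 0}) := by
      ext x
      simp [hO]
    rw [h1]
    refine IsOpen.inter (isOpen_lt (by fun_prop) (by fun_prop)) (isOpen_iInter_of_finite fun i => ?_)
    exact IsOpen.inter (isOpen_lt (by fun_prop) (by fun_prop)) (isOpen_lt (by fun_prop) (by fun_prop))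
  have hOcone : ∀ x ∈ O, ∀ c : ℝ, 0 < c → c • x ∈ O := by
    rintro x ⟨h1, h2⟩ c hc
    refine ⟨by simpa using mul_pos hc h1, fun i => ?_⟩
    obtain ⟨h3, h4⟩ := h2 i
    simp only [PiLp.smul_apply, smul_eq_mul]
    constructor
    · nlinarith
    · nlinarith
  set x0 : EuclideanSpace ℝ (Fin (m + 1)) := Phi m (1, v0) with hx0
  have hx0O : x0 ∈ O := by
    refine ⟨by rw [hx0, Phi_zero]; exact one_pos, fun i => ?_⟩
    rw [hx0, Phi_zero, Phi_succ]
    simp only [hv0, mul_one]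
    constructor <;> linarith
  have hx0ne : x0 ≠ 0 := by
    intro h0
    have h1 := hx0O.1
    rw [h0] at h1
    simp at h1
  have hx0n : 0 < ‖x0‖ := norm_pos_iff.2 hx0ne
  set u : EuclideanSpace ℝ (Fin (m + 1)) := ‖x0‖⁻¹ • x0 with hu
  have huO : u ∈ O := hOcone x0 hx0O _ (by positivity)
  have hun : ‖u‖ = 1 := by
    rw [hu, norm_smul, norm_inv, norm_norm, inv_mul_cancel₀ hx0n.ne']
  -- segments in the directions of the cone
  have hseg : ∀ e ∈ O, ‖e‖ = 1 → ∃ b : EuclideanSpace ℝ (Fin (m + 1)),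
      ∀ r ∈ Icc (0 : ℝ) 1, b + (ℓ * r) • e ∈ Phi m '' F' := by
    rintro e ⟨he1, he2⟩ hen
    set v : Fin m → ℝ := fun i => e i.succ / e 0 with hv
    have hvq : ix 0 v = q0 := by
      funext i
      unfold ix
      rw [pow_zero, one_mul, Int.floor_eq_iff]
      obtain ⟨h3, h4⟩ := he2 i
      simp only [hv]
      rw [le_div_iff₀ he1, div_lt_iff₀ he1]
      exact ⟨h3.le, h4⟩
    obtain ⟨a, s, hs⟩ := hq0 v hvq
    have he : e = (e 0) • Phi m (1, v) := by
      ext i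
      refine Fin.cases ?_ (fun i => ?_) i
      · rw [PiLp.smul_apply, Phi_zero]; simp
      · rw [PiLp.smul_apply, Phi_succ]
        simp only [hv, smul_eq_mul]
        field_simp
    have he01 : e 0 ≤ 1 := by
      have h1 : |e 0| ≤ ‖e‖ := by
        have := PiLp.norm_apply_le (p := 2) e 0
        simpa using this
      rw [hen] at h1
      exact (le_abs_self _).trans h1
    refine ⟨Phi m (s, a + s • v), fun r hr => ?_⟩
    refine ⟨(s + ℓ * r * e 0, a + (s + ℓ * r * e 0) • v), hs _ ⟨?_, ?_⟩, ?_⟩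
    · have : 0 ≤ ℓ * r * e 0 := mul_nonneg (mul_nonneg hℓ.le hr.1) he1.le
      linarith
    · have h1 : ℓ * r * e 0 ≤ ℓ := by
        have h2 : r * e 0 ≤ 1 := mul_le_one₀ hr.2 he1.le he01
        calc ℓ * r * e 0 = ℓ * (r * e 0) := by ring
          _ ≤ ℓ * 1 := by gcongr
          _ = ℓ := mul_one _
      linarith
    · conv_rhs => rw [he]
      rw [smul_smul, ← map_smul, ← map_add]
      congr 1
      ext i
      · simp
      · simp only [Prod.smul_mk, Prod.mk_add_mk, Pi.add_apply, Pi.smul_apply, smul_eq_mul]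
        ring
  -- finitely many reflections
  set g : EuclideanSpace ℝ (Fin (m + 1)) →
      (EuclideanSpace ℝ (Fin (m + 1)) ≃ₗᵢ[ℝ] EuclideanSpace ℝ (Fin (m + 1))) :=
    fun ω => Submodule.reflection (Submodule.span ℝ {u - ω})ᗮ with hg
  have hgu : ∀ ω, ‖ω‖ = 1 → g ω u = ω := fun ω hω =>
    Submodule.reflection_sub (by rw [hun, hω])
  obtain ⟨T, hT1, hT2⟩ := (isCompact_sphere (0 : EuclideanSpace ℝ (Fin (m + 1))) 1).elim_nhds_subcover
    (fun ω => g ω '' O) (fun ω hω => by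
      have hω1 : ‖ω‖ = 1 := by simpa using hω
      have h1 : IsOpen (g ω '' O) := (g ω).toHomeomorph.isOpenMap _ hOopen
      exact h1.mem_nhds ⟨u, huO, hgu ω hω1⟩)
  set K0 : Set (EuclideanSpace ℝ (Fin (m + 1))) := Phi m '' F' with hK0
  set K : Set (EuclideanSpace ℝ (Fin (m + 1))) :=
    ⋃ ω ∈ T, (fun x => ℓ⁻¹ • g ω x) '' K0 with hK
  have hPhiLip := (LinearMap.toContinuousLinearMap (Phi m)).lipschitz
  have hK0c : IsCompact K0 := hF'c.image (LinearMap.toContinuousLinearMap (Phi m)).continuous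
  have hK0d : dimH K0 ≤ dimH F' := hPhiLip.dimH_image_le F'
  refine ⟨K, ⟨?_, ?_⟩, ?_⟩
  · exact T.isCompact_biUnion fun ω _ => hK0c.image (by
      have h1 := (g ω).continuous
      fun_prop)
  · intro e he
    have he' : e ∈ Metric.sphere (0 : EuclideanSpace ℝ (Fin (m + 1))) 1 := by simpa using he
    obtain ⟨ω, hω, e', he'O, hge⟩ := mem_iUnion₂.1 (hT2 he')
    have hen : ‖e'‖ = 1 := by rw [← (g ω).norm_map e', hge, he]
    obtain ⟨b, hb⟩ := hseg e' he'O hen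
    refine ⟨ℓ⁻¹ • g ω b, fun t ht => ?_⟩
    refine mem_iUnion₂.2 ⟨ω, hω, _, hb t ht, ?_⟩
    simp only
    rw [map_add, map_smul, hge, smul_add, smul_smul, ← mul_assoc, inv_mul_cancel₀ hℓ.ne', one_mul]
  · have h1 : dimH K ≤ dimH K0 := by
      have h0 : K = ⋃ ω ∈ (T : Set (EuclideanSpace ℝ (Fin (m + 1)))),
          (fun x => ℓ⁻¹ • g ω x) '' K0 := by
        rw [hK]
        simp only [Finset.mem_coe]
      rw [h0, dimH_bUnion T.countable_toSet]
      refine iSup₂_le fun ω _ => ?_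
      have h2 := ((ContinuousLinearMap.lipschitz
        (ℓ⁻¹ • ((g ω).toContinuousLinearEquiv : EuclideanSpace ℝ (Fin (m + 1)) →L[ℝ]
          EuclideanSpace ℝ (Fin (m + 1)))))).dimH_image_le K0
      exact h2
    exact h1.trans (hK0d.trans hF'd)

theorem slopeBound_kappa (m : ℕ) : SlopeBound m (kappa (m + 1)) := by
  intro F hF ℓ hℓ h
  obtain ⟨K, hK1, hK2⟩ := exists_kakeya F hF ℓ hℓ h
  exact (iInf₂_le K hK1).trans hK2

end Pool.Agent.H224.MPS
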