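import Pool.Agent.H224.MPS.Row

/-!
# Almost every `U_B` is injective on a given `j`-dimensional subspace
-/

set_option autoImplicit false

open MeasureTheory Set Filter Topology
open scoped ENNReal NNReal

namespace Pool.Agent.H224.MPS

theorem UB_add {j m : ℕ} (B : Fin j → Fin m → ℝ) (z z' : (Fin j → ℝ) × (Fin m → ℝ)) :
    UB B (z + z') = UB B z + UB B z' := by
  funext i
  simp only [UB, Pi.add_apply, Prod.fst_add, Prod.snd_add, mul_add, Finset.sum_add_distrib]
  ring

theorem UB_smul {j m : ℕ} (B : Fin j → Fin m → ℝ) (r : ℝ) (z : (Fin j → ℝ) × (Fin m → ℝ)) :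
    UB B (r • z) = r • UB B z := by
  funext i
  simp only [UB, Pi.smul_apply, Prod.smul_fst, Prod.smul_snd, smul_eq_mul, mul_add,
    Finset.mul_sum]
  congr 1
  exact Finset.sum_congr rfl fun q _ => by ring

/-- `U_B` as a linear map -/
noncomputable def UL {j m : ℕ} (B : Fin j → Fin m → ℝ) :
    ((Fin j → ℝ) × (Fin m → ℝ)) →ₗ[ℝ] (Fin j → ℝ) :=
  { toFun := UB B, map_add' := UB_add B, map_smul' := fun r z => by simpa using UB_smul B r z }

theorem norm_UB_le {j m : ℕ} (B : Fin j → Fin m → ℝ) (hB : B ∈ Icc (0 : Fin j → Fin m → ℝ) 1)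
    (z : (Fin j → ℝ) × (Fin m → ℝ)) : ‖UB B z‖ ≤ (1 + m) * ‖z‖ := by
  refine (pi_norm_le_iff_of_nonneg (by positivity)).2 fun i => ?_
  unfold UB
  have h1 : ‖z.1 i‖ ≤ ‖z‖ := (norm_le_pi_norm z.1 i).trans (norm_fst_le z)
  have h2 : ‖∑ q, B i q * z.2 q‖ ≤ m * ‖z‖ := by
    refine (norm_sum_le _ _).trans ?_
    refine (Finset.sum_le_card_nsmul _ _ ‖z‖ fun q _ => ?_).trans ?_
    · rw [norm_mul]
      have h3 : ‖B i q‖ ≤ 1 := by
        rw [Real.norm_eq_abs, abs_le]
        have h4 := hB.1 i q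
        have h5 := hB.2 i q
        simp only [Pi.zero_apply, Pi.one_apply] at h4 h5
        constructor <;> linarith
      have h6 : ‖z.2 q‖ ≤ ‖z‖ := (norm_le_pi_norm z.2 q).trans (norm_snd_le z)
      calc ‖B i q‖ * ‖z.2 q‖ ≤ 1 * ‖z‖ := by gcongr
        _ = ‖z‖ := one_mul _
    · simp
  refine (norm_add_le _ _).trans ?_
  linarith

/-- Almost every `U_B` is injective on the range of a given injective map. -/
theorem ae_injective {j m : ℕ} (hm : 1 ≤ m)
    (Ω : (Fin j → ℝ) →ₗ[ℝ] ((Fin j → ℝ) × (Fin m → ℝ))) (hΩ : Function.Injective Ω) :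
    ∀ᵐ B ∂(volume.restrict (Icc (0 : Fin j → Fin m → ℝ) 1)),
      ∀ s : Fin j → ℝ, UB B (Ω s) = 0 → s = 0 := by
  rcases j with _ | j
  · exact Eventually.of_forall fun B s _ => Subsingleton.elim _ _
  obtain ⟨κ, hκ0, hκ⟩ := Ω.exists_antilipschitzWith (LinearMap.ker_eq_bot.2 hΩ)
  have hlow : ∀ s, ‖s‖ ≤ κ * ‖Ω s‖ := fun s => by
    have := hκ.le_mul_dist s 0
    simpa using this
  set L : ℝ := ‖LinearMap.toContinuousLinearMap Ω‖ with hL
  have hup : ∀ s, ‖Ω s‖ ≤ L * ‖s‖ := fun s =>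
    (LinearMap.toContinuousLinearMap Ω).le_opNorm s
  have hL0 : 0 ≤ L := norm_nonneg _
  rw [ae_restrict_iff' measurableSet_Icc, ae_iff]
  set Z : Set (Fin (j + 1) → Fin m → ℝ) := {B | ¬ (B ∈ Icc (0 : Fin (j + 1) → Fin m → ℝ) 1 →
    ∀ s : Fin (j + 1) → ℝ, UB B (Ω s) = 0 → s = 0)} with hZ
  -- the grid
  set c : ℝ := (κ : ℝ)⁻¹ with hc
  have hc0 : 0 < c := by
    rw [hc]
    positivity
  set G : ℕ → Finset (Fin (j + 1) → ℤ) := fun N =>
    ((Finset.univ : Finset (Fin (j + 1))) ×ˢ (({1, -1} : Finset ℤ) ×ˢ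
      (Fintype.piFinset fun _ : Fin j => Finset.Icc (-(N : ℤ)) N))).image
      (fun x => x.1.insertNth (x.2.1 * N) x.2.2) with hG
  have hGcard : ∀ N : ℕ, ((G N).card : ℝ) ≤ (j + 1) * 2 * (2 * N + 1) ^ j := by
    intro N
    have h1 : (G N).card ≤ (j + 1) * (2 * (2 * N + 1) ^ j) := by
      refine Finset.card_image_le.trans (le_of_eq ?_)
      rw [Finset.card_product, Finset.card_product, Finset.card_univ, Fintype.card_fin,
        Fintype.card_piFinset, Finset.prod_const, Finset.card_univ, Fintype.card_fin,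
        Int.card_Icc]
      have h2 : ((N : ℤ) + 1 - -(N : ℤ)).toNat = 2 * N + 1 := by omega
      rw [h2]
      have h3 : ({1, -1} : Finset ℤ).card = 2 := by decide
      rw [h3]
    have h4 : ((G N).card : ℝ) ≤ (((j + 1) * (2 * (2 * N + 1) ^ j) : ℕ) : ℝ) := by
      exact_mod_cast h1
    refine h4.trans (le_of_eq ?_)
    push_cast
    ring
  set r : ℕ → ℝ := fun N => (1 + m) * (L * (1 / N)) with hr
  have hcov : ∀ N : ℕ, 1 ≤ N → Z ⊆ ⋃ k ∈ G N, {B : Fin (j + 1) → Fin m → ℝ |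
      B ∈ Icc (0 : Fin (j + 1) → Fin m → ℝ) 1 ∧
        ‖UB B (Ω fun i => (k i : ℝ) / N)‖ ≤ r N ∧ ‖(fun i => (k i : ℝ) / N : Fin (j + 1) → ℝ)‖ = 1} := by
    intro N hN B hB
    have hN0 : (0 : ℝ) < N := by exact_mod_cast hN
    simp only [hZ, mem_ofPred_eq, Classical.not_imp, not_forall] at hB
    obtain ⟨hB1, s', hB2, hB3⟩ := hB
    have hs'0 : 0 < ‖s'‖ := norm_pos_iff.2 hB3
    set s : Fin (j + 1) → ℝ := ‖s'‖⁻¹ • s' with hs
    have hs1 : ‖s‖ = 1 := by
      rw [hs, norm_smul, norm_inv, norm_norm, inv_mul_cancel₀ hs'0.ne']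
    have hsU : UB B (Ω s) = 0 := by
      rw [hs, map_smul, UB_smul, hB2, smul_zero]
    obtain ⟨i, hi⟩ : ∃ i, |s i| = 1 := by
      obtain ⟨i, -, hi⟩ := Finset.exists_max_image (Finset.univ : Finset (Fin (j + 1)))
        (fun q => ‖s q‖) Finset.univ_nonempty
      refine ⟨i, le_antisymm ?_ ?_⟩
      · rw [← hs1]; exact norm_le_pi_norm s i
      · rw [← hs1]
        exact (pi_norm_le_iff_of_nonneg (norm_nonneg _)).2 fun q => hi q (Finset.mem_univ _)
    set k : Fin (j + 1) → ℤ := fun q => round ((N : ℝ) * s q) with hk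
    have hkabs : ∀ q, |k q| ≤ N := by
      intro q
      have h1 : |s q| ≤ 1 := by rw [← hs1]; exact norm_le_pi_norm s q
      rw [abs_le] at h1 ⊢
      have h5 := abs_sub_round ((N : ℝ) * s q)
      rw [abs_le] at h5
      have h6 : ((k q : ℤ) : ℝ) < N + 1 := by
        simp only [hk]
        nlinarith [h1.2, h5.1, h5.2]
      have h7 : -((N : ℝ) + 1) < ((k q : ℤ) : ℝ) := by
        simp only [hk]
        nlinarith [h1.1, h5.1, h5.2]
      have h8 : k q < N + 1 := by exact_mod_cast h6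
      have h9 : -((N : ℤ) + 1) < k q := by exact_mod_cast h7
      constructor <;> omega
    have hki : |k i| = N := by
      rcases abs_eq (by norm_num : (0 : ℝ) ≤ 1) |>.1 hi with h1 | h1
      · have : k i = N := by
          simp only [hk, h1, mul_one]
          exact_mod_cast round_natCast N
        rw [this]; simp
      · have : k i = -(N : ℤ) := by
          simp only [hk, h1]
          have h2 : (N : ℝ) * -1 = ((-(N : ℤ) : ℤ) : ℝ) := by push_cast; ring
          rw [h2, round_intCast]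
        rw [this]; simp
    have hkG : k ∈ G N := by
      rw [hG, Finset.mem_image]
      rcases abs_eq (by positivity : (0 : ℤ) ≤ N) |>.1 hki with h1 | h1
      · refine ⟨(i, 1, fun q => k (i.succAbove q)), ?_, ?_⟩
        · simp only [Finset.mem_product, Finset.mem_univ, true_and, Finset.mem_insert, true_or,
            Fintype.mem_piFinset, Finset.mem_Icc]
          exact fun q => abs_le.1 (hkabs _)
        · simp only [one_mul]
          rw [← h1]
          exact Fin.insertNth_self_removeNth i k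
      · refine ⟨(i, -1, fun q => k (i.succAbove q)), ?_, ?_⟩
        · simp only [Finset.mem_product, Finset.mem_univ, true_and, Finset.mem_insert,
            Finset.mem_singleton, or_true, Fintype.mem_piFinset, Finset.mem_Icc]
          exact fun q => abs_le.1 (hkabs _)
        · simp only [neg_mul, one_mul]
          rw [← h1]
          exact Fin.insertNth_self_removeNth i k
    have hdist : ‖(fun q => (k q : ℝ) / N) - s‖ ≤ 1 / N := by
      refine (pi_norm_le_iff_of_nonneg (by positivity)).2 fun q => ?_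
      have h1 := abs_sub_round ((N : ℝ) * s q)
      rw [Pi.sub_apply, Real.norm_eq_abs]
      have h2 : (k q : ℝ) / N - s q = -(((N : ℝ) * s q - round ((N : ℝ) * s q)) / N) := by
        simp only [hk]
        field_simp
        ring
      rw [h2, abs_neg, abs_div, abs_of_pos hN0]
      gcongr
      linarith
    refine mem_iUnion₂.2 ⟨k, hkG, hB1, ?_, ?_⟩
    · have h1 : UB B (Ω fun q => (k q : ℝ) / N) = UB B (Ω ((fun q => (k q : ℝ) / N) - s)) := by
        rw [map_sub, ← UB_sub, hsU, sub_zero]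
      rw [h1]
      refine (norm_UB_le B hB1 _).trans ?_
      rw [hr]
      simp only
      have h2 := hup ((fun q => (k q : ℝ) / N) - s)
      gcongr
      refine h2.trans ?_
      gcongr
    · apply le_antisymm
      · refine (pi_norm_le_iff_of_nonneg (by norm_num)).2 fun q => ?_
        rw [Real.norm_eq_abs, abs_div, abs_of_pos hN0, div_le_one hN0]
        have := hkabs q
        exact_mod_cast this
      · have h1 : ‖(k i : ℝ) / N‖ ≤ ‖(fun q => (k q : ℝ) / N : Fin (j + 1) → ℝ)‖ :=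
          norm_le_pi_norm (fun q => (k q : ℝ) / N : Fin (j + 1) → ℝ) i
        rw [Real.norm_eq_abs, abs_div, abs_of_pos hN0] at h1
        have h2 : |(k i : ℝ)| = N := by exact_mod_cast hki
        rw [h2, div_self hN0.ne'] at h1
        exact h1
  have hbound : ∀ N : ℕ, 1 ≤ N → volume Z ≤ ENNReal.ofReal
      ((j + 1) * 2 * (2 * N + 1) ^ j * (4 * m * r N * κ) ^ (j + 1)) := by
    intro N hN
    have hN0 : (0 : ℝ) < N := by exact_mod_cast hN
    have hr0 : 0 ≤ r N := by rw [hr]; positivity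
    refine (measure_mono (hcov N hN)).trans ((measure_biUnion_finset_le _ _).trans ?_)
    have h1 : ∀ k ∈ G N, volume {B : Fin (j + 1) → Fin m → ℝ |
        B ∈ Icc (0 : Fin (j + 1) → Fin m → ℝ) 1 ∧
        ‖UB B (Ω fun i => (k i : ℝ) / N)‖ ≤ r N ∧
          ‖(fun i => (k i : ℝ) / N : Fin (j + 1) → ℝ)‖ = 1} ≤
        ENNReal.ofReal ((4 * m * r N * κ) ^ (j + 1)) := by
      intro k _
      by_cases hk1 : ‖(fun i => (k i : ℝ) / N : Fin (j + 1) → ℝ)‖ = 1
      · set s : Fin (j + 1) → ℝ := fun i => (k i : ℝ) / N with hs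
        have h2 : 1 ≤ κ * ‖Ω s‖ := by rw [← hk1]; exact hlow s
        have h3 : 0 < ‖Ω s‖ := by
          by_contra h
          have h0 : ‖Ω s‖ = 0 := le_antisymm (not_lt.1 h) (norm_nonneg _)
          rw [h0, mul_zero] at h2
          linarith
        have h4 : Ω s ≠ 0 := norm_pos_iff.1 h3
        refine (measure_mono ?_).trans ((vol_rows hm (Ω s) h4 (r N) hr0).trans
          (ENNReal.ofReal_le_ofReal ?_))
        · rintro B ⟨hB1, hB2, -⟩
          exact ⟨hB1, hB2⟩
        · have h5 : 4 * m * r N / ‖Ω s‖ ≤ 4 * m * r N * κ := by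
            rw [div_le_iff₀ h3, mul_assoc (4 * m * r N)]
            exact le_mul_of_one_le_right (by positivity) h2
          gcongr
      · have h2 : {B : Fin (j + 1) → Fin m → ℝ |
          B ∈ Icc (0 : Fin (j + 1) → Fin m → ℝ) 1 ∧
          ‖UB B (Ω fun i => (k i : ℝ) / N)‖ ≤ r N ∧
            ‖(fun i => (k i : ℝ) / N : Fin (j + 1) → ℝ)‖ = 1} = ∅ := by
          rw [eq_empty_iff_forall_notMem]
          rintro B ⟨-, -, h3⟩
          exact hk1 h3
        rw [h2, measure_empty]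
        exact zero_le
    refine (Finset.sum_le_card_nsmul _ _ _ h1).trans ?_
    rw [nsmul_eq_mul, ← ENNReal.ofReal_natCast, ← ENNReal.ofReal_mul (by positivity)]
    apply ENNReal.ofReal_le_ofReal
    have := hGcard N
    gcongr
  -- the limit
  set A : ℝ := (j + 1) * 2 * 3 ^ j * (4 * m * ((1 + m) * L) * κ) ^ (j + 1) with hA
  have hbound2 : ∀ N : ℕ, 1 ≤ N → volume Z ≤ ENNReal.ofReal (A * (1 / N)) := by
    intro N hN
    have hN1 : (1 : ℝ) ≤ N := by exact_mod_cast hN
    refine (hbound N hN).trans (ENNReal.ofReal_le_ofReal ?_)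
    have h1 : (2 * (N : ℝ) + 1) ^ j ≤ (3 * N) ^ j := by
      gcongr
      linarith
    have h2 : (4 * m * r N * κ) = (4 * m * ((1 + m) * L) * κ) * (1 / N) := by
      rw [hr]; ring
    rw [h2, mul_pow _ (1 / (N : ℝ)) (j + 1)]
    have h3 : (3 * (N : ℝ)) ^ j * (1 / (N : ℝ)) ^ (j + 1) = 3 ^ j * (1 / N) := by
      rw [mul_pow, pow_succ, one_div_pow]
      have : (N : ℝ) ≠ 0 := by positivity
      field_simp
    calc ((j : ℝ) + 1) * 2 * (2 * N + 1) ^ j * ((4 * m * ((1 + m) * L) * κ) ^ (j + 1) *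
          (1 / (N : ℝ)) ^ (j + 1))
        ≤ ((j : ℝ) + 1) * 2 * (3 * N) ^ j * ((4 * m * ((1 + m) * L) * κ) ^ (j + 1) *
          (1 / (N : ℝ)) ^ (j + 1)) := by gcongr
      _ = ((j : ℝ) + 1) * 2 * (4 * m * ((1 + m) * L) * κ) ^ (j + 1) *
          ((3 * (N : ℝ)) ^ j * (1 / (N : ℝ)) ^ (j + 1)) := by ring
      _ = A * (1 / N) := by rw [h3, hA]; ring
  have hlim : Tendsto (fun N : ℕ => ENNReal.ofReal (A * (1 / N))) atTop (𝓝 0) := by
    have h1 : Tendsto (fun N : ℕ => A * (1 / (N : ℝ))) atTop (𝓝 (A * 0)) :=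
      tendsto_one_div_atTop_nhds_zero_nat.const_mul A
    rw [mul_zero] at h1
    have h2 := ENNReal.tendsto_ofReal h1
    rwa [ENNReal.ofReal_zero] at h2
  refine le_antisymm (ge_of_tendsto hlim ?_) zero_le
  exact eventually_atTop.2 ⟨1, fun N hN => hbound2 N hN⟩

/-- projections of a parallelepiped -/
theorem proj_plate {j m : ℕ} (hm : 1 ≤ m)
    (Ω : (Fin j → ℝ) →ₗ[ℝ] ((Fin j → ℝ) × (Fin m → ℝ))) (hΩ : Function.Injective Ω)
    (a : (Fin j → ℝ) × (Fin m → ℝ)) (A : Set ((Fin j → ℝ) × (Fin m → ℝ)))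
    (hA : ∀ s ∈ Icc (0 : Fin j → ℝ) 1, a + Ω s ∈ A) :
    ∀ᵐ B ∂(volume.restrict (Icc (0 : Fin j → Fin m → ℝ) 1)), volume (UB B '' A) ≠ 0 := by
  filter_upwards [ae_injective hm Ω hΩ] with B hB h0
  set M : (Fin j → ℝ) →ₗ[ℝ] (Fin j → ℝ) := (UL B).comp Ω with hM
  have hinj : Function.Injective M := by
    rw [← LinearMap.ker_eq_bot, LinearMap.ker_eq_bot']
    intro s hs
    exact hB s hs
  have hdet : LinearMap.det M ≠ 0 := by
    have h1 : IsUnit (LinearMap.det M) := by
      rw [← LinearMap.isUnit_iff_isUnit_det]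
      exact (LinearMap.isUnit_iff_ker_eq_bot M).2 (LinearMap.ker_eq_bot.2 hinj)
    exact h1.ne_zero
  have h1 : volume (M '' Icc (0 : Fin j → ℝ) 1) ≠ 0 := by
    rw [Measure.addHaar_image_linearMap, Real.volume_Icc_pi]
    simp [hdet]
  apply h1
  have h2 : (fun y => UB B a + y) '' (M '' Icc (0 : Fin j → ℝ) 1) ⊆ UB B '' A := by
    rintro _ ⟨_, ⟨s, hs, rfl⟩, rfl⟩
    exact ⟨a + Ω s, hA s hs, UB_add B a (Ω s)⟩
  have h3 : volume ((fun y => UB B a + y) '' (M '' Icc (0 : Fin j → ℝ) 1)) = 0 :=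
    measure_mono_null h2 h0
  rw [image_add_left, measure_preimage_add] at h3
  exact h3

end Pool.Agent.H224.MPS
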