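import Pool.Agent.H224.MPS.Kak
import Pool.Agent.H224.MPS.Plate

/-!
# Sets with many parallel segments in a non-null set of directions
-/

set_option autoImplicit false

open MeasureTheory Set Filter Topology
open scoped ENNReal NNReal InnerProductSpace

namespace Pool.Agent.H224.MPS

/-- positions of the lines parallel to `x` that contain a nondegenerate segment of `K` -/
def Lines {n : ℕ} (K : Set (EuclideanSpace ℝ (Fin n))) (x : EuclideanSpace ℝ (Fin n)) :
    Set (EuclideanSpace ℝ (Fin n)) :=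
  {p | ⟪p, x⟫_ℝ = 0 ∧ ∃ s t : ℝ, s < t ∧ ∀ r ∈ Icc s t, p + r • x ∈ K}

/-- `K` contains a `(j+1)`-dimensional parallelepiped with an edge parallel to `x` -/
def HasPlate {n : ℕ} (j : ℕ) (K : Set (EuclideanSpace ℝ (Fin n)))
    (x : EuclideanSpace ℝ (Fin n)) : Prop :=
  ∃ (b : EuclideanSpace ℝ (Fin n)) (w : Fin j → EuclideanSpace ℝ (Fin n)),
    LinearIndependent ℝ (Fin.cons x w : Fin (j + 1) → EuclideanSpace ℝ (Fin n)) ∧
    ∀ s ∈ Icc (0 : Fin j → ℝ) 1, ∀ t ∈ Icc (0 : ℝ) 1, b + ∑ i, s i • w i + t • x ∈ K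

variable {j m : ℕ}

/-- `ℝ^(j+m+1) → ℝ × ℝ^j × ℝ^m` -/
noncomputable def Psi (j m : ℕ) : EuclideanSpace ℝ (Fin (j + m + 1)) →ₗ[ℝ] (ℝ × Sp j m) where
  toFun x := (x 0, (fun i => x (Fin.castAdd m i).succ, fun q => x (Fin.natAdd j q).succ))
  map_add' x y := by ext <;> simp
  map_smul' r x := by ext <;> simp

/-- the inverse -/
noncomputable def Xi (j m : ℕ) : (ℝ × Sp j m) →ₗ[ℝ] EuclideanSpace ℝ (Fin (j + m + 1)) where
  toFun x := WithLp.toLp 2 (Fin.cons x.1 (Fin.append x.2.1 x.2.2))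
  map_add' x y := by
    ext i
    refine Fin.cases ?_ (fun i => ?_) i
    · simp
    · refine Fin.addCases (fun i => ?_) (fun i => ?_) i <;> simp
  map_smul' r x := by
    ext i
    refine Fin.cases ?_ (fun i => ?_) i
    · simp
    · refine Fin.addCases (fun i => ?_) (fun i => ?_) i <;> simp

theorem Xi_Psi (x : EuclideanSpace ℝ (Fin (j + m + 1))) : Xi j m (Psi j m x) = x := by
  ext i
  refine Fin.cases ?_ (fun i => ?_) i
  · simp [Xi, Psi]
  · refine Fin.addCases (fun i => ?_) (fun i => ?_) i <;> simp [Xi, Psi]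

theorem Psi_Xi (x : ℝ × Sp j m) : Psi j m (Xi j m x) = x := by
  refine Prod.ext ?_ (Prod.ext ?_ ?_)
  · simp [Xi, Psi]
  · funext i; simp [Xi, Psi]
  · funext i; simp [Xi, Psi]

/-- slope of a vector -/
noncomputable def slope (x : EuclideanSpace ℝ (Fin (j + m + 1))) : Sp j m :=
  (x 0)⁻¹ • (Psi j m x).2

theorem Psi_eq (x : EuclideanSpace ℝ (Fin (j + m + 1))) (hx : x 0 ≠ 0) :
    Psi j m x = (x 0) • ((1 : ℝ), slope x) := by
  refine Prod.ext ?_ ?_
  · simp [Psi]
  · simp only [slope, Prod.smul_mk, smul_smul, mul_inv_cancel₀ hx, one_smul]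

/-- the position of a point -/
noncomputable def pos (x p : EuclideanSpace ℝ (Fin (j + m + 1))) : Sp j m :=
  (Psi j m p).2 - (p 0) • slope x

theorem Psi_pos (x p : EuclideanSpace ℝ (Fin (j + m + 1))) (hx : x 0 ≠ 0) (r : ℝ) :
    Psi j m (p + r • x) = (p 0 + r * x 0, pos x p + (p 0 + r * x 0) • slope x) := by
  rw [map_add, map_smul, Psi_eq x hx]
  refine Prod.ext ?_ ?_
  · simp [Psi]
  · simp only [Prod.smul_mk, Prod.snd_add, pos, add_smul, mul_smul]
    abel

theorem Pos_mono (E : Set (ℝ × Sp j m)) {ℓ ℓ' : ℝ} (h : ℓ' ≤ ℓ) (v : Sp j m) :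
    Pos E ℓ v ⊆ Pos E ℓ' v := by
  rintro a ⟨s, hs⟩
  exact ⟨s, fun t ht => hs t ⟨ht.1, ht.2.trans (by linarith)⟩⟩

theorem mem_Pos (K : Set (EuclideanSpace ℝ (Fin (j + m + 1))))
    (x p : EuclideanSpace ℝ (Fin (j + m + 1))) (hx : x 0 ≠ 0) (s t : ℝ)
    (h : ∀ r ∈ Icc s t, p + r • x ∈ K) :
    pos x p ∈ Pos (Psi j m '' K) ((t - s) * |x 0|) (slope x) := by
  rcases lt_or_gt_of_ne hx with h0 | h0
  · refine ⟨p 0 + t * x 0, fun T hT => ?_⟩
    rw [abs_of_neg h0] at hT
    have hT2 : T = p 0 + ((T - p 0) / x 0) * x 0 := by field_simp; ring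
    refine ⟨p + ((T - p 0) / x 0) • x, h _ ⟨?_, ?_⟩, ?_⟩
    · rw [le_div_iff_of_neg h0]
      have := hT.2
      nlinarith
    · rw [div_le_iff_of_neg h0]
      have := hT.1
      nlinarith
    · rw [Psi_pos x p hx, ← hT2]
  · refine ⟨p 0 + s * x 0, fun T hT => ?_⟩
    rw [abs_of_pos h0] at hT
    have hT2 : T = p 0 + ((T - p 0) / x 0) * x 0 := by field_simp; ring
    refine ⟨p + ((T - p 0) / x 0) • x, h _ ⟨?_, ?_⟩, ?_⟩
    · rw [le_div_iff₀ h0]
      have := hT.1
      nlinarith
    · rw [div_le_iff₀ h0]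
      have := hT.2
      nlinarith
    · rw [Psi_pos x p hx, ← hT2]

theorem isCompact_Pos (E : Set (ℝ × Sp j m)) (hE : IsCompact E) (ℓ : ℝ) (hℓ : 0 < ℓ)
    (v : Sp j m) : IsCompact (Pos E ℓ v) := by
  have h1 : Pos E ℓ v = (fun q : Sp j m × Sp j m × ℝ => q.2.1) ''
      ({q | Seg E q.1 q.2.1 q.2.2 ℓ} ∩ {q | q.1 = v}) := by
    ext a
    constructor
    · rintro ⟨s, hs⟩
      exact ⟨(v, a, s), ⟨hs, rfl⟩, rfl⟩
    · rintro ⟨⟨v', a', s⟩, ⟨h2, h3⟩, rfl⟩
      simp only [mem_ofPred_eq] at h3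
      subst h3
      exact ⟨s, h2⟩
  rw [h1]
  refine ((isCompact_seg E hE ℓ hℓ).inter_right ?_).image (by fun_prop)
  exact isClosed_eq continuous_fst continuous_const

/-- the dimension of the set of the positions -/
theorem dimH_Lines_le (K : Set (EuclideanSpace ℝ (Fin (j + m + 1))))
    (x : EuclideanSpace ℝ (Fin (j + m + 1))) (hx : x 0 ≠ 0) :
    dimH (Lines K x) ≤ ⨆ k : ℕ, dimH (Pos (Psi j m '' K) (1 / ((k : ℝ) + 1)) (slope x)) := by
  have hx0 : x ≠ 0 := by
    intro h
    apply hx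
    rw [h]
    simp
  have hxx : ⟪x, x⟫_ℝ ≠ 0 := by
    rw [real_inner_self_eq_norm_sq]
    have := norm_pos_iff.2 hx0
    positivity
  set ψ : Sp j m →ₗ[ℝ] EuclideanSpace ℝ (Fin (j + m + 1)) :=
    { toFun := fun a => Xi j m (0, a) - (⟪Xi j m (0, a), x⟫_ℝ / ⟪x, x⟫_ℝ) • x
      map_add' := by
        intro a a'
        have h1 : ((0 : ℝ), a + a') = ((0 : ℝ), a) + ((0 : ℝ), a') := by simp
        rw [h1, map_add, inner_add_left, add_div, add_smul]
        abel
      map_smul' := by
        intro r a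
        have h1 : ((0 : ℝ), r • a) = r • ((0 : ℝ), a) := by simp
        rw [h1, map_smul, real_inner_smul_left, mul_div_assoc, mul_smul, RingHom.id_apply,
          smul_sub] } with hψ
  have hlip := (LinearMap.toContinuousLinearMap ψ).lipschitz
  have hsub : Lines K x ⊆ ψ '' ⋃ k : ℕ, Pos (Psi j m '' K) (1 / ((k : ℝ) + 1)) (slope x) := by
    rintro p ⟨hp, s, t, hst, h⟩
    refine ⟨pos x p, ?_, ?_⟩
    · have h1 := mem_Pos K x p hx s t h
      have h2 : 0 < (t - s) * |x 0| := mul_pos (by linarith) (abs_pos.2 hx)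
      obtain ⟨k, hk⟩ := exists_nat_one_div_lt h2
      exact mem_iUnion.2 ⟨k, Pos_mono _ hk.le _ h1⟩
    · have h1 : Xi j m (0, pos x p) = p - (p 0 / x 0) • x := by
        have h2 : ((0 : ℝ), pos x p) = Psi j m (p - (p 0 / x 0) • x) := by
          have h3 := Psi_pos x p hx (-(p 0 / x 0))
          have h4 : p 0 + -(p 0 / x 0) * x 0 = 0 := by field_simp; ring
          rw [h4, zero_smul, add_zero, neg_smul, ← sub_eq_add_neg] at h3
          exact h3.symm
        rw [h2, Xi_Psi]
      simp only [hψ, LinearMap.coe_mk, AddHom.coe_mk]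
      rw [h1, inner_sub_left, hp, real_inner_smul_left, zero_sub, neg_div, mul_div_assoc,
        div_self hxx, mul_one, neg_smul]
      abel
  calc dimH (Lines K x) ≤ dimH (ψ '' ⋃ k : ℕ, Pos (Psi j m '' K) (1 / ((k : ℝ) + 1)) (slope x)) :=
        dimH_mono hsub
    _ ≤ dimH (⋃ k : ℕ, Pos (Psi j m '' K) (1 / ((k : ℝ) + 1)) (slope x)) :=
        hlip.dimH_image_le _
    _ = _ := dimH_iUnion _

instance haar_Sp : (volume : Measure (Sp j m)).IsAddHaarMeasure :=
  Measure.prod.instIsAddHaarMeasure (volume : Measure (Fin j → ℝ)) (volume : Measure (Fin m → ℝ))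

instance haar_RSp : (volume : Measure (ℝ × Sp j m)).IsAddHaarMeasure :=
  Measure.prod.instIsAddHaarMeasure (volume : Measure ℝ) (volume : Measure (Sp j m))

/-- null sets of slopes -/
theorem null_slopes (S : Set (Sp j m)) (hS : volume S = 0) :
    volume {x : EuclideanSpace ℝ (Fin (j + m + 1)) | x 0 ≠ 0 ∧ slope x ∈ S} = 0 := by
  set N := toMeasurable volume S with hN
  have hNm : MeasurableSet N := measurableSet_toMeasurable _ _
  have hN0 : volume N = 0 := by rw [hN, measure_toMeasurable, hS]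
  set A : Set (ℝ × Sp j m) := {y | y.1 ≠ 0 ∧ (y.1)⁻¹ • y.2 ∈ N} with hA
  have hAm : MeasurableSet A := by
    refine MeasurableSet.inter ?_ ?_
    · exact (measurable_fst (measurableSet_singleton (0 : ℝ))).compl
    · exact (measurable_fst.inv.smul measurable_snd) hNm
  have hA0 : volume A = 0 := by
    rw [Measure.volume_eq_prod, Measure.measure_prod_null hAm]
    refine Eventually.of_forall fun t => ?_
    by_cases ht : t = 0
    · have : Prod.mk t ⁻¹' A = ∅ := by
        rw [eq_empty_iff_forall_notMem]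
        rintro y ⟨h1, -⟩
        exact h1 ht
      simp only [this, measure_empty, Pi.zero_apply]
    · have : Prod.mk t ⁻¹' A ⊆ (fun y : Sp j m => t⁻¹ • y) ⁻¹' N := by
        rintro y ⟨-, h2⟩
        exact h2
      refine measure_mono_null this ?_
      rw [Measure.addHaar_preimage_smul _ (inv_ne_zero ht), hN0, mul_zero]
  have hsurj : Function.Surjective (Psi j m) := fun y => ⟨Xi j m y, Psi_Xi y⟩
  have h1 : ∀ᵐ y : ℝ × Sp j m, y ∈ Aᶜ := by
    rw [ae_iff]
    simpa using hA0
  have h2 := (ae_comp_linearMap_mem_iff (Psi j m) volume volume hsurj hAm.compl).2 h1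
  rw [ae_iff] at h2
  refine measure_mono_null ?_ h2
  rintro x ⟨hx1, hx2⟩
  simp only [mem_ofPred_eq, mem_compl_iff, not_not]
  exact ⟨hx1, subset_toMeasurable _ _ hx2⟩

theorem null_zero : volume {x : EuclideanSpace ℝ (Fin (j + m + 1)) | x 0 = 0} = 0 := by
  have hsurj : Function.Surjective (Psi j m) := fun y => ⟨Xi j m y, Psi_Xi y⟩
  have hAm : MeasurableSet {y : ℝ × Sp j m | y.1 = 0} :=
    measurable_fst (measurableSet_singleton (0 : ℝ))
  have h1 : ∀ᵐ y : ℝ × Sp j m, y ∈ {y : ℝ × Sp j m | y.1 = 0}ᶜ := by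
    rw [ae_iff]
    have h2 : {a : ℝ × Sp j m | ¬ a ∈ {y : ℝ × Sp j m | y.1 = 0}ᶜ} = {(0 : ℝ)} ×ˢ univ := by
      ext ⟨t, y⟩
      simp
    rw [h2, Measure.volume_eq_prod, Measure.prod_prod]
    simp
  have h2 := (ae_comp_linearMap_mem_iff (Psi j m) volume volume hsurj hAm.compl).2 h1
  rw [ae_iff] at h2
  refine measure_mono_null ?_ h2
  intro x hx
  simp only [mem_ofPred_eq, mem_compl_iff, not_not]
  exact hx

/-- **Sets with many parallel segments.** -/
theorem main (hm : 1 ≤ m) (β : ℝ≥0∞) (hβ : 0 < β) (hSB : SlopeBound m β)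
    (K : Set (EuclideanSpace ℝ (Fin (j + m + 1)))) (hK : IsCompact K)
    (h : volume {x | (j : ℝ≥0∞) < dimH (Lines K x) ∨ HasPlate j K x} ≠ 0) :
    (j : ℝ≥0∞) + β ≤ dimH K := by
  have hPsiLip := (LinearMap.toContinuousLinearMap (Psi j m)).lipschitz
  have hE : IsCompact (Psi j m '' K) :=
    hK.image (LinearMap.toContinuousLinearMap (Psi j m)).continuous
  have hdim : dimH (Psi j m '' K) ≤ dimH K := hPsiLip.dimH_image_le K
  refine le_trans ?_ hdim
  set S : ℕ → Set (Sp j m) := fun k => {v : Sp j m |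
    ∀ᵐ B ∂(volume.restrict (Icc (0 : Fin j → Fin m → ℝ) 1)),
      volume (UB B '' Pos (Psi j m '' K) (1 / ((k : ℝ) + 1)) v) ≠ 0} with hS
  by_contra hcon
  have hnull : ∀ k, volume (S k) = 0 := by
    intro k
    by_contra h1
    exact hcon (slope_main β hβ hSB _ hE (1 / ((k : ℝ) + 1)) (by positivity) h1)
  apply h
  have hsub : {x | (j : ℝ≥0∞) < dimH (Lines K x) ∨ HasPlate j K x} ⊆
      {x | x 0 = 0} ∪ ⋃ k, {x : EuclideanSpace ℝ (Fin (j + m + 1)) | x 0 ≠ 0 ∧ slope x ∈ S k} := by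
    intro x hx
    by_cases hx0 : x 0 = 0
    · exact Or.inl hx0
    right
    rcases hx with hx | hx
    · have h1 := lt_of_lt_of_le hx (dimH_Lines_le K x hx0)
      obtain ⟨k, hk⟩ := lt_iSup_iff.1 h1
      refine mem_iUnion.2 ⟨k, hx0, ?_⟩
      exact proj_pos hm _ (isCompact_Pos _ hE _ (by positivity) _) hk
    · obtain ⟨b, w, hli, hbw⟩ := hx
      obtain ⟨k, hk⟩ := exists_nat_one_div_lt (abs_pos.2 hx0)
      refine mem_iUnion.2 ⟨k, hx0, ?_⟩
      -- the linear map
      set W : (Fin j → ℝ) →ₗ[ℝ] EuclideanSpace ℝ (Fin (j + m + 1)) :=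
        Fintype.linearCombination ℝ w with hW
      have hWs : ∀ s, W s = ∑ i, s i • w i := fun s => rfl
      set Ω : (Fin j → ℝ) →ₗ[ℝ] Sp j m :=
        { toFun := fun s => pos x (W s)
          map_add' := by
            intro s s'
            simp only [pos, map_add, Prod.snd_add, PiLp.add_apply, add_smul]
            abel
          map_smul' := by
            intro r s
            simp only [pos, map_smul, Prod.smul_snd, PiLp.smul_apply, smul_eq_mul,
              RingHom.id_apply, smul_sub, mul_smul] } with hΩ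
      have hinj : Function.Injective Ω := by
        rw [← LinearMap.ker_eq_bot, LinearMap.ker_eq_bot']
        intro s hs
        have h1 : pos x (W s) = 0 := hs
        have h2 : W s = ((W s) 0 / x 0) • x := by
          have h3 := Psi_pos x (W s) hx0 (-((W s) 0 / x 0))
          have h4 : (W s) 0 + -((W s) 0 / x 0) * x 0 = 0 := by field_simp; ring
          rw [h4, h1, zero_smul, add_zero] at h3
          have h5 : W s + -((W s) 0 / x 0) • x = 0 := by
            rw [← Xi_Psi (W s + -((W s) 0 / x 0) • x), h3]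
            exact map_zero (Xi j m)
          rw [neg_smul, ← sub_eq_add_neg, sub_eq_zero] at h5
          exact h5
        have h6 : (-((W s) 0 / x 0)) • x + ∑ i, s i • w i = 0 := by
          rw [← hWs, neg_smul, neg_add_eq_zero]
          exact h2.symm
        have h7 := Fintype.linearIndependent_iff.1 hli
          (Fin.cons (-((W s) 0 / x 0)) s : Fin (j + 1) → ℝ) (by
            rw [Fin.sum_univ_succ]
            simpa using h6)
        funext i
        have := h7 i.succ
        simpa using this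
      refine proj_plate hm Ω hinj (pos x b) _ ?_
      intro s hs
      have h1 : pos x b + Ω s = pos x (b + W s) := by
        simp only [hΩ, LinearMap.coe_mk, AddHom.coe_mk, pos, map_add, Prod.snd_add,
          PiLp.add_apply, add_smul]
        abel
      rw [h1]
      have h2 := mem_Pos K x (b + W s) hx0 0 1 (fun r hr => by
        rw [hWs]
        exact hbw s hs r hr)
      refine Pos_mono _ ?_ _ h2
      rw [sub_zero, one_mul]
      exact hk.le
  refine measure_mono_null hsub (measure_union_null null_zero (measure_iUnion_null fun k => ?_))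
  exact null_slopes _ (hnull k)

end Pool.Agent.H224.MPS
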