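import Mathlib

/-!
# The measure of the linear maps which nearly annihilate a vector
-/

set_option autoImplicit false

open MeasureTheory Set Filter Topology
open scoped ENNReal NNReal

namespace Pool.Agent.H224.MPS

/-- one variable -/
theorem vol_line (a w r : ℝ) (hw : w ≠ 0) :
    volume {x : ℝ | |a + x * w| ≤ r} ≤ ENNReal.ofReal (2 * r / |w|) := by
  have h1 : {x : ℝ | |a + x * w| ≤ r} ⊆ Metric.closedBall (-a / w) (r / |w|) := by
    intro x hx
    rw [Metric.mem_closedBall, Real.dist_eq]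
    have h2 : x - -a / w = (a + x * w) / w := by field_simp; ring
    rw [h2, abs_div]
    exact div_le_div_of_nonneg_right hx (abs_nonneg w)
  refine (measure_mono h1).trans ?_
  rw [Real.volume_closedBall]
  apply ENNReal.ofReal_le_ofReal
  rw [mul_div_assoc]

/-- one row -/
theorem vol_row {m : ℕ} (a : ℝ) (w : Fin m → ℝ) (r : ℝ) (hw : w ≠ 0) :
    volume {b : Fin m → ℝ | b ∈ Icc (0 : Fin m → ℝ) 1 ∧ |a + ∑ q, b q * w q| ≤ r} ≤
      ENNReal.ofReal (2 * r / ‖w‖) := by
  obtain ⟨m', rfl⟩ : ∃ m', m = m' + 1 := by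
    rcases m with _ | m'
    · exact absurd (Subsingleton.elim w 0) hw
    · exact ⟨m', rfl⟩
  obtain ⟨q, hq⟩ : ∃ q, ‖w q‖ = ‖w‖ := by
    obtain ⟨q, -, hq⟩ := Finset.exists_max_image (Finset.univ : Finset (Fin (m' + 1)))
      (fun q => ‖w q‖) Finset.univ_nonempty
    refine ⟨q, le_antisymm (norm_le_pi_norm w q) ?_⟩
    exact (pi_norm_le_iff_of_nonneg (norm_nonneg _)).2 fun i => hq i (Finset.mem_univ _)
  have hq0 : w q ≠ 0 := by
    intro h
    rw [h, norm_zero] at hq
    exact hw (norm_eq_zero.1 hq.symm)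
  set S : Set (Fin (m' + 1) → ℝ) := {b | b ∈ Icc (0 : Fin (m' + 1) → ℝ) 1 ∧
    |a + ∑ q, b q * w q| ≤ r} with hS
  set e := MeasurableEquiv.piFinSuccAbove (fun _ : Fin (m' + 1) => ℝ) q with he
  have hmp : MeasurePreserving e.symm := (volume_preserving_piFinSuccAbove (fun _ => ℝ) q).symm
  have h1 : volume S = volume (e.symm ⁻¹' S) := (hmp.measure_preimage_equiv S).symm
  have hSm : MeasurableSet S := by
    have h0 : Measurable fun b : Fin (m' + 1) → ℝ => |a + ∑ q, b q * w q| := by fun_prop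
    exact MeasurableSet.inter measurableSet_Icc (measurableSet_le h0 measurable_const)
  rw [h1, Measure.volume_eq_prod, Measure.prod_apply_symm (e.symm.measurable hSm)]
  have h2 : ∀ y : Fin m' → ℝ, volume ((fun x => (x, y)) ⁻¹' (e.symm ⁻¹' S)) ≤
      (Icc (0 : Fin m' → ℝ) 1).indicator (fun _ => ENNReal.ofReal (2 * r / ‖w‖)) y := by
    intro y
    by_cases hy : y ∈ Icc (0 : Fin m' → ℝ) 1
    · rw [indicator_of_mem hy]
      have h3 : ((fun x => (x, y)) ⁻¹' (e.symm ⁻¹' S)) ⊆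
          {x : ℝ | |(a + ∑ p, y p * w (q.succAbove p)) + x * w q| ≤ r} := by
        intro x hx
        have h4 : |a + ∑ i, (e.symm (x, y)) i * w i| ≤ r := hx.2
        have h5 : ∑ i, (e.symm (x, y)) i * w i = x * w q + ∑ p, y p * w (q.succAbove p) := by
          rw [Fin.sum_univ_succAbove _ q]
          simp [he]
        rw [h5] at h4
        have h6 : a + (x * w q + ∑ p, y p * w (q.succAbove p)) =
          (a + ∑ p, y p * w (q.succAbove p)) + x * w q := by ring
        rw [h6] at h4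
        exact h4
      refine (measure_mono h3).trans ((vol_line _ _ _ hq0).trans (le_of_eq ?_))
      rw [← hq, Real.norm_eq_abs]
    · rw [indicator_of_notMem hy]
      have h3 : ((fun x => (x, y)) ⁻¹' (e.symm ⁻¹' S)) = ∅ := by
        rw [eq_empty_iff_forall_notMem]
        intro x hx
        apply hy
        have h4 := hx.1
        constructor
        · intro p
          have := h4.1 (q.succAbove p)
          simpa [he] using this
        · intro p
          have := h4.2 (q.succAbove p)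
          simpa [he] using this
      rw [h3, measure_empty]
  refine (lintegral_mono h2).trans ?_
  rw [lintegral_indicator_const measurableSet_Icc]
  have h3 : volume (Icc (0 : Fin m' → ℝ) 1) = 1 := by
    rw [Real.volume_Icc_pi]
    simp
  rw [h3, mul_one]

/-- the linear map `x ↦ x₁ + B x₂` -/
def UB {j m : ℕ} (B : Fin j → Fin m → ℝ) (z : (Fin j → ℝ) × (Fin m → ℝ)) : Fin j → ℝ :=
  fun i => z.1 i + ∑ q, B i q * z.2 q

theorem UB_sub {j m : ℕ} (B : Fin j → Fin m → ℝ) (z z' : (Fin j → ℝ) × (Fin m → ℝ)) :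
    UB B z - UB B z' = UB B (z - z') := by
  funext i
  simp only [UB, Pi.sub_apply, Prod.fst_sub, Prod.snd_sub, mul_sub, Finset.sum_sub_distrib]
  ring

theorem continuous_UB {j m : ℕ} :
    Continuous fun x : (Fin j → Fin m → ℝ) × ((Fin j → ℝ) × (Fin m → ℝ)) => UB x.1 x.2 := by
  unfold UB
  fun_prop

/-- all rows -/
theorem vol_rows {j m : ℕ} (hm : 1 ≤ m) (z : (Fin j → ℝ) × (Fin m → ℝ)) (hz : z ≠ 0) (r : ℝ)
    (hr : 0 ≤ r) :
    volume {B : Fin j → Fin m → ℝ | B ∈ Icc (0 : Fin j → Fin m → ℝ) 1 ∧ ‖UB B z‖ ≤ r} ≤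
      ENNReal.ofReal ((4 * m * r / ‖z‖) ^ j) := by
  have hz0 : 0 < ‖z‖ := norm_pos_iff.2 hz
  have hm1 : (1 : ℝ) ≤ m := by exact_mod_cast hm
  have hone : volume (Icc (0 : Fin j → Fin m → ℝ) 1) = 1 := by
    have h1 : Icc (0 : Fin j → Fin m → ℝ) 1 = Set.pi univ fun _ : Fin j => Icc (0 : Fin m → ℝ) 1 := by
      ext B
      simp only [mem_Icc, Pi.le_def, Set.mem_pi, mem_univ, true_implies]
      exact ⟨fun h i => ⟨h.1 i, h.2 i⟩, fun h => ⟨fun i => (h i).1, fun i => (h i).2⟩⟩
    rw [h1, volume_pi_pi]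
    simp [Real.volume_Icc_pi]
  by_cases hbig : ‖z‖ < 2 * r
  · refine (measure_mono (fun B hB => hB.1)).trans ?_
    rw [hone, ← ENNReal.ofReal_one]
    apply ENNReal.ofReal_le_ofReal
    apply one_le_pow₀
    rw [le_div_iff₀ hz0]
    nlinarith
  rw [not_lt] at hbig
  by_cases hz2 : ‖z‖ ≤ r + m * ‖z.2‖
  swap
  · have h1 : {B : Fin j → Fin m → ℝ | B ∈ Icc (0 : Fin j → Fin m → ℝ) 1 ∧ ‖UB B z‖ ≤ r} = ∅ := by
      rw [eq_empty_iff_forall_notMem]
      rintro B ⟨hB, hU⟩
      apply hz2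
      have hsum : ∀ i, |∑ q, B i q * z.2 q| ≤ m * ‖z.2‖ := by
        intro i
        refine (Finset.abs_sum_le_sum_abs _ _).trans ?_
        refine (Finset.sum_le_card_nsmul _ _ ‖z.2‖ fun q _ => ?_).trans ?_
        · rw [abs_mul]
          have h2 : |B i q| ≤ 1 := by
            rw [abs_le]
            have h3 := hB.1 i q
            have h4 := hB.2 i q
            simp only [Pi.zero_apply, Pi.one_apply] at h3 h4
            constructor <;> linarith
          have h5 : |z.2 q| ≤ ‖z.2‖ := norm_le_pi_norm z.2 q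
          calc |B i q| * |z.2 q| ≤ 1 * ‖z.2‖ := by gcongr
            _ = ‖z.2‖ := one_mul _
        · simp
      rw [Prod.norm_def]
      apply max_le
      · refine (pi_norm_le_iff_of_nonneg (by positivity)).2 fun i => ?_
        have h2 : |UB B z i| ≤ r := (norm_le_pi_norm (UB B z) i).trans hU
        have h3 := hsum i
        have h4 : z.1 i = UB B z i - ∑ q, B i q * z.2 q := by simp [UB]
        rw [Real.norm_eq_abs, h4]
        exact (abs_sub _ _).trans (add_le_add h2 h3)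
      · have : ‖z.2‖ ≤ m * ‖z.2‖ := le_mul_of_one_le_left (norm_nonneg _) hm1
        linarith
    rw [h1, measure_empty]
    exact zero_le
  have hz2' : ‖z‖ / 2 ≤ m * ‖z.2‖ := by linarith
  have hz2pos : 0 < ‖z.2‖ := by
    by_contra h
    have h0 : ‖z.2‖ = 0 := le_antisymm (not_lt.1 h) (norm_nonneg _)
    rw [h0, mul_zero] at hz2'
    linarith
  have hw : z.2 ≠ 0 := norm_pos_iff.1 hz2pos
  have h1 : {B : Fin j → Fin m → ℝ | B ∈ Icc (0 : Fin j → Fin m → ℝ) 1 ∧ ‖UB B z‖ ≤ r} ⊆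
      Set.pi univ fun i : Fin j => {b : Fin m → ℝ | b ∈ Icc (0 : Fin m → ℝ) 1 ∧
        |z.1 i + ∑ q, b q * z.2 q| ≤ r} := by
    rintro B ⟨hB, hU⟩ i -
    exact ⟨⟨hB.1 i, hB.2 i⟩, (norm_le_pi_norm (UB B z) i).trans hU⟩
  refine (measure_mono h1).trans ?_
  rw [volume_pi_pi]
  refine (Finset.prod_le_pow_card _ _ (ENNReal.ofReal (4 * m * r / ‖z‖)) fun i _ => ?_).trans ?_
  · refine (vol_row _ _ _ hw).trans (ENNReal.ofReal_le_ofReal ?_)
    rw [div_le_div_iff₀ hz2pos hz0]
    nlinarith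
  · rw [Finset.card_univ, Fintype.card_fin, ENNReal.ofReal_pow (by positivity)]

end Pool.Agent.H224.MPS
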