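import Pool.Agent.H224.MPS.Frost
import Pool.Agent.H224.MPS.Row

/-!
# Sets of dimension more than `j` have large projections to `ℝ^j`
-/

set_option autoImplicit false

open MeasureTheory Set Filter Topology
open scoped ENNReal NNReal

namespace Pool.Agent.H224.MPS

/-- `ℝ^j × ℝ^m` -/
abbrev Sp (j m : ℕ) := (Fin j → ℝ) × (Fin m → ℝ)

variable {j m : ℕ}

/-- all the coordinates -/
def co (z : Sp j m) : Fin j ⊕ Fin m → ℝ := Sum.elim z.1 z.2

theorem norm_co (z : Sp j m) : ‖co z‖ = ‖z‖ := by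
  apply le_antisymm
  · refine (pi_norm_le_iff_of_nonneg (norm_nonneg _)).2 fun i => ?_
    rcases i with i | i
    · exact (norm_le_pi_norm z.1 i).trans (norm_fst_le z)
    · exact (norm_le_pi_norm z.2 i).trans (norm_snd_le z)
  · rw [Prod.norm_def]
    apply max_le
    · exact (pi_norm_le_iff_of_nonneg (norm_nonneg _)).2 fun i =>
        norm_le_pi_norm (co z) (Sum.inl i)
    · exact (pi_norm_le_iff_of_nonneg (norm_nonneg _)).2 fun i =>
        norm_le_pi_norm (co z) (Sum.inr i)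

theorem co_sub (z z' : Sp j m) : co (z - z') = co z - co z' := by
  funext i
  rcases i with i | i <;> simp [co]

/-- index of the cell of side `2 ^ (-k)` -/
noncomputable def ci (k : ℕ) (z : Sp j m) : Fin j ⊕ Fin m → ℤ := fun i => ⌊(2 : ℝ) ^ k * co z i⌋

theorem ediam_dyad (k : ℕ) (c : ℕ × (Fin j ⊕ Fin m → ℤ)) :
    Metric.ediam {z : Sp j m | ci k z ∈ dyad c} ≤ ENNReal.ofReal ((2 : ℝ) ^ c.1 / 2 ^ k) := by
  refine Metric.ediam_le fun z hz z' hz' => ?_
  rw [edist_dist]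
  apply ENNReal.ofReal_le_ofReal
  rw [dist_eq_norm, ← norm_co, co_sub]
  refine (pi_norm_le_iff_of_nonneg (by positivity)).2 fun i => ?_
  have h2 : (0 : ℝ) < 2 ^ k := by positivity
  have key : ∀ w : Sp j m, ci k w ∈ dyad c → ((c.2 i : ℝ) * 2 ^ c.1 ≤ 2 ^ k * co w i ∧
      2 ^ k * co w i < ((c.2 i : ℝ) + 1) * 2 ^ c.1) := by
    intro w hw
    obtain ⟨h3, h4⟩ := hw i
    constructor
    · have h5 : ((c.2 i * 2 ^ c.1 : ℤ) : ℝ) ≤ (2 : ℝ) ^ k * co w i := Int.le_floor.1 h3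
      push_cast at h5
      exact h5
    · have h5 : (2 : ℝ) ^ k * co w i < (((c.2 i + 1) * 2 ^ c.1 : ℤ) : ℝ) := Int.floor_lt.1 h4
      push_cast at h5
      exact h5
  obtain ⟨h3, h4⟩ := key z hz
  obtain ⟨h5, h6⟩ := key z' hz'
  rw [Real.norm_eq_abs, Pi.sub_apply, le_div_iff₀ h2]
  have h7 : |co z i - co z' i| * 2 ^ k = |2 ^ k * co z i - 2 ^ k * co z' i| := by
    rw [← mul_sub, abs_mul, abs_of_pos h2, mul_comm]
  rw [h7, abs_le]
  constructor <;> nlinarith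

/-- the cost of a cube of side `2 ^ l` (in units of `2 ^ (-k)`) -/
noncomputable def cap (k : ℕ) (s : ℝ) (l : ℕ) : ℝ := ((2 : ℝ) ^ l / 2 ^ k) ^ s

theorem cap_nonneg (k : ℕ) (s : ℝ) (l : ℕ) : 0 ≤ cap k s l := by unfold cap; positivity

/-- Covers of a set of positive measure have a positive cost. -/
theorem cover_pos (A : Set (Sp j m)) (s : ℝ) (hs : 0 < s)
    (hA : Measure.hausdorffMeasure s A ≠ 0) :
    ∃ κ : ℝ, 0 < κ ∧ ∀ (k : ℕ) (C : Finset (ℕ × (Fin j ⊕ Fin m → ℤ))),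
      (∀ z ∈ A, ∃ c ∈ C, ci k z ∈ dyad c) → κ ≤ ∑ c ∈ C, cap k s c.1 := by
  by_contra hcon
  push Not at hcon
  have hn : ∀ n : ℕ, ∃ (k : ℕ) (C : Finset (ℕ × (Fin j ⊕ Fin m → ℤ))),
      (∀ z ∈ A, ∃ c ∈ C, ci k z ∈ dyad c) ∧ ∑ c ∈ C, cap k s c.1 < 1 / ((n : ℝ) + 1) :=
    fun n => hcon _ (by positivity)
  choose k C hC1 hC2 using hn
  have hlim : Tendsto (fun n : ℕ => 1 / ((n : ℝ) + 1)) atTop (𝓝 0) :=
    tendsto_one_div_add_atTop_nhds_zero_nat
  have hr : Tendsto (fun n : ℕ => ENNReal.ofReal ((1 / ((n : ℝ) + 1)) ^ (1 / s))) atTop (𝓝 0) := by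
    have h1 : Tendsto (fun n : ℕ => (1 / ((n : ℝ) + 1)) ^ (1 / s)) atTop (𝓝 ((0 : ℝ) ^ (1 / s))) :=
      hlim.rpow_const (Or.inr (by positivity))
    rw [Real.zero_rpow (by positivity)] at h1
    have h2 := ENNReal.tendsto_ofReal h1
    rwa [ENNReal.ofReal_zero] at h2
  have hterm : ∀ n, ∀ c ∈ C n, cap (k n) s c.1 ≤ 1 / ((n : ℝ) + 1) := fun n c hc =>
    (Finset.single_le_sum (f := fun c => cap (k n) s c.1) (fun c _ => cap_nonneg _ _ _) hc).trans
      (hC2 n).le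
  have key := Measure.hausdorffMeasure_le_liminf_tsum (X := Sp j m) (ι := fun n => C n)
    (l := atTop) s A _ hr (fun n c => {z : Sp j m | ci (k n) z ∈ dyad c.1})
    (Eventually.of_forall fun n c => by
      refine (ediam_dyad _ _).trans (ENNReal.ofReal_le_ofReal ?_)
      have h1 := hterm n c.1 c.2
      have h2 : ((2 : ℝ) ^ c.1.1 / 2 ^ k n) = (cap (k n) s c.1.1) ^ (1 / s) := by
        unfold cap
        rw [← Real.rpow_mul (by positivity), mul_one_div_cancel hs.ne', Real.rpow_one]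
      rw [h2]
      exact Real.rpow_le_rpow (cap_nonneg _ _ _) h1 (by positivity))
    (Eventually.of_forall fun n z hz => by
      obtain ⟨c, hc, h⟩ := hC1 n z hz
      exact mem_iUnion.2 ⟨⟨c, hc⟩, h⟩)
  apply hA
  refine le_antisymm (key.trans ?_) zero_le
  have hle : ∀ n, ∑' c : C n, Metric.ediam {z : Sp j m | ci (k n) z ∈ dyad c.1} ^ s ≤
      ENNReal.ofReal (1 / ((n : ℝ) + 1)) := by
    intro n
    rw [tsum_fintype]
    have h1 : ∑ c : C n, Metric.ediam {z : Sp j m | ci (k n) z ∈ dyad c.1} ^ s ≤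
        ∑ c : C n, ENNReal.ofReal (cap (k n) s c.1.1) := by
      refine Finset.sum_le_sum fun c _ => ?_
      unfold cap
      rw [← ENNReal.ofReal_rpow_of_nonneg (by positivity) hs.le]
      exact ENNReal.rpow_le_rpow (ediam_dyad _ _) hs.le
    refine h1.trans ?_
    rw [← ENNReal.ofReal_sum_of_nonneg fun c _ => cap_nonneg _ _ _]
    apply ENNReal.ofReal_le_ofReal
    rw [Finset.sum_coe_sort (C n) (fun c => cap (k n) s c.1)]
    exact (hC2 n).le
  have h0 : Tendsto (fun n : ℕ => ENNReal.ofReal (1 / ((n : ℝ) + 1))) atTop (𝓝 0) := by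
    have := ENNReal.tendsto_ofReal hlim
    rwa [ENNReal.ofReal_zero] at this
  have h1 : Tendsto (fun n => ∑' c : C n, Metric.ediam {z : Sp j m | ci (k n) z ∈ dyad c.1} ^ s)
      atTop (𝓝 0) :=
    tendsto_of_tendsto_of_tendsto_of_le_of_le tendsto_const_nhds h0 (fun _ => zero_le) hle
  rw [h1.liminf_eq]

/-- Cauchy-Schwarz -/
theorem cs {α β : Type*} [DecidableEq β] (F : Finset α) (g : α → β) (ν : α → ℝ) :
    (∑ y ∈ F, ν y) ^ 2 ≤ ((F.image g).card : ℝ) *
      ∑ y ∈ F, ∑ y' ∈ F, (if g y = g y' then ν y * ν y' else 0) := by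
  have h1 : ∑ y ∈ F, ν y = ∑ c ∈ F.image g, ∑ y ∈ F with g y = c, ν y :=
    (Finset.sum_fiberwise_of_maps_to (fun y hy => Finset.mem_image_of_mem g hy) _).symm
  have h2 : ∑ y ∈ F, ∑ y' ∈ F, (if g y = g y' then ν y * ν y' else 0) =
      ∑ c ∈ F.image g, (∑ y ∈ F with g y = c, ν y) ^ 2 := by
    rw [← Finset.sum_fiberwise_of_maps_to (fun y hy => Finset.mem_image_of_mem g hy)]
    refine Finset.sum_congr rfl fun c _ => ?_
    rw [sq, Finset.sum_mul_sum]
    refine Finset.sum_congr rfl fun y hy => ?_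
    rw [Finset.mem_filter] at hy
    rw [Finset.sum_filter]
    refine Finset.sum_congr rfl fun y' _ => ?_
    rw [hy.2]
    by_cases h : g y' = c
    · rw [if_pos h, if_pos h.symm]
    · rw [if_neg h, if_neg (fun h' => h h'.symm)]
  rw [h1, h2]
  exact sq_sum_le_card_mul_sum_sq

/-- The neighbourhood of the projection contains many cells. -/
theorem vol_cells (k : ℕ) (P : Set (Fin j → ℝ)) (G : Finset (Fin j → ℤ))
    (hG : ∀ c ∈ G, ∃ x ∈ P, ∀ i, ⌊(2 : ℝ) ^ k * x i⌋ = c i) :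
    (G.card : ℝ≥0∞) * ENNReal.ofReal (((2 : ℝ) ^ k)⁻¹ ^ j) ≤
      volume (Metric.cthickening ((2 : ℝ) ^ k)⁻¹ P) := by
  have h2 : (0 : ℝ) < 2 ^ k := by positivity
  set Q : (Fin j → ℤ) → Set (Fin j → ℝ) := fun c =>
    Set.pi univ fun i => Ico ((c i : ℝ) / 2 ^ k) (((c i : ℝ) + 1) / 2 ^ k) with hQ
  have hQm : ∀ c, MeasurableSet (Q c) := fun c =>
    MeasurableSet.univ_pi fun i => measurableSet_Ico
  have hmem : ∀ c x, x ∈ Q c ↔ ∀ i, ⌊(2 : ℝ) ^ k * x i⌋ = c i := by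
    intro c x
    simp only [hQ, Set.mem_pi, mem_univ, true_implies, mem_Ico]
    refine forall_congr' fun i => ?_
    rw [Int.floor_eq_iff, div_le_iff₀ h2, lt_div_iff₀ h2, mul_comm (x i)]
  have hvol : ∀ c, volume (Q c) = ENNReal.ofReal (((2 : ℝ) ^ k)⁻¹ ^ j) := by
    intro c
    simp only [hQ]
    rw [volume_pi_pi]
    have h3 : ∀ i : Fin j, volume (Ico ((c i : ℝ) / 2 ^ k) (((c i : ℝ) + 1) / 2 ^ k)) =
        ENNReal.ofReal ((2 : ℝ) ^ k)⁻¹ := by
      intro i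
      rw [Real.volume_Ico]
      congr 1
      field_simp
      ring
    rw [Finset.prod_congr rfl fun i _ => h3 i, Finset.prod_const, Finset.card_univ,
      Fintype.card_fin, ENNReal.ofReal_pow (by positivity)]
  have hdisj : (G : Set (Fin j → ℤ)).PairwiseDisjoint Q := by
    intro c _ c' _ hcc
    rw [Function.onFun, Set.disjoint_left]
    intro x hx hx'
    apply hcc
    funext i
    rw [← (hmem c x).1 hx i, (hmem c' x).1 hx' i]
  have hsub : (⋃ c ∈ G, Q c) ⊆ Metric.cthickening ((2 : ℝ) ^ k)⁻¹ P := by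
    intro x hx
    obtain ⟨c, hc, hxc⟩ := mem_iUnion₂.1 hx
    obtain ⟨p, hp, hpc⟩ := hG c hc
    refine Metric.mem_cthickening_of_dist_le x p _ P hp ?_
    refine (dist_pi_le_iff (by positivity)).2 fun i => ?_
    have h3 := (hmem c x).1 hxc i
    rw [← hpc i] at h3
    have h4 := Int.abs_sub_lt_one_of_floor_eq_floor h3
    rw [← mul_sub, abs_mul, abs_of_pos h2] at h4
    rw [Real.dist_eq, ← one_div, le_div_iff₀ h2, mul_comm]
    exact h4.le
  refine le_trans (le_of_eq ?_) (measure_mono hsub)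
  rw [measure_biUnion_finset hdisj fun c _ => hQm c, Finset.sum_congr rfl fun c _ => hvol c,
    Finset.sum_const, nsmul_eq_mul]

end Pool.Agent.H224.MPS
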