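import Pool.Agent.H224.MPS.Thin

/-!
# The thin set
-/

set_option autoImplicit false

open MeasureTheory Set Filter Topology
open scoped ENNReal NNReal Classical

namespace Pool.Agent.H224.MPS

variable {m : ℕ}

/-- the scales: `al i = 2 ^ i - 1` -/
def al : ℕ → ℕ
  | 0 => 0
  | i + 1 => al i + 2 ^ i

theorem al_succ (i : ℕ) : al (i + 1) = al i + 2 ^ i := rfl

theorem al_eq (i : ℕ) : al i + 1 = 2 ^ i := by
  induction i with
  | zero => rfl
  | succ i ih => rw [al_succ, pow_succ]; omega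

theorem al_ge (i k : ℕ) : al i + k ≤ al (i + k) := by
  induction k with
  | zero => simp
  | succ k ih =>
    have h1 : al (i + (k + 1)) = al (i + k) + 2 ^ (i + k) := al_succ (i + k)
    have h2 : 0 < 2 ^ (i + k) := by positivity
    omega

/-- the densities -/
noncomputable def tau (τ : ℝ) (i : ℕ) : ℝ := τ / 2 * (1 + (1 / 2) ^ i)

theorem tau_sub (τ : ℝ) (i : ℕ) : tau τ i - tau τ (i + 1) = τ / 4 * (1 / 2) ^ i := by
  unfold tau
  rw [pow_succ]
  ring

/-- the growth of the number of translations -/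
theorem growth (C : ℝ) (hC : 1 ≤ C) (ε : ℝ) (hε : 0 < ε) (N : ℕ → ℝ) (_h0 : N 0 ≤ 1)
    (hN0 : ∀ i, 0 ≤ N i) (hN : ∀ i, N (i + 1) ≤ N i * (C * 4 ^ i)) :
    ∃ K : ℝ, 0 < K ∧ ∀ i, N (i + 1) ≤ K * 2 ^ (ε * al i) := by
  have hc : (1 : ℝ) < 2 ^ ε := Real.one_lt_rpow (by norm_num) hε
  have hlim : Tendsto (fun i : ℕ => ((2 ^ i : ℕ) : ℝ) ^ 2 / (2 ^ ε : ℝ) ^ (2 ^ i : ℕ)) atTop (𝓝 0) :=
    (tendsto_pow_const_div_const_pow_of_one_lt 2 hc).comp
      (tendsto_pow_atTop_atTop_of_one_lt (by norm_num : (1 : ℕ) < 2))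
  have hev : ∀ᶠ i : ℕ in atTop, ((2 ^ i : ℕ) : ℝ) ^ 2 / (2 ^ ε : ℝ) ^ (2 ^ i : ℕ) < 1 / (4 * C) :=
    hlim.eventually (gt_mem_nhds (by positivity))
  obtain ⟨i0, hi0⟩ := eventually_atTop.1 hev
  have hstep : ∀ i, i0 ≤ i → C * 4 ^ (i + 1) ≤ 2 ^ (ε * (2 ^ i : ℕ)) := by
    intro i hi
    have h1 := hi0 i hi
    rw [div_lt_div_iff₀ (by positivity) (by positivity), one_mul] at h1
    have h2 : (2 : ℝ) ^ (ε * ((2 ^ i : ℕ) : ℝ)) = (2 ^ ε : ℝ) ^ (2 ^ i : ℕ) := by
      rw [Real.rpow_mul (by norm_num), Real.rpow_natCast]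
    rw [h2]
    have h3 : (4 : ℝ) ^ (i + 1) = ((2 ^ i : ℕ) : ℝ) ^ 2 * 4 := by
      push_cast
      rw [pow_succ, ← pow_mul, mul_comm i 2, pow_mul]
      norm_num
    rw [h3]
    calc C * (((2 ^ i : ℕ) : ℝ) ^ 2 * 4) = ((2 ^ i : ℕ) : ℝ) ^ 2 * (4 * C) := by ring
      _ ≤ _ := h1.le
  -- the constant
  set K : ℝ := 1 + ∑ i ∈ Finset.range (i0 + 1), N (i + 1) with hK
  have hK0 : 0 < K := by
    have : 0 ≤ ∑ i ∈ Finset.range (i0 + 1), N (i + 1) := Finset.sum_nonneg fun i _ => hN0 _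
    linarith
  refine ⟨K, hK0, ?_⟩
  have hsmall : ∀ i, i ≤ i0 → N (i + 1) ≤ K * 2 ^ (ε * al i) := by
    intro i hi
    have h1 : N (i + 1) ≤ ∑ i ∈ Finset.range (i0 + 1), N (i + 1) :=
      Finset.single_le_sum (f := fun i => N (i + 1)) (fun i _ => hN0 _)
        (Finset.mem_range.2 (Nat.lt_succ_iff.2 hi))
    have h2 : (1 : ℝ) ≤ 2 ^ (ε * al i) := Real.one_le_rpow (by norm_num) (by positivity)
    calc N (i + 1) ≤ K := by linarith
      _ = K * 1 := (mul_one _).symm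
      _ ≤ _ := by gcongr
  intro i
  by_cases hi : i ≤ i0
  · exact hsmall i hi
  push Not at hi
  obtain ⟨k, rfl⟩ := Nat.exists_eq_add_of_le hi.le
  clear hi
  induction k with
  | zero => exact hsmall i0 le_rfl
  | succ k ih =>
    have h1 := hN (i0 + k + 1)
    have h2 : N (i0 + (k + 1) + 1) ≤ N (i0 + k + 1) * (C * 4 ^ (i0 + k + 1)) := h1
    refine h2.trans ?_
    have h3 := hstep (i0 + k) (by omega)
    have h4 : (2 : ℝ) ^ (ε * al (i0 + (k + 1))) =
        2 ^ (ε * al (i0 + k)) * 2 ^ (ε * (2 ^ (i0 + k) : ℕ)) := by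
      rw [← Real.rpow_add (by norm_num)]
      congr 1
      have : al (i0 + (k + 1)) = al (i0 + k) + 2 ^ (i0 + k) := al_succ (i0 + k)
      rw [this]
      push_cast
      ring
    have h5 : (0 : ℝ) ≤ C * 4 ^ (i0 + k + 1) := by positivity
    calc N (i0 + k + 1) * (C * 4 ^ (i0 + k + 1))
        ≤ (K * 2 ^ (ε * al (i0 + k))) * 2 ^ (ε * (2 ^ (i0 + k) : ℕ)) :=
          mul_le_mul ih h3 h5 (by positivity)
      _ = K * 2 ^ (ε * al (i0 + (k + 1))) := by rw [h4, mul_assoc]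

/-- **The thin set**: a set of positive measure and a thin set whose sum has interior points -/
theorem exists_thin (V : Set (Fin m → ℝ)) (hV : IsClosed V) (hpos : volume V ≠ 0) :
    ∃ W : Set (Fin m → ℝ), IsCompact W ∧ Thin W ∧ ∃ q0 : Fin m → ℤ,
      ∀ z : Fin m → ℝ, ix 0 z = q0 → ∃ w ∈ W, z - w ∈ V := by
  -- a cube of positive density
  obtain ⟨q0, hq0⟩ : ∃ q0 : Fin m → ℤ, volume (V ∩ {x | ix 0 x = q0}) ≠ 0 := by
    by_contra hcon
    push Not at hcon
    apply hpos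
    have h1 : V ⊆ ⋃ q : Fin m → ℤ, V ∩ {x | ix 0 x = q} := fun x hx =>
      mem_iUnion.2 ⟨ix 0 x, hx, rfl⟩
    exact measure_mono_null h1 (measure_iUnion_null hcon)
  set τ : ℝ := ms V 0 q0 with hτ
  have hτ0 : 0 < τ := ENNReal.toReal_pos hq0 (vol_ne_top V 0 q0)
  have hτ1 : τ ≤ 1 := by simpa using ms_le V 0 q0
  have htau0 : tau τ 0 = τ := by unfold tau; ring
  have htaupos : ∀ i, 0 < tau τ i := fun i => by unfold tau; positivity
  have hex : ∀ i : ℕ, ∃ P : Finset (Fin m → ℤ), (∀ p ∈ P, ∀ i', |p i'| ≤ 2 ^ (2 ^ i)) ∧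
      (P.card : ℝ) ≤ (8 * m * 3 ^ m / τ + 1) * 4 ^ i ∧
      ∀ q' : Fin m → ℤ, par (al (i + 1)) q' = q0 →
        tau τ i * ((2 : ℝ) ^ al i)⁻¹ ^ m ≤ ms V (al i) (par (2 ^ i) q') →
        ∃ p ∈ P, tau τ (i + 1) * ((2 : ℝ) ^ al (i + 1))⁻¹ ^ m ≤ ms V (al (i + 1)) (q' - p) ∧
          par (2 ^ i) (q' - p) = par (2 ^ i) q' := by
    intro i
    have hpow : (0 : ℝ) < (1 / 2) ^ i := by positivity
    have hpow1 : (1 / 2 : ℝ) ^ i ≤ 1 := pow_le_one₀ (by norm_num) (by norm_num)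
    obtain ⟨P, h1, h2, h3⟩ := step_hit V hV.measurableSet q0 (al i) (2 ^ i) (tau τ i)
      (tau τ (i + 1)) (htaupos _).le (by
        have := tau_sub τ i
        have h4 : 0 < τ / 4 * (1 / 2) ^ i := by positivity
        linarith) (by
        rw [tau_sub]
        nlinarith)
    refine ⟨P, h1, ?_, h3⟩
    refine h2.trans ?_
    rw [tau_sub]
    have h5 : ((al i + 2 ^ i : ℕ) : ℝ) ≤ 2 * 2 ^ i := by
      have h6 := al_eq i
      have h7 : al i + 2 ^ i ≤ 2 * 2 ^ i := by omega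
      exact_mod_cast h7
    have h8 : (1 : ℝ) ≤ 4 ^ i := one_le_pow₀ (by norm_num)
    have h9 : (4 : ℝ) ^ i = 2 ^ i * 2 ^ i := by rw [← mul_pow]; norm_num
    calc ((al i + 2 ^ i : ℕ) : ℝ) * m / (τ / 4 * (1 / 2) ^ i / 3 ^ m) + 1
        ≤ (2 * 2 ^ i) * m / (τ / 4 * (1 / 2) ^ i / 3 ^ m) + 1 := by gcongr
      _ = (8 * m * 3 ^ m / τ) * 4 ^ i + 1 := by
          rw [h9, one_div, inv_pow]
          field_simp
          ring
      _ ≤ (8 * m * 3 ^ m / τ) * 4 ^ i + 1 * 4 ^ i := by gcongr; linarith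
      _ = _ := by ring
  choose P hP1 hP2 hP3 using hex
  -- the partial sums
  set sc : ℕ → (Fin m → ℤ) → (Fin m → ℝ) := fun i p i' => (p i' : ℝ) / 2 ^ al (i + 1) with hsc
  set U : ℕ → Finset (Fin m → ℝ) := fun i => Nat.rec ({0} : Finset (Fin m → ℝ))
    (fun i u => Finset.image₂ (fun x p => x + sc i p) u (P i)) i with hU
  have hU0 : U 0 = {0} := rfl
  have hUs : ∀ i, U (i + 1) = Finset.image₂ (fun x p => x + sc i p) (U i) (P i) := fun i => rfl
  set C : ℝ := 8 * m * 3 ^ m / τ + 1 with hC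
  have hC1 : 1 ≤ C := by
    have : 0 ≤ 8 * m * 3 ^ m / τ := by positivity
    linarith
  set W : Set (Fin m → ℝ) := ⋂ i, ⋃ u ∈ U i, Metric.closedBall u (2 * ((2 : ℝ) ^ al i)⁻¹) with hW
  refine ⟨W, ?_, ?_, q0, ?_⟩
  · -- compact
    have h1 : IsCompact (⋃ u ∈ U 0, Metric.closedBall u (2 * ((2 : ℝ) ^ al 0)⁻¹)) :=
      (U 0).isCompact_biUnion fun u _ => isCompact_closedBall _ _
    refine IsCompact.of_isClosed_subset h1 ?_ (iInter_subset _ 0)
    refine isClosed_iInter fun i => ?_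
    exact ((U i).isCompact_biUnion fun u _ => isCompact_closedBall _ _).isClosed
  · -- thin
    intro ε hε
    obtain ⟨K, hK0, hK⟩ := growth C hC1 ε hε (fun i => ((U i).card : ℝ)) (by simp [hU0])
      (fun i => by positivity) (fun i => by
        have h0 : (U (i + 1)).card ≤ (U i).card * (P i).card := by
          rw [hUs]
          convert Finset.card_image₂_le (fun (x : Fin m → ℝ) p => x + sc i p) (U i) (P i)
        have h1 : ((U (i + 1)).card : ℝ) ≤ (U i).card * (P i).card := by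
          exact_mod_cast h0
        refine h1.trans ?_
        have := hP2 i
        gcongr)
    refine ⟨K * 2 ^ ε, by positivity, fun δ hδ0 hδ1 => ?_⟩
    have hex2 : ∃ i, 2 * ((2 : ℝ) ^ al i)⁻¹ ≤ δ := by
      obtain ⟨n, hn⟩ := exists_pow_lt_of_lt_one (show 0 < δ / 2 by positivity)
        (show (1 / 2 : ℝ) < 1 by norm_num)
      refine ⟨n, ?_⟩
      have h1 : ((2 : ℝ) ^ al n)⁻¹ ≤ (1 / 2) ^ n := by
        rw [one_div, inv_pow]
        have h2 := al_ge 0 n
        have h3 : n ≤ al n := by simpa [al] using h2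
        have h4 : (2 : ℝ) ^ n ≤ 2 ^ al n := pow_le_pow_right₀ (by norm_num) h3
        gcongr
      linarith
    set i := Nat.find hex2 with hi
    have hi1 : 2 * ((2 : ℝ) ^ al i)⁻¹ ≤ δ := Nat.find_spec hex2
    have hi0 : i ≠ 0 := by
      intro h0
      rw [h0] at hi1
      simp only [al, pow_zero, inv_one, mul_one] at hi1
      linarith
    obtain ⟨i', hi'⟩ := Nat.exists_eq_succ_of_ne_zero hi0
    have hi2 : ¬ 2 * ((2 : ℝ) ^ al i')⁻¹ ≤ δ := Nat.find_min hex2 (by rw [← hi, hi']; exact Nat.lt_succ_self _)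
    push Not at hi2
    refine ⟨U i, ?_, ?_⟩
    · rw [hi']
      refine (hK i').trans ?_
      rw [mul_assoc]
      gcongr
      have h1 : (2 : ℝ) ^ al i' ≤ 2 * δ⁻¹ := by
        have h2 : (0 : ℝ) < 2 ^ al i' := by positivity
        rw [← div_eq_mul_inv, le_div_iff₀ hδ0]
        rw [← div_eq_mul_inv, lt_div_iff₀ h2] at hi2
        linarith
      calc (2 : ℝ) ^ (ε * al i') = ((2 : ℝ) ^ al i') ^ ε := by
            rw [mul_comm, Real.rpow_mul (by norm_num), Real.rpow_natCast]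
        _ ≤ (2 * δ⁻¹) ^ ε := Real.rpow_le_rpow (by positivity) h1 hε.le
        _ = 2 ^ ε * δ ^ (-ε) := by
            rw [Real.mul_rpow (by norm_num) (by positivity), Real.inv_rpow hδ0.le,
              Real.rpow_neg hδ0.le]
    · intro w hw
      have h1 := mem_iInter.1 hw i
      obtain ⟨u, hu, hwu⟩ := mem_iUnion₂.1 h1
      exact mem_iUnion₂.2 ⟨u, hu, Metric.closedBall_subset_closedBall hi1 hwu⟩
  · -- sums
    intro z hz
    set Good : ℕ → (Fin m → ℝ) → Prop := fun i y => z - y ∈ U i ∧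
      par (al i) (ix (al i) y) = q0 ∧
      tau τ i * ((2 : ℝ) ^ al i)⁻¹ ^ m ≤ ms V (al i) (ix (al i) y) with hGood
    have hstep : ∀ i y, Good i y → ∃ y', Good (i + 1) y' ∧ dist y y' ≤ ((2 : ℝ) ^ al i)⁻¹ := by
      rintro i y ⟨h1, h2, h3⟩
      have h4 : par (2 ^ i) (ix (al (i + 1)) y) = ix (al i) y := par_ix (al i) (2 ^ i) y
      have h5 : par (al (i + 1)) (ix (al (i + 1)) y) = q0 := by
        rw [← h2, ← h4, par_par, al_succ, add_comm]
      obtain ⟨p, hp, hp1, hp2⟩ := hP3 i (ix (al (i + 1)) y) h5 (by rw [h4]; exact h3)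
      have h6 : ix (al (i + 1)) (y - sc i p) = ix (al (i + 1)) y - p := by
        funext i'
        simp only [ix, Pi.sub_apply, hsc]
        rw [← Int.floor_sub_intCast]
        congr 1
        have : (2 : ℝ) ^ al (i + 1) ≠ 0 := by positivity
        field_simp
      refine ⟨y - sc i p, ⟨?_, ?_, ?_⟩, ?_⟩
      · rw [hUs]
        refine Finset.mem_image₂.2 ⟨z - y, h1, p, hp, ?_⟩
        abel
      · rw [h6]
        have h7 : par (al (i + 1)) (ix (al (i + 1)) y - p) =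
            par (al i) (par (2 ^ i) (ix (al (i + 1)) y - p)) := by
          rw [par_par, al_succ, add_comm]
        rw [h7, hp2, h4, h2]
      · rw [h6]
        exact hp1
      · rw [dist_eq_norm]
        have h8 : y - (y - sc i p) = sc i p := by abel
        rw [h8]
        refine (pi_norm_le_iff_of_nonneg (by positivity)).2 fun i' => ?_
        have h9 := hP1 i p hp i'
        have h10 : |(p i' : ℝ)| ≤ 2 ^ (2 ^ i) := by exact_mod_cast h9
        simp only [hsc]
        rw [Real.norm_eq_abs, abs_div, abs_of_pos (by positivity : (0 : ℝ) < 2 ^ al (i + 1)),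
          al_succ, pow_add, div_le_iff₀ (by positivity)]
        have h11 : ((2 : ℝ) ^ al i)⁻¹ * (2 ^ al i * 2 ^ 2 ^ i) = 2 ^ 2 ^ i := by
          rw [← mul_assoc, inv_mul_cancel₀ (by positivity), one_mul]
        rw [h11]
        exact h10
    choose! nxt hn1 hn2 using hstep
    set Y : ℕ → (Fin m → ℝ) := fun i => Nat.rec z (fun i y => nxt i y) i with hY
    have hY0 : Y 0 = z := rfl
    have hYs : ∀ i, Y (i + 1) = nxt i (Y i) := fun i => rfl
    have hG : ∀ i, Good i (Y i) := by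
      intro i
      induction i with
      | zero =>
        rw [hY0]
        refine ⟨by rw [hU0]; simp, ?_, ?_⟩
        · have h1 : al 0 = 0 := rfl
          rw [h1, hz]
          funext i'
          simp [par]
        · have h1 : al 0 = 0 := rfl
          rw [h1, hz, htau0, hτ]
          simp
      | succ i ih =>
        rw [hYs]
        exact hn1 i _ ih
    have hd : ∀ i, dist (Y i) (Y (i + 1)) ≤ ((2 : ℝ) ^ al i)⁻¹ := fun i => by
      rw [hYs]
      exact hn2 i _ (hG i)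
    have hdk : ∀ i k, dist (Y (i + k)) (Y (i + (k + 1))) ≤
        2 * ((2 : ℝ) ^ al i)⁻¹ / 2 / 2 ^ k := by
      intro i k
      refine (hd (i + k)).trans ?_
      have h1 : (2 : ℝ) ^ (al i + k) ≤ 2 ^ al (i + k) :=
        pow_le_pow_right₀ (by norm_num) (al_ge i k)
      calc ((2 : ℝ) ^ al (i + k))⁻¹ ≤ ((2 : ℝ) ^ (al i + k))⁻¹ := by gcongr
        _ = 2 * ((2 : ℝ) ^ al i)⁻¹ / 2 / 2 ^ k := by
            rw [pow_add]; field_simp
    have hcauchy : CauchySeq Y := by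
      have h1 := cauchySeq_of_le_geometric_two (f := Y) (C := 2 * ((2 : ℝ) ^ al 0)⁻¹)
        (fun k => by simpa using hdk 0 k)
      exact h1
    obtain ⟨y, hy⟩ := cauchySeq_tendsto_of_complete hcauchy
    have hlim : ∀ i, dist (Y i) y ≤ 2 * ((2 : ℝ) ^ al i)⁻¹ := by
      intro i
      have h1 : Tendsto (fun k => Y (i + k)) atTop (𝓝 y) := by
        have := (tendsto_add_atTop_iff_nat (f := Y) i).2 hy
        simpa [add_comm] using this
      have h2 := dist_le_of_le_geometric_two_of_tendsto₀ (f := fun k => Y (i + k))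
        (C := 2 * ((2 : ℝ) ^ al i)⁻¹) (fun k => hdk i k) h1
      simpa using h2
    have hsmall : Tendsto (fun i : ℕ => ((2 : ℝ) ^ al i)⁻¹) atTop (𝓝 0) := by
      have h1 : Tendsto (fun i : ℕ => ((2 : ℝ) ^ i)⁻¹) atTop (𝓝 0) :=
        tendsto_inv_atTop_zero.comp (tendsto_pow_atTop_atTop_of_one_lt (by norm_num))
      refine squeeze_zero (fun i => by positivity) (fun i => ?_) h1
      have h2 : i ≤ al i := by simpa [al] using al_ge 0 i
      have h3 : (2 : ℝ) ^ i ≤ 2 ^ al i := pow_le_pow_right₀ (by norm_num) h2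
      gcongr
    have hyV : y ∈ V := by
      have hv : ∀ i, ∃ v ∈ V, dist v (Y i) ≤ ((2 : ℝ) ^ al i)⁻¹ := by
        intro i
        obtain ⟨-, -, h3⟩ := hG i
        have h4 : 0 < ms V (al i) (ix (al i) (Y i)) :=
          lt_of_lt_of_le (mul_pos (htaupos i) (by positivity)) h3
        have h5 : volume (V ∩ {x | ix (al i) x = ix (al i) (Y i)}) ≠ 0 := by
          intro h6
          unfold ms at h4
          rw [h6] at h4
          simp at h4
        obtain ⟨v, hv1, hv2⟩ := nonempty_of_measure_ne_zero h5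
        refine ⟨v, hv1, ?_⟩
        refine (dist_pi_le_iff (by positivity)).2 fun i' => ?_
        have h7 : ⌊(2 : ℝ) ^ al i * v i'⌋ = ⌊(2 : ℝ) ^ al i * Y i i'⌋ := congrFun hv2 i'
        have h8 := Int.abs_sub_lt_one_of_floor_eq_floor h7
        rw [← mul_sub, abs_mul, abs_of_pos (by positivity : (0 : ℝ) < 2 ^ al i)] at h8
        rw [Real.dist_eq, ← one_div, le_div_iff₀ (by positivity), mul_comm]
        exact h8.le
      choose v hv1 hv2 using hv
      refine hV.mem_of_tendsto (b := atTop) (f := v) ?_ (Eventually.of_forall hv1)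
      refine hy.congr_dist ?_
      refine squeeze_zero (fun i => dist_nonneg) (fun i => ?_) hsmall
      rw [dist_comm]
      exact hv2 i
    refine ⟨z - y, ?_, by simpa using hyV⟩
    rw [hW, mem_iInter]
    intro i
    obtain ⟨h1, -, -⟩ := hG i
    refine mem_iUnion₂.2 ⟨z - Y i, h1, ?_⟩
    rw [Metric.mem_closedBall, dist_eq_norm]
    have h2 : z - y - (z - Y i) = Y i - y := by abel
    rw [h2, ← dist_eq_norm]
    exact hlim i

end Pool.Agent.H224.MPS
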