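import Pool.Agent.H224.MPS.Slice
import Pool.Agent.H224.MPS.Thin2

/-!
# Shearing by a thin set does not increase the dimension
-/

set_option autoImplicit false

open MeasureTheory Set Filter Topology
open scoped ENNReal NNReal

namespace Pool.Agent.H224.MPS

/-- covers with positive radii -/
theorem cover_radius {X : Type*} [EMetricSpace X] [MeasurableSpace X] [BorelSpace X]
    {E : Set X} {q : ℝ} (hq : 0 < q) (h : Measure.hausdorffMeasure q E = 0) (k : ℕ) :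
    ∃ (t : ℕ → Set X) (ρ : ℕ → ℝ), E ⊆ ⋃ n, t n ∧ (∀ n, 0 < ρ n) ∧ (∀ n, ρ n ≤ (1 / 2) ^ k) ∧
      (∀ n, Metric.ediam (t n) ≤ ENNReal.ofReal (ρ n)) ∧
      ∑' n, ENNReal.ofReal (ρ n) ^ q ≤ 4 * (2⁻¹ : ℝ≥0∞) ^ k := by
  obtain ⟨t, ht1, ht2, ht3⟩ := cover_of_null hq h ((2⁻¹ : ℝ≥0∞) ^ k)
    (ENNReal.ofReal ((1 / 2) ^ (k + 1)))
    (ENNReal.pow_pos (by simp) k) (by simp)
  have h1 : ∀ n, ∃ ρ : ℝ, 0 < ρ ∧ ρ ≤ (1 / 2) ^ k ∧ Metric.ediam (t n) ≤ ENNReal.ofReal ρ ∧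
      ENNReal.ofReal ρ ^ q ≤ Metric.ediam (t n) ^ q + (2⁻¹ : ℝ≥0∞) ^ k * (2⁻¹ : ℝ≥0∞) ^ n := by
    intro n
    set d := Metric.ediam (t n) with hd
    have hdt : d ≠ ∞ := ne_top_of_le_ne_top ENNReal.ofReal_ne_top (ht2 n)
    have hcont : Tendsto (fun x : ℝ≥0∞ => x ^ q) (𝓝[>] d) (𝓝 (d ^ q)) :=
      (ENNReal.continuous_rpow_const.tendsto d).mono_left nhdsWithin_le_nhds
    have hlt : d ^ q < d ^ q + (2⁻¹ : ℝ≥0∞) ^ k * (2⁻¹ : ℝ≥0∞) ^ n := by
      refine ENNReal.lt_add_right (ENNReal.rpow_ne_top_of_nonneg hq.le hdt) ?_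
      simp
    have hdlt : d < ENNReal.ofReal ((1 / 2) ^ k) := by
      refine lt_of_le_of_lt (ht2 n) ?_
      rw [ENNReal.ofReal_lt_ofReal_iff (by positivity), pow_succ]
      have : (0 : ℝ) < (1 / 2) ^ k := by positivity
      linarith
    have hne : (𝓝[>] d).NeBot := by
      refine nhdsGT_neBot_of_exists_gt ⟨_, hdlt⟩
    have hev := (hcont.eventually (gt_mem_nhds hlt)).and (Ioo_mem_nhdsGT hdlt)
    obtain ⟨x, hx1, hx2⟩ := hev.exists
    have hxt : x ≠ ∞ := (hx2.2.trans ENNReal.ofReal_lt_top).ne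
    refine ⟨x.toReal, ENNReal.toReal_pos (ne_of_gt (lt_of_le_of_lt zero_le hx2.1)) hxt, ?_, ?_, ?_⟩
    · exact ENNReal.toReal_le_of_le_ofReal (by positivity) hx2.2.le
    · rw [ENNReal.ofReal_toReal hxt]
      exact hx2.1.le
    · rw [ENNReal.ofReal_toReal hxt]
      exact hx1.le
  choose ρ hρ1 hρ2 hρ3 hρ4 using h1
  refine ⟨t, ρ, ht1, hρ1, hρ2, hρ3, ?_⟩
  refine (ENNReal.tsum_le_tsum hρ4).trans ?_
  rw [ENNReal.tsum_add, ENNReal.tsum_mul_left, ENNReal.tsum_geometric]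
  have h2 : (1 - 2⁻¹ : ℝ≥0∞)⁻¹ = 2 := by
    rw [ENNReal.one_sub_inv_two, inv_inv]
  rw [h2]
  calc ∑' n, Metric.ediam (t n) ^ q + (2⁻¹ : ℝ≥0∞) ^ k * 2
      ≤ (2⁻¹ : ℝ≥0∞) ^ k + (2⁻¹ : ℝ≥0∞) ^ k * 2 := by gcongr
    _ = 3 * (2⁻¹ : ℝ≥0∞) ^ k := by ring
    _ ≤ 4 * (2⁻¹ : ℝ≥0∞) ^ k := by
        gcongr
        norm_num

/-- **Shears by the elements of a thin set** -/
theorem dimH_shear {m : ℕ} (F : Set (ℝ × (Fin m → ℝ))) (hF : Bornology.IsBounded F)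
    (W : Set (Fin m → ℝ)) (hW : Bornology.IsBounded W) (hthin : Thin W) :
    dimH (Set.image2 (fun (x : ℝ × (Fin m → ℝ)) w => ((x.1, x.2 + x.1 • w) : ℝ × (Fin m → ℝ)))
      F W) ≤ dimH F := by
  by_contra hcon
  rw [not_le] at hcon
  obtain ⟨c, hc1, hc2⟩ := ENNReal.lt_iff_exists_nnreal_btwn.1 hcon
  obtain ⟨s, hs1, hs2⟩ := ENNReal.lt_iff_exists_nnreal_btwn.1 hc1
  set F' := Set.image2 (fun (x : ℝ × (Fin m → ℝ)) w =>
    ((x.1, x.2 + x.1 • w) : ℝ × (Fin m → ℝ))) F W with hF'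
  have hs0 : 0 < (s : ℝ) := by
    have : (0 : ℝ≥0∞) < s := lt_of_le_of_lt zero_le hs1
    exact_mod_cast this
  have hsc : (s : ℝ) < c := by exact_mod_cast hs2
  have hnull : Measure.hausdorffMeasure (s : ℝ) F = 0 := hausdorffMeasure_of_dimH_lt hs1
  obtain ⟨R1, hR1⟩ := hF.exists_norm_le
  obtain ⟨R2, hR2⟩ := hW.exists_norm_le
  set R : ℝ := max (max R1 R2) 0 with hR
  have hR0 : 0 ≤ R := le_max_right _ _
  have hRF : ∀ x ∈ F, ‖x.1‖ ≤ R := fun x hx =>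
    (norm_fst_le x).trans ((hR1 x hx).trans ((le_max_left _ _).trans (le_max_left _ _)))
  have hRW : ∀ w ∈ W, ‖w‖ ≤ R := fun w hw =>
    (hR2 w hw).trans ((le_max_right _ _).trans (le_max_left _ _))
  obtain ⟨K, hK0, hK⟩ := hthin ((c : ℝ) - s) (by linarith)
  choose t ρ ht1 hρ0 hρ1 ht2 ht3 using fun k => cover_radius hs0 hnull k
  choose U hU1 hU2 using fun (k n : ℕ) => hK (ρ k n) (hρ0 k n)
    ((hρ1 k n).trans (pow_le_one₀ (by norm_num) (by norm_num)))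
  set A : ℝ := 1 + 3 * R with hA
  have hA0 : 0 < A := by positivity
  set S : (k : ℕ) → (Σ n, {u // u ∈ U k n}) → Set (ℝ × (Fin m → ℝ)) := fun k p =>
    Set.image2 (fun (x : ℝ × (Fin m → ℝ)) w => ((x.1, x.2 + x.1 • w) : ℝ × (Fin m → ℝ)))
      (t k p.1 ∩ F) (W ∩ Metric.closedBall p.2.1 (ρ k p.1)) with hS
  have hdiam : ∀ k p, Metric.ediam (S k p) ≤ ENNReal.ofReal (A * ρ k p.1) := by
    intro k p
    refine Metric.ediam_le ?_
    rintro _ ⟨x, ⟨hx1, hx2⟩, w, ⟨hw1, hw2⟩, rfl⟩ _ ⟨x', ⟨hx1', hx2'⟩, w', ⟨hw1', hw2'⟩, rfl⟩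
    have h1 : edist x x' ≤ ENNReal.ofReal (ρ k p.1) :=
      (Metric.edist_le_ediam_of_mem hx1 hx1').trans (ht2 k p.1)
    rw [edist_dist, ENNReal.ofReal_le_ofReal_iff (hρ0 _ _).le, dist_eq_norm] at h1
    have h2 : ‖x.1 - x'.1‖ ≤ ρ k p.1 := (norm_fst_le (x - x')).trans h1
    have h3 : ‖x.2 - x'.2‖ ≤ ρ k p.1 := (norm_snd_le (x - x')).trans h1
    have h4 : ‖w - w'‖ ≤ 2 * ρ k p.1 := by
      rw [← dist_eq_norm]
      have h5 := dist_triangle_right w w' p.2.1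
      rw [Metric.mem_closedBall] at hw2 hw2'
      linarith
    rw [edist_dist]
    apply ENNReal.ofReal_le_ofReal
    rw [dist_eq_norm, Prod.norm_def]
    have hρp := hρ0 k p.1
    apply max_le
    · simp only [Prod.fst_sub]
      calc ‖x.1 - x'.1‖ ≤ ρ k p.1 := h2
        _ = 1 * ρ k p.1 := (one_mul _).symm
        _ ≤ A * ρ k p.1 := by
            gcongr
            rw [hA]
            linarith
    · simp only [Prod.snd_sub]
      have h6 : x.2 + x.1 • w - (x'.2 + x'.1 • w') =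
          (x.2 - x'.2) + (x.1 • (w - w') + (x.1 - x'.1) • w') := by
        rw [smul_sub, sub_smul]
        abel
      rw [h6]
      refine (norm_add_le _ _).trans ?_
      have h7 : ‖x.1 • (w - w')‖ ≤ R * (2 * ρ k p.1) := by
        rw [norm_smul]
        have := hRF x hx2
        gcongr
      have h8 : ‖(x.1 - x'.1) • w'‖ ≤ ρ k p.1 * R := by
        rw [norm_smul]
        have := hRW w' hw1'
        gcongr
      have h9 := norm_add_le (x.1 • (w - w')) ((x.1 - x'.1) • w')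
      rw [hA]
      linarith
  have hr : Tendsto (fun k : ℕ => ENNReal.ofReal (A * (1 / 2) ^ k)) atTop (𝓝 0) := by
    have h1 : Tendsto (fun k : ℕ => A * (1 / 2 : ℝ) ^ k) atTop (𝓝 (A * 0)) :=
      (tendsto_pow_atTop_nhds_zero_of_lt_one (by norm_num) (by norm_num)).const_mul A
    rw [mul_zero] at h1
    have h2 := ENNReal.tendsto_ofReal h1
    rwa [ENNReal.ofReal_zero] at h2
  have key := Measure.hausdorffMeasure_le_liminf_tsum (X := ℝ × (Fin m → ℝ))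
    (ι := fun k : ℕ => Σ n, {u // u ∈ U k n}) (l := atTop) (c : ℝ) F' _ hr S
    (Eventually.of_forall fun k p => (hdiam k p).trans (ENNReal.ofReal_le_ofReal (by
      have := hρ1 k p.1
      gcongr)))
    (Eventually.of_forall fun k y hy => by
      obtain ⟨x, hx, w, hw, rfl⟩ := hy
      obtain ⟨n, hn⟩ := mem_iUnion.1 (ht1 k hx)
      obtain ⟨u, hu, hwu⟩ := mem_iUnion₂.1 (hU2 k n hw)
      exact mem_iUnion.2 ⟨⟨n, ⟨u, hu⟩⟩, ⟨x, ⟨hn, hx⟩, w, ⟨hw, hwu⟩, rfl⟩⟩)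
  have hle : ∀ k, ∑' p, Metric.ediam (S k p) ^ (c : ℝ) ≤
      ENNReal.ofReal (K * A ^ (c : ℝ)) * (4 * (2⁻¹ : ℝ≥0∞) ^ k) := by
    intro k
    rw [ENNReal.tsum_sigma (fun n (u : {u // u ∈ U k n}) => Metric.ediam (S k ⟨n, u⟩) ^ (c : ℝ))]
    have h1 : ∀ n, ∑' u : {u // u ∈ U k n}, Metric.ediam (S k ⟨n, u⟩) ^ (c : ℝ) ≤
        ENNReal.ofReal (K * A ^ (c : ℝ)) * ENNReal.ofReal (ρ k n) ^ (s : ℝ) := by
      intro n
      have hρn := hρ0 k n
      rw [tsum_fintype]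
      have h2 : ∀ u ∈ (Finset.univ : Finset {u // u ∈ U k n}),
          Metric.ediam (S k ⟨n, u⟩) ^ (c : ℝ) ≤ ENNReal.ofReal ((A * ρ k n) ^ (c : ℝ)) := by
        intro u _
        rw [← ENNReal.ofReal_rpow_of_nonneg (by positivity) (by positivity)]
        exact ENNReal.rpow_le_rpow (hdiam k ⟨n, u⟩) (by positivity)
      refine (Finset.sum_le_card_nsmul _ _ _ h2).trans ?_
      rw [Finset.card_univ, Fintype.card_coe, nsmul_eq_mul, ← ENNReal.ofReal_natCast,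
        ← ENNReal.ofReal_mul (by positivity), ENNReal.ofReal_rpow_of_nonneg hρn.le hs0.le,
        ← ENNReal.ofReal_mul (by positivity)]
      apply ENNReal.ofReal_le_ofReal
      have h3 := hU1 k n
      calc ((U k n).card : ℝ) * (A * ρ k n) ^ (c : ℝ)
          ≤ (K * ρ k n ^ (-((c : ℝ) - s))) * (A * ρ k n) ^ (c : ℝ) := by gcongr
        _ = K * A ^ (c : ℝ) * (ρ k n ^ (-((c : ℝ) - s)) * ρ k n ^ (c : ℝ)) := by
            rw [Real.mul_rpow hA0.le hρn.le]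
            ring
        _ = K * A ^ (c : ℝ) * ρ k n ^ (s : ℝ) := by
            rw [← Real.rpow_add hρn]
            congr 2
            ring
    refine (ENNReal.tsum_le_tsum h1).trans ?_
    rw [ENNReal.tsum_mul_left]
    gcongr
    exact ht3 k
  have h0 : Tendsto (fun k : ℕ => ENNReal.ofReal (K * A ^ (c : ℝ)) * (4 * (2⁻¹ : ℝ≥0∞) ^ k))
      atTop (𝓝 0) := by
    have h1 : Tendsto (fun k : ℕ => (2⁻¹ : ℝ≥0∞) ^ k) atTop (𝓝 0) :=
      ENNReal.tendsto_pow_atTop_nhds_zero_of_lt_one (by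
        rw [ENNReal.inv_lt_one]
        exact ENNReal.one_lt_two)
    have h2 := ENNReal.Tendsto.const_mul (a := 4) h1 (Or.inr (by norm_num))
    have h3 := ENNReal.Tendsto.const_mul (a := ENNReal.ofReal (K * A ^ (c : ℝ))) h2
      (Or.inr ENNReal.ofReal_ne_top)
    simpa using h3
  have h1 : Tendsto (fun k => ∑' p, Metric.ediam (S k p) ^ (c : ℝ)) atTop (𝓝 0) :=
    tendsto_of_tendsto_of_tendsto_of_le_of_le tendsto_const_nhds h0 (fun _ => zero_le) hle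
  rw [h1.liminf_eq] at key
  have h2 : dimH F' ≤ c := dimH_le_of_hausdorffMeasure_ne_top
    (ne_top_of_le_ne_top ENNReal.zero_ne_top key)
  exact absurd (lt_of_lt_of_le hc2 h2) (lt_irrefl _)

end Pool.Agent.H224.MPS
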