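import Pool.Agent.H224.MPS.Hit

/-!
# Every set of positive measure plus a suitable thin set contains a cube
-/

set_option autoImplicit false

open MeasureTheory Set Filter Topology
open scoped ENNReal NNReal Classical

namespace Pool.Agent.H224.MPS

/-- A set with covering numbers smaller than every power -/
def Thin {X : Type*} [PseudoMetricSpace X] (W : Set X) : Prop :=
  ∀ ε : ℝ, 0 < ε → ∃ K : ℝ, 0 < K ∧ ∀ δ : ℝ, 0 < δ → δ ≤ 1 → ∃ U : Finset X,
    (U.card : ℝ) ≤ K * δ ^ (-ε) ∧ W ⊆ ⋃ u ∈ U, Metric.closedBall u δ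

variable {m : ℕ}

/-- index of the cube -/
noncomputable def ix (a : ℕ) (x : Fin m → ℝ) : Fin m → ℤ := fun i => ⌊(2 : ℝ) ^ a * x i⌋

/-- parent -/
def par (b : ℕ) (q : Fin m → ℤ) : Fin m → ℤ := fun i => q i / 2 ^ b

theorem par_ix (a b : ℕ) (x : Fin m → ℝ) : par b (ix (a + b) x) = ix a x := by
  funext i
  unfold par ix
  have h3 : (2 : ℤ) ^ b = ((2 ^ b : ℕ) : ℤ) := by push_cast; ring
  rw [h3, ← Int.floor_div_natCast]
  congr 1
  push_cast
  rw [pow_add]
  field_simp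

theorem par_par (b c : ℕ) (q : Fin m → ℤ) : par b (par c q) = par (c + b) q := by
  funext i
  unfold par
  rw [pow_add, Int.ediv_ediv_of_nonneg (by positivity)]

/-- children -/
noncomputable def ch (b : ℕ) (q : Fin m → ℤ) : Finset (Fin m → ℤ) :=
  Fintype.piFinset fun i => Finset.Ico (q i * 2 ^ b) ((q i + 1) * 2 ^ b)

theorem mem_ch (b : ℕ) (q q' : Fin m → ℤ) : q' ∈ ch b q ↔ par b q' = q := by
  unfold ch par
  rw [Fintype.mem_piFinset, funext_iff]
  refine forall_congr' fun i => ?_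
  have h2 : (0 : ℤ) < 2 ^ b := by positivity
  rw [Finset.mem_Ico]
  constructor
  · rintro ⟨h3, h4⟩
    apply le_antisymm
    · exact Int.lt_add_one_iff.1 (Int.ediv_lt_of_lt_mul h2 h4)
    · exact (Int.le_ediv_iff_mul_le h2).2 h3
  · intro h
    rw [← h]
    exact ⟨Int.ediv_mul_le _ h2.ne', Int.lt_ediv_add_one_mul_self _ h2⟩

theorem card_ch (b : ℕ) (q : Fin m → ℤ) : (ch b q).card = 2 ^ (b * m) := by
  unfold ch
  rw [Fintype.card_piFinset]
  have h1 : ∀ i : Fin m, (Finset.Ico (q i * 2 ^ b) ((q i + 1) * 2 ^ b)).card = 2 ^ b := by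
    intro i
    rw [Int.card_Ico]
    have : (q i + 1) * 2 ^ b - q i * 2 ^ b = ((2 ^ b : ℕ) : ℤ) := by push_cast; ring
    rw [this, Int.toNat_natCast]
  rw [Finset.prod_congr rfl fun i _ => h1 i, Finset.prod_const, Finset.card_univ,
    Fintype.card_fin, ← pow_mul]

/-- the mass of `V` in a cube -/
noncomputable def ms (V : Set (Fin m → ℝ)) (a : ℕ) (q : Fin m → ℤ) : ℝ :=
  (volume (V ∩ {x | ix a x = q})).toReal

theorem measurable_ix (a : ℕ) : Measurable (ix (m := m) a) := by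
  refine measurable_pi_lambda _ fun i => ?_
  exact Int.measurable_floor.comp (by fun_prop)

theorem vol_cube (a : ℕ) (q : Fin m → ℤ) :
    volume {x : Fin m → ℝ | ix a x = q} = ENNReal.ofReal (((2 : ℝ) ^ a)⁻¹ ^ m) := by
  have h2 : (0 : ℝ) < 2 ^ a := by positivity
  have h1 : {x : Fin m → ℝ | ix a x = q} =
      Set.pi univ fun i => Ico ((q i : ℝ) / 2 ^ a) (((q i : ℝ) + 1) / 2 ^ a) := by
    ext x
    simp only [mem_ofPred_eq, funext_iff, ix, Set.mem_pi, mem_univ, true_implies, mem_Ico]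
    refine forall_congr' fun i => ?_
    rw [Int.floor_eq_iff, div_le_iff₀ h2, lt_div_iff₀ h2, mul_comm (x i)]
  rw [h1, volume_pi_pi]
  have h3 : ∀ i : Fin m, volume (Ico ((q i : ℝ) / 2 ^ a) (((q i : ℝ) + 1) / 2 ^ a)) =
      ENNReal.ofReal ((2 : ℝ) ^ a)⁻¹ := by
    intro i
    rw [Real.volume_Ico]
    congr 1
    field_simp
    ring
  rw [Finset.prod_congr rfl fun i _ => h3 i, Finset.prod_const, Finset.card_univ,
    Fintype.card_fin, ENNReal.ofReal_pow (by positivity)]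

theorem vol_ne_top (V : Set (Fin m → ℝ)) (a : ℕ) (q : Fin m → ℤ) :
    volume (V ∩ {x | ix a x = q}) ≠ ∞ := by
  refine ne_top_of_le_ne_top ?_ (measure_mono inter_subset_right)
  rw [vol_cube]
  exact ENNReal.ofReal_ne_top

theorem ms_nonneg (V : Set (Fin m → ℝ)) (a : ℕ) (q : Fin m → ℤ) : 0 ≤ ms V a q :=
  ENNReal.toReal_nonneg

theorem ms_le (V : Set (Fin m → ℝ)) (a : ℕ) (q : Fin m → ℤ) : ms V a q ≤ ((2 : ℝ) ^ a)⁻¹ ^ m := by
  unfold ms
  refine ENNReal.toReal_le_of_le_ofReal (by positivity) ?_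
  rw [← vol_cube a q]
  exact measure_mono inter_subset_right

theorem ms_sum (V : Set (Fin m → ℝ)) (hV : MeasurableSet V) (a b : ℕ) (q : Fin m → ℤ) :
    ms V a q = ∑ q' ∈ ch b q, ms V (a + b) q' := by
  unfold ms
  rw [← ENNReal.toReal_sum fun q' _ => vol_ne_top V _ _]
  congr 1
  rw [← measure_biUnion_finset]
  · congr 1
    ext x
    simp only [mem_inter_iff, mem_ofPred_eq, mem_iUnion, exists_prop]
    constructor
    · rintro ⟨h1, h2⟩
      exact ⟨ix (a + b) x, (mem_ch _ _ _).2 (by rw [par_ix, h2]), h1, rfl⟩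
    · rintro ⟨q', h1, h2, h3⟩
      refine ⟨h2, ?_⟩
      rw [← par_ix a b, h3]
      exact (mem_ch _ _ _).1 h1
  · intro q1 _ q2 _ h12
    rw [Function.onFun, Set.disjoint_left]
    rintro x ⟨-, h1⟩ ⟨-, h2⟩
    exact h12 (h1.symm.trans h2)
  · intro q' _
    exact hV.inter (measurable_ix _ (measurableSet_singleton _))

/-- many good children -/
theorem good_count (V : Set (Fin m → ℝ)) (hV : MeasurableSet V) (a b : ℕ) (q : Fin m → ℤ)
    (τ τ' : ℝ) (hτ' : 0 ≤ τ') (h : τ * ((2 : ℝ) ^ a)⁻¹ ^ m ≤ ms V a q) :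
    (τ - τ') * 2 ^ (b * m) ≤
      (((ch b q).filter fun q' => τ' * ((2 : ℝ) ^ (a + b))⁻¹ ^ m ≤ ms V (a + b) q').card : ℝ) := by
  set G := (ch b q).filter fun q' => τ' * ((2 : ℝ) ^ (a + b))⁻¹ ^ m ≤ ms V (a + b) q' with hG
  set x : ℝ := ((2 : ℝ) ^ (a + b))⁻¹ ^ m with hx
  have hx0 : 0 < x := by positivity
  have hax : ((2 : ℝ) ^ a)⁻¹ ^ m = 2 ^ (b * m) * x := by
    rw [hx, pow_mul, ← mul_pow]
    congr 1
    rw [pow_add]
    field_simp
  have h1 : ms V a q ≤ G.card * x + 2 ^ (b * m) * (τ' * x) := by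
    rw [ms_sum V hV a b q, ← Finset.sum_filter_add_sum_filter_not (ch b q)
      (fun q' => τ' * ((2 : ℝ) ^ (a + b))⁻¹ ^ m ≤ ms V (a + b) q')]
    apply add_le_add
    · refine (Finset.sum_le_sum fun q' _ => ms_le V (a + b) q').trans ?_
      rw [Finset.sum_const, nsmul_eq_mul]
    · refine (Finset.sum_le_sum (g := fun _ => τ' * x) fun q' hq' => ?_).trans ?_
      · rw [Finset.mem_filter] at hq'
        exact (not_le.1 hq'.2).le
      · rw [Finset.sum_const, nsmul_eq_mul]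
        have h2 : ((((ch b q).filter fun q' => ¬ τ' * ((2 : ℝ) ^ (a + b))⁻¹ ^ m ≤
            ms V (a + b) q').card : ℕ) : ℝ) ≤ 2 ^ (b * m) := by
          have h3 := Finset.card_filter_le (ch b q)
            (fun q' => ¬ τ' * ((2 : ℝ) ^ (a + b))⁻¹ ^ m ≤ ms V (a + b) q')
          rw [card_ch] at h3
          exact_mod_cast h3
        gcongr
  rw [hax] at h
  have h4 : ((τ - τ') * 2 ^ (b * m)) * x ≤ G.card * x := by linarith
  exact le_of_mul_le_mul_right h4 hx0

/-- one step of the construction -/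
theorem step_hit (V : Set (Fin m → ℝ)) (hV : MeasurableSet V) (q0 : Fin m → ℤ) (a b : ℕ)
    (τ τ' : ℝ) (hτ' : 0 ≤ τ') (hττ' : τ' < τ) (hτ1 : τ - τ' ≤ 1) :
    ∃ P : Finset (Fin m → ℤ), (∀ p ∈ P, ∀ i, |p i| ≤ 2 ^ b) ∧
      (P.card : ℝ) ≤ ((a + b : ℕ) : ℝ) * m / ((τ - τ') / 3 ^ m) + 1 ∧
      ∀ q' : Fin m → ℤ, par (a + b) q' = q0 →
        τ * ((2 : ℝ) ^ a)⁻¹ ^ m ≤ ms V a (par b q') →
        ∃ p ∈ P, τ' * ((2 : ℝ) ^ (a + b))⁻¹ ^ m ≤ ms V (a + b) (q' - p) ∧
          par b (q' - p) = par b q' := by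
  set Ω : Finset (Fin m → ℤ) := Fintype.piFinset fun _ => Finset.Icc (-(2 ^ b)) (2 ^ b) with hΩ
  have hΩcard : (Ω.card : ℝ) ≤ 3 ^ m * 2 ^ (b * m) := by
    rw [hΩ, Fintype.card_piFinset, Finset.prod_const, Finset.card_univ, Fintype.card_fin,
      Int.card_Icc]
    have h1 : ((2 : ℤ) ^ b + 1 - -(2 ^ b)).toNat = 2 * 2 ^ b + 1 := by
      have : (2 : ℤ) ^ b + 1 - -(2 ^ b) = ((2 * 2 ^ b + 1 : ℕ) : ℤ) := by push_cast; ring
      rw [this, Int.toNat_natCast]
    rw [h1, pow_mul, ← mul_pow]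
    push_cast
    have h2 : (1 : ℝ) ≤ 2 ^ b := one_le_pow₀ (by norm_num)
    gcongr
    linarith
  have hΩne : Ω.Nonempty := by
    refine ⟨0, ?_⟩
    rw [hΩ, Fintype.mem_piFinset]
    intro i
    rw [Finset.mem_Icc]
    have : (0 : ℤ) < 2 ^ b := by positivity
    simp only [Pi.zero_apply]
    constructor <;> omega
  set I : Finset (Fin m → ℤ) := (ch (a + b) q0).filter fun q' =>
    τ * ((2 : ℝ) ^ a)⁻¹ ^ m ≤ ms V a (par b q') with hI
  set R : (Fin m → ℤ) → (Fin m → ℤ) → Prop := fun q' p =>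
    τ' * ((2 : ℝ) ^ (a + b))⁻¹ ^ m ≤ ms V (a + b) (q' - p) ∧ par b (q' - p) = par b q' with hR
  set δ : ℝ := (τ - τ') / 3 ^ m with hδ
  have h3m : (1 : ℝ) ≤ 3 ^ m := one_le_pow₀ (by norm_num)
  have hδ0 : 0 < δ := by
    rw [hδ]
    apply div_pos (by linarith)
    positivity
  have hδ1 : δ ≤ 1 := by
    rw [hδ, div_le_one (by positivity)]
    linarith
  obtain ⟨P, hP1, hP2, hP3⟩ := hit Ω hΩne I R δ hδ0 hδ1 (by
    intro q' hq'
    rw [hI, Finset.mem_filter] at hq'
    have h1 := good_count V hV a b (par b q') τ τ' hτ' hq'.2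
    set G := (ch b (par b q')).filter fun g => τ' * ((2 : ℝ) ^ (a + b))⁻¹ ^ m ≤ ms V (a + b) g
      with hG
    have h2 : G.card ≤ (Ω.filter (R q')).card := by
      refine Finset.card_le_card_of_injOn (fun g => q' - g) ?_ ?_
      · intro g hg
        rw [hG, Finset.mem_coe, Finset.mem_filter] at hg
        rw [Finset.mem_coe, Finset.mem_filter]
        have hg2 := (mem_ch _ _ _).1 hg.1
        refine ⟨?_, ?_⟩
        · rw [hΩ, Fintype.mem_piFinset]
          intro i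
          have h3 := hg.1
          unfold ch at h3
          rw [Fintype.mem_piFinset] at h3
          have h4 := Finset.mem_Ico.1 (h3 i)
          have h5 : q' ∈ ch b (par b q') := (mem_ch _ _ _).2 rfl
          unfold ch at h5
          rw [Fintype.mem_piFinset] at h5
          have h6 := Finset.mem_Ico.1 (h5 i)
          have h7 : (par b q' i + 1) * 2 ^ b = par b q' i * 2 ^ b + 2 ^ b := by ring
          rw [h7] at h4 h6
          rw [Finset.mem_Icc]
          show -(2 ^ b) ≤ q' i - g i ∧ q' i - g i ≤ 2 ^ b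
          constructor <;> linarith [h4.1, h4.2, h6.1, h6.2]
        · have h8 : q' - (q' - g) = g := by abel
          simp only [hR, h8]
          exact ⟨hg.2, hg2⟩
      · intro g _ g' _ hgg
        simpa using hgg
    have h3 : (G.card : ℝ) ≤ ((Ω.filter (R q')).card : ℝ) := by exact_mod_cast h2
    refine le_trans ?_ (h1.trans (h3.trans (le_of_eq (by congr))))
    rw [hδ]
    calc (τ - τ') / 3 ^ m * (Ω.card : ℝ) ≤ (τ - τ') / 3 ^ m * (3 ^ m * 2 ^ (b * m)) := by
          have : 0 ≤ (τ - τ') / 3 ^ m := div_nonneg (by linarith) (by positivity)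
          gcongr
      _ = (τ - τ') * 2 ^ (b * m) := by field_simp)
  refine ⟨P, ?_, ?_, ?_⟩
  · intro p hp i
    have h1 := hP1 hp
    rw [hΩ, Fintype.mem_piFinset] at h1
    have h2 := Finset.mem_Icc.1 (h1 i)
    exact abs_le.2 h2
  · refine hP2.trans ?_
    have h1 : Real.log I.card ≤ ((a + b : ℕ) : ℝ) * m := by
      by_cases hI0 : I.card = 0
      · rw [hI0]
        simp only [Nat.cast_zero, Real.log_zero]
        positivity
      have h2 : (I.card : ℝ) ≤ 2 ^ ((a + b) * m) := by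
        have h3 : I.card ≤ (ch (a + b) q0).card := Finset.card_filter_le _ _
        rw [card_ch] at h3
        exact_mod_cast h3
      have h3 : (0 : ℝ) < I.card := by
        exact_mod_cast Nat.pos_of_ne_zero hI0
      calc Real.log I.card ≤ Real.log (2 ^ ((a + b) * m)) := Real.log_le_log h3 h2
        _ = ((a + b) * m : ℕ) * Real.log 2 := Real.log_pow _ _
        _ ≤ ((a + b) * m : ℕ) * 1 := by
            gcongr
            have := Real.log_two_lt_d9
            linarith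
        _ = ((a + b : ℕ) : ℝ) * m := by push_cast; ring
    gcongr
  · intro q' hq1 hq2
    exact hP3 q' (by
      rw [hI, Finset.mem_filter]
      exact ⟨(mem_ch _ _ _).2 hq1, hq2⟩)

end Pool.Agent.H224.MPS
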