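import Pool.Agent.H224.MPS.Energy

/-!
# Compact sets of dimension more than `j` have projections of positive measure
-/

set_option autoImplicit false

open MeasureTheory Set Filter Topology
open scoped ENNReal NNReal Classical

namespace Pool.Agent.H224.MPS

variable {j m : ℕ}

theorem vol_Icc_one (j m : ℕ) : volume (Icc (0 : Fin j → Fin m → ℝ) 1) = 1 := by
  have h1 : Icc (0 : Fin j → Fin m → ℝ) 1 = Set.pi univ fun _ : Fin j => Icc (0 : Fin m → ℝ) 1 := by
    ext B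
    simp only [mem_Icc, Pi.le_def, Set.mem_pi, mem_univ, true_implies]
    exact ⟨fun h i => ⟨h.1 i, h.2 i⟩, fun h => ⟨fun i => (h i).1, fun i => (h i).2⟩⟩
  rw [h1, volume_pi_pi]
  simp [Real.volume_Icc_pi]

theorem ker_ge (k l : ℕ) (y y' : Fin j ⊕ Fin m → ℤ) (hl : l ≤ k) (hD : Dn y y' ≤ 2 ^ l) :
    ((2 : ℝ) ^ l)⁻¹ ^ j ≤ ker k y y' := by
  unfold ker
  have h1 : (if Dn y y' ≤ 2 ^ l then ((2 : ℝ) ^ l)⁻¹ ^ j else 0) ≤
      ∑ l ∈ Finset.range (k + 1), if Dn y y' ≤ 2 ^ l then ((2 : ℝ) ^ l)⁻¹ ^ j else 0 :=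
    Finset.single_le_sum (f := fun l => if Dn y y' ≤ 2 ^ l then ((2 : ℝ) ^ l)⁻¹ ^ j else 0)
      (fun l _ => by
        show 0 ≤ if Dn y y' ≤ 2 ^ l then ((2 : ℝ) ^ l)⁻¹ ^ j else 0
        split_ifs <;> positivity)
      (Finset.mem_range.2 (Nat.lt_succ_iff.2 hl))
  rw [if_pos hD] at h1
  have h2 : (0 : ℝ) ≤ ((2 : ℝ) ^ k)⁻¹ ^ j := by positivity
  linarith

theorem ker_ge_last (k : ℕ) (y y' : Fin j ⊕ Fin m → ℤ) :
    ((2 : ℝ) ^ k)⁻¹ ^ j ≤ ker k y y' := by
  unfold ker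
  have : 0 ≤ ∑ l ∈ Finset.range (k + 1), if Dn y y' ≤ 2 ^ l then ((2 : ℝ) ^ l)⁻¹ ^ j else 0 :=
    Finset.sum_nonneg fun l _ => by split_ifs <;> positivity
  linarith

/-- the kernel controls the measure of the bad maps -/
theorem vol_ker (hm : 1 ≤ m) (k : ℕ) (z z' : Sp j m) :
    volume {B : Fin j → Fin m → ℝ | B ∈ Icc (0 : Fin j → Fin m → ℝ) 1 ∧
      ‖UB B (z - z')‖ ≤ ((2 : ℝ) ^ k)⁻¹} ≤
      ENNReal.ofReal ((16 * m) ^ j * ker k (ci k z) (ci k z')) := by
  have hm1 : (1 : ℝ) ≤ m := by exact_mod_cast hm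
  set D := Dn (ci k z) (ci k z') with hD
  by_cases h1 : D ≤ 1
  · refine (measure_mono (fun B hB => hB.1)).trans ?_
    rw [vol_Icc_one, ← ENNReal.ofReal_one]
    apply ENNReal.ofReal_le_ofReal
    have h2 := ker_ge k 0 (ci k z) (ci k z') (Nat.zero_le k) (by simpa using h1)
    have h3 : (1 : ℝ) ≤ (16 * m) ^ j := one_le_pow₀ (by linarith)
    have h4 : (1 : ℝ) ≤ ker k (ci k z) (ci k z') := by simpa using h2
    nlinarith
  push Not at h1
  have hDr : (2 : ℝ) ≤ D := by exact_mod_cast h1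
  have h2k : (0 : ℝ) < 2 ^ k := by positivity
  have hnorm : (D : ℝ) ≤ 2 * (2 ^ k * ‖z - z'‖) := by
    have := Dn_norm k z z'
    rw [← hD] at this
    linarith
  have hnpos : 0 < ‖z - z'‖ := by
    by_contra h
    have h0 : ‖z - z'‖ = 0 := le_antisymm (not_lt.1 h) (norm_nonneg _)
    rw [h0] at hnorm
    linarith
  have hz : z - z' ≠ 0 := norm_pos_iff.1 hnpos
  refine (vol_rows hm (z - z') hz _ (by positivity)).trans (ENNReal.ofReal_le_ofReal ?_)
  have hDpos : (0 : ℝ) < D := by linarith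
  have h3 : 4 * (m : ℝ) * ((2 : ℝ) ^ k)⁻¹ / ‖z - z'‖ ≤ 8 * m / D := by
    rw [div_le_div_iff₀ hnpos hDpos]
    calc 4 * (m : ℝ) * ((2 : ℝ) ^ k)⁻¹ * D ≤ 4 * (m : ℝ) * ((2 : ℝ) ^ k)⁻¹ * (2 * (2 ^ k * ‖z - z'‖)) := by
          gcongr
      _ = 8 * m * ‖z - z'‖ := by field_simp; ring
  have h4 : (4 * (m : ℝ) * ((2 : ℝ) ^ k)⁻¹ / ‖z - z'‖) ^ j ≤ (8 * m / D) ^ j := by
    gcongr
  refine h4.trans ?_
  by_cases hDk : D ≤ 2 ^ k
  · set l := Nat.clog 2 D with hl
    have hl1 : D ≤ 2 ^ l := Nat.le_pow_clog (by norm_num) D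
    have hlk : l ≤ k := (Nat.clog_le_iff_le_pow (by norm_num)).2 hDk
    have hl2 : 2 ^ (l - 1) < D := by
      have := Nat.pow_pred_clog_lt_self (b := 2) (by norm_num) (x := D) (by omega)
      simpa [hl, Nat.pred_eq_sub_one] using this
    have hlpos : 0 < l := by
      rw [hl]
      exact Nat.clog_pos (by norm_num) (by omega)
    have hl3 : (2 : ℝ) ^ l ≤ 2 * D := by
      have h5 : 2 ^ l = 2 * 2 ^ (l - 1) := by
        rw [← pow_succ']
        congr 1
        omega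
      have h6 : 2 ^ l ≤ 2 * D := by
        rw [h5]
        omega
      exact_mod_cast h6
    have h7 := ker_ge k l (ci k z) (ci k z') hlk hl1
    calc (8 * (m : ℝ) / D) ^ j ≤ (16 * m * ((2 : ℝ) ^ l)⁻¹) ^ j := by
          gcongr
          rw [← div_eq_mul_inv, div_le_div_iff₀ hDpos (by positivity)]
          nlinarith
      _ = (16 * m) ^ j * ((2 : ℝ) ^ l)⁻¹ ^ j := by rw [mul_pow]
      _ ≤ _ := by gcongr
  · push Not at hDk
    have hDk' : (2 : ℝ) ^ k ≤ D := by exact_mod_cast hDk.le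
    have h7 := ker_ge_last k (ci k z) (ci k z')
    calc (8 * (m : ℝ) / D) ^ j ≤ (16 * m * ((2 : ℝ) ^ k)⁻¹) ^ j := by
          gcongr
          rw [← div_eq_mul_inv, div_le_div_iff₀ hDpos (by positivity)]
          nlinarith
      _ = (16 * m) ^ j * ((2 : ℝ) ^ k)⁻¹ ^ j := by rw [mul_pow]
      _ ≤ _ := by gcongr

theorem idx_ci (k : ℕ) (z : Sp j m) : idx k (ci k z) = ci 0 z := by
  funext i
  unfold idx ci
  have h1 : (2 : ℝ) ^ k * co z i = (2 ^ 0 * co z i) * ((2 ^ k : ℕ) : ℝ) := by push_cast; ring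
  have h2 : (0 : ℝ) < 2 ^ k := by positivity
  have h3 : (2 : ℤ) ^ k = ((2 ^ k : ℕ) : ℤ) := by push_cast; ring
  rw [h3, ← Int.floor_div_natCast]
  congr 1
  push_cast
  field_simp

theorem finite_ci (k : ℕ) (A : Set (Sp j m)) (hA : Bornology.IsBounded A) :
    (ci k '' A).Finite := by
  obtain ⟨R, hR⟩ := hA.exists_norm_le
  have h1 : ci k '' A ⊆ Set.pi univ fun _ : Fin j ⊕ Fin m =>
      Icc (⌊-(2 ^ k * R)⌋) (⌊2 ^ k * R⌋) := by
    rintro _ ⟨z, hz, rfl⟩ i -
    have h2 : |co z i| ≤ R := by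
      have h3 : ‖co z i‖ ≤ ‖co z‖ := norm_le_pi_norm (co z) i
      rw [norm_co] at h3
      exact h3.trans (hR z hz)
    rw [abs_le] at h2
    have h3 : (0 : ℝ) < 2 ^ k := by positivity
    constructor
    · exact Int.floor_le_floor (by nlinarith [h2.1])
    · exact Int.floor_le_floor (by nlinarith [h2.2])
  exact (Set.Finite.pi' fun _ => Set.finite_Icc _ _).subset (by
    intro y hy i
    exact h1 hy i (mem_univ i))

/-- one scale -/
theorem step (hm : 1 ≤ m) (A : Set (Sp j m)) (hA : IsCompact A) (s : ℝ) (hs : (j : ℝ) < s)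
    (hAs : Measure.hausdorffMeasure s A ≠ 0) :
    ∃ C : ℝ, ∀ k : ℕ, ∃ H : (Fin j → Fin m → ℝ) → ℝ≥0∞, Measurable H ∧
      (∀ B, 1 ≤ volume (Metric.cthickening ((2 : ℝ) ^ k)⁻¹ (UB B '' A)) * H B) ∧
      ∫⁻ B in Icc (0 : Fin j → Fin m → ℝ) 1, H B ≤ ENNReal.ofReal C := by
  have hs0 : 0 < s := lt_of_le_of_lt (Nat.cast_nonneg j) hs
  obtain ⟨κ, hκ, hcov⟩ := cover_pos A s hs0 hAs
  set N : Finset (Fin j ⊕ Fin m → ℤ) := (finite_ci 0 A hA.isBounded).toFinset with hN
  set M : ℝ := (N.card : ℝ) with hM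
  set G : ℝ := 3 ^ (j + m) / (1 - (2 : ℝ) ^ ((j : ℝ) - s)) with hG
  have hG0 : 0 ≤ G := by
    have : (2 : ℝ) ^ ((j : ℝ) - s) < 1 :=
      Real.rpow_lt_one_of_one_lt_of_neg (by norm_num) (by linarith)
    rw [hG]
    apply div_nonneg (by positivity)
    linarith
  refine ⟨(κ ^ 2)⁻¹ * ((16 * m) ^ j * (M * (G + M))), fun k => ?_⟩
  set F : Finset (Fin j ⊕ Fin m → ℤ) := (finite_ci k A hA.isBounded).toFinset with hF
  obtain ⟨ν, hν0, -, hν1, C, hC1, hC2⟩ := frostman k (cap k s) (cap_nonneg k s) F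
  have hrep : ∀ y ∈ F, ∃ z ∈ A, ci k z = y := by
    intro y hy
    rw [hF, Set.Finite.mem_toFinset] at hy
    exact hy
  choose! Z hZA hZ using hrep
  set S : ℝ := ∑ y ∈ F, ν y with hS
  have hκS : κ ≤ S := by
    refine (hcov k C fun z hz => ?_).trans hC2
    exact hC1 _ (by rw [hF, Set.Finite.mem_toFinset]; exact mem_image_of_mem _ hz)
  have hSM : S ≤ M := by
    have hmaps : ∀ y ∈ F, idx k y ∈ N := by
      intro y hy
      rw [hN, Set.Finite.mem_toFinset, ← hZ y hy, idx_ci]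
      exact mem_image_of_mem _ (hZA y hy)
    have h1 : cap k s k = 1 := by
      unfold cap
      rw [div_self (by positivity), Real.one_rpow]
    have h2 : ∀ a ∈ N, ∑ y ∈ F with idx k y = a, ν y ≤ 1 := by
      intro a _
      rw [← h1]
      convert hν1 k le_rfl a
    rw [hS, ← Finset.sum_fiberwise_of_maps_to hmaps]
    refine (Finset.sum_le_sum h2).trans (le_of_eq ?_)
    rw [Finset.sum_const, nsmul_eq_mul, mul_one, hM]
  have hS0 : 0 < S := hκ.trans_le hκS
  set g : (Fin j → Fin m → ℝ) → (Fin j ⊕ Fin m → ℤ) → (Fin j → ℤ) :=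
    fun B y i => ⌊(2 : ℝ) ^ k * UB B (Z y) i⌋ with hg
  have hgm : ∀ y, Measurable fun B => g B y := by
    intro y
    refine measurable_pi_lambda _ fun i => ?_
    apply Int.measurable_floor.comp
    have h1 : Continuous fun B : Fin j → Fin m → ℝ => (2 : ℝ) ^ k * UB B (Z y) i := by
      unfold UB
      fun_prop
    exact h1.measurable
  have hset : ∀ y y', MeasurableSet {B | g B y = g B y'} := fun y y' =>
    measurableSet_eq_fun (hgm y) (hgm y')
  set H : (Fin j → Fin m → ℝ) → ℝ≥0∞ := fun B =>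
    ENNReal.ofReal (((2 : ℝ) ^ k) ^ j * (κ ^ 2)⁻¹) * ∑ y ∈ F, ∑ y' ∈ F,
      {B | g B y = g B y'}.indicator (fun _ => ENNReal.ofReal (ν y * ν y')) B with hH
  refine ⟨H, ?_, fun B => ?_, ?_⟩
  · refine Measurable.const_mul ?_ _
    refine Finset.measurable_sum _ fun y _ => Finset.measurable_sum _ fun y' _ => ?_
    exact measurable_const.indicator (hset y y')
  · -- Cauchy-Schwarz
    have h1 := cs F (g B) ν
    set E : ℝ := ∑ y ∈ F, ∑ y' ∈ F, (if g B y = g B y' then ν y * ν y' else 0) with hE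
    have hE0 : 0 ≤ E := Finset.sum_nonneg fun y _ => Finset.sum_nonneg fun y' _ => by
      split_ifs
      · exact mul_nonneg (hν0 _) (hν0 _)
      · exact le_rfl
    have hite : ∀ y y', (0 : ℝ) ≤ if g B y = g B y' then ν y * ν y' else 0 := by
      intro y y'
      split_ifs
      · exact mul_nonneg (hν0 _) (hν0 _)
      · exact le_rfl
    have h2 : H B = ENNReal.ofReal (((2 : ℝ) ^ k) ^ j * (κ ^ 2)⁻¹ * E) := by
      have hc0 : (0 : ℝ) ≤ ((2 : ℝ) ^ k) ^ j * (κ ^ 2)⁻¹ := by positivity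
      rw [hH]
      simp only
      rw [ENNReal.ofReal_mul hc0, hE]
      congr 1
      rw [ENNReal.ofReal_sum_of_nonneg fun y _ => Finset.sum_nonneg fun y' _ => hite y y']
      refine Finset.sum_congr rfl fun y _ => ?_
      rw [ENNReal.ofReal_sum_of_nonneg fun y' _ => hite y y']
      refine Finset.sum_congr rfl fun y' _ => ?_
      by_cases h : g B y = g B y'
      · rw [indicator_of_mem (show B ∈ {B | g B y = g B y'} from h), if_pos h]
      · rw [indicator_of_notMem (show B ∉ {B | g B y = g B y'} from h), if_neg h,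
          ENNReal.ofReal_zero]
    have h3 := vol_cells k (UB B '' A) (F.image (g B)) (by
      intro c hc
      obtain ⟨y, hy, rfl⟩ := Finset.mem_image.1 hc
      exact ⟨UB B (Z y), mem_image_of_mem _ (hZA y hy), fun i => rfl⟩)
    have h4 : (1 : ℝ) ≤ (((F.image (g B)).card : ℝ) * ((2 : ℝ) ^ k)⁻¹ ^ j) *
        (((2 : ℝ) ^ k) ^ j * (κ ^ 2)⁻¹ * E) := by
      have h5 : (((F.image (g B)).card : ℝ) * ((2 : ℝ) ^ k)⁻¹ ^ j) *
        (((2 : ℝ) ^ k) ^ j * (κ ^ 2)⁻¹ * E) = (κ ^ 2)⁻¹ * (((F.image (g B)).card : ℝ) * E) := by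
        have h6 : ((2 : ℝ) ^ k)⁻¹ ^ j * ((2 : ℝ) ^ k) ^ j = 1 := by
          rw [← mul_pow, inv_mul_cancel₀ (by positivity), one_pow]
        calc _ = (((2 : ℝ) ^ k)⁻¹ ^ j * ((2 : ℝ) ^ k) ^ j) *
              ((κ ^ 2)⁻¹ * (((F.image (g B)).card : ℝ) * E)) := by ring
          _ = _ := by rw [h6, one_mul]
      rw [h5, ← div_eq_inv_mul, le_div_iff₀ (by positivity), one_mul]
      refine le_trans ?_ h1
      gcongr
    have h7 : (1 : ℝ≥0∞) ≤ ((F.image (g B)).card : ℝ≥0∞) * ENNReal.ofReal (((2 : ℝ) ^ k)⁻¹ ^ j) *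
        H B := by
      rw [h2, ← ENNReal.ofReal_natCast, ← ENNReal.ofReal_mul (by positivity),
        ← ENNReal.ofReal_mul (by positivity), ← ENNReal.ofReal_one]
      exact ENNReal.ofReal_le_ofReal h4
    exact h7.trans (mul_le_mul_left h3 _)
  · -- the integral
    rw [hH]
    simp only
    rw [lintegral_const_mul _ (Finset.measurable_sum _ fun y _ =>
      Finset.measurable_sum _ fun y' _ => measurable_const.indicator (hset y y'))]
    rw [lintegral_finsetSum _ fun y _ => Finset.measurable_sum _ fun y' _ =>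
      measurable_const.indicator (hset y y')]
    have h1 : ∀ y ∈ F, ∫⁻ B in Icc (0 : Fin j → Fin m → ℝ) 1, ∑ y' ∈ F,
        {B | g B y = g B y'}.indicator (fun _ => ENNReal.ofReal (ν y * ν y')) B ≤
        ENNReal.ofReal (ν y * ((16 * m) ^ j * (((2 : ℝ) ^ k)⁻¹ ^ j * (G + M)))) := by
      intro y hy
      rw [lintegral_finsetSum _ fun y' _ => measurable_const.indicator (hset y y')]
      have h2 : ∀ y' ∈ F, ∫⁻ B in Icc (0 : Fin j → Fin m → ℝ) 1,
          {B | g B y = g B y'}.indicator (fun _ => ENNReal.ofReal (ν y * ν y')) B ≤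
          ENNReal.ofReal (ν y * ((16 * m) ^ j * (ν y' * ker k y y'))) := by
        intro y' hy'
        rw [lintegral_indicator_const (hset y y'), Measure.restrict_apply (hset y y')]
        have h3 : volume ({B | g B y = g B y'} ∩ Icc (0 : Fin j → Fin m → ℝ) 1) ≤
            ENNReal.ofReal ((16 * m) ^ j * ker k y y') := by
          have h4 := vol_ker hm k (Z y) (Z y')
          rw [hZ y hy, hZ y' hy'] at h4
          refine (measure_mono ?_).trans h4
          rintro B ⟨hB1, hB2⟩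
          refine ⟨hB2, ?_⟩
          rw [← UB_sub]
          refine (pi_norm_le_iff_of_nonneg (by positivity)).2 fun i => ?_
          have h5 : ⌊(2 : ℝ) ^ k * UB B (Z y) i⌋ = ⌊(2 : ℝ) ^ k * UB B (Z y') i⌋ :=
            congrFun hB1 i
          have h6 := Int.abs_sub_lt_one_of_floor_eq_floor h5
          rw [← mul_sub, abs_mul, abs_of_pos (by positivity : (0 : ℝ) < 2 ^ k)] at h6
          rw [Real.norm_eq_abs, Pi.sub_apply, ← one_div, le_div_iff₀ (by positivity), mul_comm]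
          exact h6.le
        refine (mul_le_mul_right h3 _).trans ?_
        rw [← ENNReal.ofReal_mul (mul_nonneg (hν0 _) (hν0 _))]
        apply le_of_eq
        congr 1
        ring
      refine (Finset.sum_le_sum h2).trans ?_
      rw [← ENNReal.ofReal_sum_of_nonneg fun y' _ => mul_nonneg (hν0 _)
        (mul_nonneg (by positivity) (mul_nonneg (hν0 _) (ker_nonneg _ _ _)))]
      apply ENNReal.ofReal_le_ofReal
      rw [← Finset.mul_sum, ← Finset.mul_sum]
      have h3 := energy k s hs F ν hν0 (by intro l hl a; convert hν1 l hl a) y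
      have h4 : ((2 : ℝ) ^ k)⁻¹ ^ j * (3 ^ (j + m) / (1 - (2 : ℝ) ^ ((j : ℝ) - s)) + ∑ y' ∈ F, ν y') ≤
          ((2 : ℝ) ^ k)⁻¹ ^ j * (G + M) := by
        gcongr
      have h5 := h3.trans h4
      have h6 := hν0 y
      gcongr
    refine (mul_le_mul_right (Finset.sum_le_sum h1) _).trans ?_
    have hM0 : 0 ≤ M := hS0.le.trans hSM
    rw [← ENNReal.ofReal_sum_of_nonneg fun y _ => mul_nonneg (hν0 _) (by positivity),
      ← ENNReal.ofReal_mul (by positivity)]
    apply ENNReal.ofReal_le_ofReal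
    rw [← Finset.sum_mul, ← hS]
    have h6 : ((2 : ℝ) ^ k)⁻¹ ^ j * ((2 : ℝ) ^ k) ^ j = 1 := by
      rw [← mul_pow, inv_mul_cancel₀ (by positivity), one_pow]
    calc ((2 : ℝ) ^ k) ^ j * (κ ^ 2)⁻¹ * (S * ((16 * m) ^ j * (((2 : ℝ) ^ k)⁻¹ ^ j * (G + M))))
        = (((2 : ℝ) ^ k)⁻¹ ^ j * ((2 : ℝ) ^ k) ^ j) *
          ((κ ^ 2)⁻¹ * ((16 * m) ^ j * (S * (G + M)))) := by ring
      _ = (κ ^ 2)⁻¹ * ((16 * m) ^ j * (S * (G + M))) := by rw [h6, one_mul]
      _ ≤ (κ ^ 2)⁻¹ * ((16 * m) ^ j * (M * (G + M))) := by gcongr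

/-- **Almost every projection to `ℝ^j` of a compact set of dimension more than `j` has positive
measure.** -/
theorem proj_pos (hm : 1 ≤ m) (A : Set (Sp j m)) (hA : IsCompact A) (hd : (j : ℝ≥0∞) < dimH A) :
    ∀ᵐ B ∂(volume.restrict (Icc (0 : Fin j → Fin m → ℝ) 1)), volume (UB B '' A) ≠ 0 := by
  obtain ⟨s', hs1, hs2⟩ := ENNReal.lt_iff_exists_nnreal_btwn.1 hd
  have hs' : (j : ℝ) < s' := by exact_mod_cast hs1
  have hAs : Measure.hausdorffMeasure (s' : ℝ) A ≠ 0 := by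
    rw [hausdorffMeasure_of_lt_dimH hs2]
    exact ENNReal.top_ne_zero
  obtain ⟨C, hC⟩ := step hm A hA s' hs' hAs
  choose H hHm hH1 hH2 using hC
  have hfat : ∫⁻ B in Icc (0 : Fin j → Fin m → ℝ) 1, liminf (fun k => H k B) atTop ≤
      ENNReal.ofReal C := by
    refine (lintegral_liminf_le hHm).trans ?_
    refine Filter.liminf_le_of_frequently_le' (Eventually.of_forall hH2).frequently
  have hae : ∀ᵐ B ∂(volume.restrict (Icc (0 : Fin j → Fin m → ℝ) 1)),
      liminf (fun k => H k B) atTop < ∞ :=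
    ae_lt_top (Measurable.liminf hHm) (hfat.trans_lt ENNReal.ofReal_lt_top).ne
  filter_upwards [hae] with B hB h0
  obtain ⟨c, hc1, hc2⟩ := exists_between hB
  have hfreq : ∃ᶠ k in atTop, H k B < c := frequently_lt_of_liminf_lt (by isBoundedDefault) hc1
  have hcomp : IsCompact (UB B '' A) := by
    refine hA.image ?_
    exact continuous_UB.comp (Continuous.prodMk_right B)
  have hlim : Tendsto (fun k : ℕ => volume (Metric.cthickening ((2 : ℝ) ^ k)⁻¹ (UB B '' A)))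
      atTop (𝓝 (volume (UB B '' A))) := by
    refine (tendsto_measure_cthickening_of_isCompact hcomp).comp ?_
    have h2 : Tendsto (fun k : ℕ => (2 : ℝ) ^ k) atTop atTop :=
      tendsto_pow_atTop_atTop_of_one_lt (by norm_num)
    exact tendsto_inv_atTop_zero.comp h2
  rw [h0] at hlim
  have hlim2 : Tendsto (fun k : ℕ => volume (Metric.cthickening ((2 : ℝ) ^ k)⁻¹ (UB B '' A)) * c)
      atTop (𝓝 (0 * c)) :=
    ENNReal.Tendsto.mul_const hlim (Or.inr hc2.ne)
  rw [zero_mul] at hlim2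
  have hev : ∀ᶠ k : ℕ in atTop,
      volume (Metric.cthickening ((2 : ℝ) ^ k)⁻¹ (UB B '' A)) * c < 1 :=
    hlim2.eventually (gt_mem_nhds one_pos)
  obtain ⟨k, hk1, hk2⟩ := (hfreq.and_eventually hev).exists
  have h3 := hH1 k B
  have h4 : volume (Metric.cthickening ((2 : ℝ) ^ k)⁻¹ (UB B '' A)) * H k B ≤
      volume (Metric.cthickening ((2 : ℝ) ^ k)⁻¹ (UB B '' A)) * c :=
    mul_le_mul_right hk1.le _
  exact absurd (h3.trans (h4.trans hk2.le)) (by
    intro h
    exact absurd (lt_of_le_of_lt (h3.trans h4) hk2) (lt_irrefl _))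

end Pool.Agent.H224.MPS
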